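import Pool.Agent.ES39.Defs

/-! ES39/FourA.  The mean of the product of the fourth powers of the `uu p (a j)`.

`uu_per`: `ee q (z + q) = ee q z`, and `p i ∣ ∏ i, p i` (`mean_prod` needs only local periods; for
`uu_per` use `Per.mul_right` of VOID/Mean).
`loc_uu`: one prime `q ≥ 2`, shifts `a j` distinct modulo `q`: for every residue
`(1 + |ee q (n - a j)|)^4 ≤ c^4 (1 + 15 1_{q ∣ n - a j})`, `c = 1 + 1/(q-1)` (`= 16 ≤ 16 c^4` if
`q ∣ n - a j`), so `∏_{j∈T} ≤ c^(4t) (1 + 15 ∑_{j∈T} 1_{q ∣ n - a j})` (at most one `j` occurs), the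
mean over the period is `≤ c^(4t) (1 + 15 t/q)`, `c ≤ exp (1/(q-1))`, `1/q ≤ 1/(q-1)`:
`≤ exp (19 t/(q-1))`.  (The mean of `1_{q ∣ n - a}` over a period is `1/q`: copy `bfasg_count` of
VOID/BfAsg.)
`mean_uu`: `∏_{j∈T} uu p (a j) n ^ 4 = ∏_i ∏_{j∈T} (1 + |ee (p i) (n - a j)|)^4`
(`Finset.prod_comm`, `Finset.prod_pow`), `mean_prod` with `Q1 = 1`, `F = 1`, `loc_uu`,
`∏_i exp (19 t/(p i - 1)) = exp (19 ∑ 1/(p i - 1)) ^ t`. -/

set_option autoImplicit false

open Finset Pool.Agent.RS Pool.Agent.VOID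

namespace Pool.Agent.ES39

variable {ι κ : Type} [Fintype ι] [DecidableEq ι] [DecidableEq κ] [Fintype κ]

private theorem foura_ee {q : ℕ} {z w : ℤ} (h : (q : ℤ) ∣ w) : ee q (z + w) = ee q z := by
  unfold ee
  by_cases h1 : (q : ℤ) ∣ z
  · rw [if_pos h1, if_pos (dvd_add h1 h)]
  · rw [if_neg h1, if_neg (fun h2 => h1 ((dvd_add_left h).1 h2))]

theorem uu_per (p : ι → ℕ) (b : ℤ) : Per (∏ i, p i) (uu p b) := by
  intro n
  unfold uu
  refine Finset.prod_congr rfl fun i _ => ?_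
  have h1 : ((p i : ℕ) : ℤ) ∣ ((∏ i, p i : ℕ) : ℤ) :=
    Int.natCast_dvd_natCast.2 (Finset.dvd_prod_of_mem p (Finset.mem_univ i))
  have h2 : n + ((∏ i, p i : ℕ) : ℤ) - b = (n - b) + ((∏ i, p i : ℕ) : ℤ) := by ring
  rw [h2, foura_ee h1]

private theorem foura_count {q : ℕ} (hq : 0 < q) (b : ℤ) :
    ∑ y ∈ range q, (if (q : ℤ) ∣ (y : ℤ) - b then (1 : ℝ) else 0) = 1 := by
  have hq0 : (q : ℤ) ≠ 0 := by exact_mod_cast hq.ne'
  have hqpos : (0 : ℤ) < q := by exact_mod_cast hq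
  obtain ⟨r, hr⟩ := Int.eq_ofNat_of_zero_le (Int.emod_nonneg b hq0)
  have hrlt : (r : ℤ) < q := by
    rw [← hr]
    exact Int.emod_lt_of_pos b hqpos
  have hrb : (q : ℤ) ∣ (r : ℤ) - b := by
    have h1 := Int.emod_add_mul_ediv b q
    rw [hr] at h1
    exact ⟨-(b / q), by linarith⟩
  rw [Finset.sum_eq_single r]
  · rw [if_pos hrb]
  · intro y hy hyr
    rw [if_neg]
    intro h
    apply hyr
    have h1 : (q : ℤ) ∣ (y : ℤ) - r := by
      have h2 : (y : ℤ) - r = ((y : ℤ) - b) - (r - b) := by ring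
      rw [h2]
      exact dvd_sub h hrb
    have h2 : (y : ℤ) - r = 0 := by
      apply Int.eq_zero_of_abs_lt_dvd h1
      have h3 := mem_range.mp hy
      rw [abs_lt]
      constructor <;> omega
    omega
  · intro h
    exfalso
    apply h
    rw [mem_range]
    exact_mod_cast hrlt

private theorem foura_prod (x : κ → ℝ) (T : Finset κ)
    (h : ∀ j ∈ T, ∀ j' ∈ T, j ≠ j' → x j * x j' = 0) :
    ∏ j ∈ T, (1 + 15 * x j) = 1 + 15 * ∑ j ∈ T, x j := by
  induction T using Finset.induction_on with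
  | empty => simp
  | insert j T hj ih =>
    have h1 := ih fun k hk k' hk' => h k (mem_insert_of_mem hk) k' (mem_insert_of_mem hk')
    have h2 : x j * ∑ k ∈ T, x k = 0 := by
      rw [Finset.mul_sum]
      refine Finset.sum_eq_zero fun k hk => ?_
      exact h j (mem_insert_self j T) k (mem_insert_of_mem hk) (fun h3 => hj (h3 ▸ hk))
    rw [prod_insert hj, sum_insert hj, h1]
    linear_combination 225 * h2

theorem loc_uu {q : ℕ} (hq : 2 ≤ q) {a : κ → ℤ} (hd : ∀ j j', j ≠ j' → ¬ (q : ℤ) ∣ a j - a j')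
    (T : Finset κ) :
    mean q (fun n => ∏ j ∈ T, (1 + |ee q (n - a j)|) ^ 4) ≤
      Real.exp (19 * T.card * (1 / ((q : ℝ) - 1))) := by
  classical
  have hq0 : 0 < q := by omega
  have hqR : (2 : ℝ) ≤ q := by exact_mod_cast hq
  have hu : (0 : ℝ) < 1 / ((q : ℝ) - 1) := by
    apply one_div_pos.2
    linarith
  obtain ⟨u, hudef⟩ : ∃ u : ℝ, u = 1 / ((q : ℝ) - 1) := ⟨_, rfl⟩
  rw [← hudef] at hu ⊢
  have hc1 : (1 : ℝ) ≤ 1 + u := by linarith
  have hc4 : (1 : ℝ) ≤ (1 + u) ^ 4 := one_le_pow₀ hc1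
  obtain ⟨x, hx⟩ : ∃ x : κ → ℤ → ℝ, x = fun j n => if (q : ℤ) ∣ n - a j then (1 : ℝ) else 0 := ⟨_, rfl⟩
  have hpt : ∀ n : ℤ, ∏ j ∈ T, (1 + |ee q (n - a j)|) ^ 4 ≤
      ((1 + u) ^ 4) ^ T.card * (1 + 15 * ∑ j ∈ T, x j n) := by
    intro n
    have h1 : ∏ j ∈ T, (1 + |ee q (n - a j)|) ^ 4 ≤ ∏ j ∈ T, ((1 + u) ^ 4 * (1 + 15 * x j n)) := by
      refine Finset.prod_le_prod (fun j _ => by positivity) fun j _ => ?_
      rw [hx]
      unfold ee
      by_cases h2 : (q : ℤ) ∣ n - a j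
      · simp only [if_pos h2]
        rw [abs_neg, abs_one]
        nlinarith
      · simp only [if_neg h2]
        rw [← hudef, abs_of_pos hu]
        linarith
    refine h1.trans ?_
    rw [Finset.prod_mul_distrib, Finset.prod_const, foura_prod (fun j => x j n) T]
    intro j _ j' _ hjj
    rw [hx]
    by_cases h2 : (q : ℤ) ∣ n - a j
    · by_cases h3 : (q : ℤ) ∣ n - a j'
      · exfalso
        apply hd j j' hjj
        have h4 : a j - a j' = (n - a j') - (n - a j) := by ring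
        rw [h4]
        exact dvd_sub h3 h2
      · simp only [if_neg h3, mul_zero]
    · simp only [if_neg h2, zero_mul]
  have hind : ∀ j : κ, mean q (x j) = 1 / q := by
    intro j
    unfold mean
    rw [hx]
    rw [foura_count hq0 (a j)]
  have h2 : mean q (fun n => ((1 + u) ^ 4) ^ T.card * (1 + 15 * ∑ j ∈ T, x j n)) =
      ((1 + u) ^ 4) ^ T.card * (1 + 15 * (T.card * (1 / (q : ℝ)))) := by
    rw [mean_const_mul, mean_add, mean_const hq0, mean_const_mul, mean_sum,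
      sum_congr rfl fun j _ => hind j, sum_const, nsmul_eq_mul]
  have h3 : ((1 + u) ^ 4) ^ T.card ≤ Real.exp (4 * T.card * u) := by
    have h4 : (1 + u) ≤ Real.exp u := by
      have := Real.add_one_le_exp u
      linarith
    calc ((1 + u) ^ 4) ^ T.card ≤ ((Real.exp u) ^ 4) ^ T.card := by gcongr
      _ = Real.exp (4 * T.card * u) := by
        rw [← Real.exp_nat_mul, ← Real.exp_nat_mul]
        congr 1
        push_cast
        ring
  have h4 : 1 + 15 * (T.card * (1 / (q : ℝ))) ≤ Real.exp (15 * T.card * u) := by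
    have h5 : (1 / (q : ℝ)) ≤ u := by
      rw [hudef]
      apply one_div_le_one_div_of_le
      · linarith
      · linarith
    have h6 : 15 * (T.card * (1 / (q : ℝ))) ≤ 15 * T.card * u := by
      have h7 : (T.card : ℝ) * (1 / (q : ℝ)) ≤ T.card * u :=
        mul_le_mul_of_nonneg_left h5 (Nat.cast_nonneg _)
      linarith
    have h7 := Real.add_one_le_exp (15 * (T.card : ℝ) * u)
    linarith
  calc mean q (fun n => ∏ j ∈ T, (1 + |ee q (n - a j)|) ^ 4)
      ≤ mean q (fun n => ((1 + u) ^ 4) ^ T.card * (1 + 15 * ∑ j ∈ T, x j n)) := mean_mono hpt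
    _ = ((1 + u) ^ 4) ^ T.card * (1 + 15 * (T.card * (1 / (q : ℝ)))) := h2
    _ ≤ Real.exp (4 * T.card * u) * Real.exp (15 * T.card * u) := by
        apply mul_le_mul h3 h4 _ (Real.exp_pos _).le
        positivity
    _ = Real.exp (19 * T.card * u) := by
        rw [← Real.exp_add]
        congr 1
        ring

theorem mean_uu {p : ι → ℕ} (hp : ∀ i, 2 ≤ p i) (hc : ∀ i j, i ≠ j → Nat.Coprime (p i) (p j))
    {a : κ → ℤ} (hd : ∀ i j j', j ≠ j' → ¬ (p i : ℤ) ∣ a j - a j') (T : Finset κ) :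
    mean (∏ i, p i) (fun n => ∏ j ∈ T, uu p (a j) n ^ 4) ≤
      Real.exp (19 * ∑ i, 1 / ((p i : ℝ) - 1)) ^ T.card := by
  have h1 : (fun n => ∏ j ∈ T, uu p (a j) n ^ 4) =
      fun n => (fun _ : ℤ => (1 : ℝ)) n * ∏ i ∈ (Finset.univ : Finset ι),
        (fun (i : ι) (n : ℤ) => ∏ j ∈ T, (1 + |ee (p i) (n - a j)|) ^ 4) i n := by
    funext n
    unfold uu
    rw [one_mul, Finset.prod_comm]
    refine Finset.prod_congr rfl fun j _ => ?_
    rw [Finset.prod_pow]
  have h2 := mean_prod (Finset.univ : Finset ι) p (fun i _ => by have := hp i; omega)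
    (fun i _ j _ hij => hc i j hij) (Q1 := 1) one_pos (fun i _ => Nat.coprime_one_left _)
    (F := fun _ : ℤ => (1 : ℝ)) (fun _ => rfl)
    (fun (i : ι) (n : ℤ) => ∏ j ∈ T, (1 + |ee (p i) (n - a j)|) ^ 4) (by
      intro i _ n
      refine Finset.prod_congr rfl fun j _ => ?_
      have h3 : n + ((p i : ℕ) : ℤ) - a j = (n - a j) + ((p i : ℕ) : ℤ) := by ring
      rw [h3, foura_ee (dvd_refl _)])
  rw [one_mul] at h2
  rw [h1, h2, mean_const one_pos, one_mul]
  calc ∏ i ∈ (Finset.univ : Finset ι), mean (p i) (fun n => ∏ j ∈ T, (1 + |ee (p i) (n - a j)|) ^ 4)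
      ≤ ∏ i ∈ (Finset.univ : Finset ι), Real.exp (19 * T.card * (1 / ((p i : ℝ) - 1))) := by
        refine Finset.prod_le_prod (fun i _ => mean_nonneg fun n => ?_) fun i _ => loc_uu (hp i) (hd i) T
        exact Finset.prod_nonneg fun j _ => by positivity
    _ = Real.exp (19 * ∑ i, 1 / ((p i : ℝ) - 1)) ^ T.card := by
        rw [← Real.exp_sum, ← Real.exp_nat_mul]
        congr 1
        rw [← Finset.mul_sum]
        ring

end Pool.Agent.ES39
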