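import Pool.Agent.ES39.SupX
import Pool.Agent.ES39.FourA

/-! ES39/FourB.  The fourth moment (Lemma E of es39.md).

`supX`, `mean_mono`; `∏_j (1 + x_j y_j) = ∑_{T ⊆ univ} ∏_{j∈T} x_j ∏_{j∈T} y_j`
(`Finset.prod_one_add`, `Finset.prod_mul_distrib`) with `x_j = ψ (n - a j)^4`,
`y_j = uu p (a j) n ^ 4 - 1`; `mean_sum`; `mean_mul` (`Q1` and `Q2 = ∏ p i` are coprime;
`n ↦ ∏_{j∈T} ψ (n - a j)^4` is `Q1`-periodic by `SX.per`, `n ↦ ∏_{j∈T} (uu^4 - 1)` is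
`Q2`-periodic by `uu_per`): the mean of the term `T` is `Me Q1 ψ a 4 T * mean Q2 (∏_{j∈T} (uu^4 - 1))`
`≤ V2 ^ T.card * P ^ T.card` (`SX.Me4_le`; `0 ≤ uu^4 - 1 ≤ uu^4` and `mean_uu`),
`P = exp (19 ∑ 1/(p i - 1))`.  `∑_T (V2 P)^T.card = (1 + V2 P)^k ≤ exp (k V2 P)`
(`Finset.prod_one_add` again, with constant factors). -/

set_option autoImplicit false

open Finset Pool.Agent.RS Pool.Agent.VOID

namespace Pool.Agent.ES39

variable {ι κ : Type} [Fintype ι] [DecidableEq ι] [DecidableEq κ] [Fintype κ]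

private theorem FourB_term {p : ι → ℕ} {Q1 : ℕ} {a : κ → ℤ} {z : ℝ} (h : Hy p Q1 a z) {ψ : ℤ → ℝ}
    {Wψ V2 : ℝ} (hs : SX Q1 ψ Wψ V2 a) (T : Finset κ) :
    mean (Q1 * ∏ i, p i) (fun n => ∏ j ∈ T, (ψ (n - a j) ^ 4 * (uu p (a j) n ^ 4 - 1))) ≤
      (V2 * Real.exp (19 * ∑ i, 1 / ((p i : ℝ) - 1))) ^ T.card := by
  have hpos : 0 < ∏ i, p i := prod_pos fun i _ => lt_of_lt_of_le (by norm_num) (h.two i)
  have hcop : Nat.Coprime Q1 (∏ i, p i) := Nat.Coprime.prod_right fun i _ => h.copQ i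
  have hF : Per Q1 (fun n => ∏ j ∈ T, ψ (n - a j) ^ 4) := by
    intro n
    refine prod_congr rfl fun j _ => ?_
    have h1 : n + (Q1 : ℤ) - a j = (n - a j) + Q1 := by ring
    rw [h1, hs.per (n - a j)]
  have hG : Per (∏ i, p i) (fun n => ∏ j ∈ T, (uu p (a j) n ^ 4 - 1)) := by
    intro n
    refine prod_congr rfl fun j _ => ?_
    rw [uu_per p (a j) n]
  have h1 : (fun n => ∏ j ∈ T, (ψ (n - a j) ^ 4 * (uu p (a j) n ^ 4 - 1))) =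
      fun n => (∏ j ∈ T, ψ (n - a j) ^ 4) * ∏ j ∈ T, (uu p (a j) n ^ 4 - 1) := by
    funext n
    rw [prod_mul_distrib]
  rw [h1, mean_mul h.Q1pos hpos hcop hF hG]
  have hu : ∀ (j : κ) (n : ℤ), 0 ≤ uu p (a j) n ^ 4 - 1 := fun j n =>
    sub_nonneg.2 (one_le_pow₀ (one_le_uu p (a j) n))
  have h2 : mean (∏ i, p i) (fun n => ∏ j ∈ T, (uu p (a j) n ^ 4 - 1)) ≤
      Real.exp (19 * ∑ i, 1 / ((p i : ℝ) - 1)) ^ T.card := by
    refine le_trans (mean_mono fun n => ?_) (mean_uu h.two h.cop h.sep T)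
    exact prod_le_prod (fun j _ => hu j n) fun j _ => by linarith
  have h3 : mean Q1 (fun n => ∏ j ∈ T, ψ (n - a j) ^ 4) ≤ V2 ^ T.card := hs.Me4_le h.Q1pos T
  rw [mul_pow]
  refine mul_le_mul h3 h2 (mean_nonneg fun n => prod_nonneg fun j _ => hu j n) ?_
  exact pow_nonneg hs.V2_nonneg _

theorem four {p : ι → ℕ} {Q1 : ℕ} {a : κ → ℤ} {z : ℝ} (h : Hy p Q1 a z) {ψ : ℤ → ℝ}
    {Wψ V2 : ℝ} (hs : SX Q1 ψ Wψ V2 a) {y : Finset ι → ℝ} (hy0 : y ∅ = 1)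
    (hy1 : ∀ S, |y S| ≤ 1) (D : ℝ) :
    mean (Q1 * ∏ i, p i) (fun n => GZ p a ψ (Yd p y D) n ^ 4) ≤
      Real.exp ((Fintype.card κ : ℝ) * V2 *
        Real.exp (19 * ∑ i, 1 / ((p i : ℝ) - 1))) := by
  set P : ℝ := Real.exp (19 * ∑ i, 1 / ((p i : ℝ) - 1)) with hP
  have h1 : mean (Q1 * ∏ i, p i) (fun n => GZ p a ψ (Yd p y D) n ^ 4) ≤
      mean (Q1 * ∏ i, p i) (fun n => ∑ T ∈ (univ : Finset κ).powerset,
        ∏ j ∈ T, (ψ (n - a j) ^ 4 * (uu p (a j) n ^ 4 - 1))) := by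
    refine mean_mono fun n => ?_
    rw [← prod_one_add]
    exact supX a y hy0 hy1 D n hs.zo
  refine h1.trans ?_
  rw [mean_sum]
  have h2 : ∑ T ∈ (univ : Finset κ).powerset, mean (Q1 * ∏ i, p i)
      (fun n => ∏ j ∈ T, (ψ (n - a j) ^ 4 * (uu p (a j) n ^ 4 - 1))) ≤
      ∑ T ∈ (univ : Finset κ).powerset, ∏ _j ∈ T, (V2 * P) := by
    refine sum_le_sum fun T _ => ?_
    rw [prod_const]
    exact FourB_term h hs T
  refine h2.trans ?_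
  rw [← prod_one_add, prod_const, card_univ]
  have h3 : 1 + V2 * P ≤ Real.exp (V2 * P) := by
    have := Real.add_one_le_exp (V2 * P)
    linarith
  have h4 : 0 ≤ 1 + V2 * P := by
    have := mul_nonneg hs.V2_nonneg (Real.exp_pos (19 * ∑ i, 1 / ((p i : ℝ) - 1))).le
    rw [← hP] at this
    linarith
  calc (1 + V2 * P) ^ Fintype.card κ ≤ Real.exp (V2 * P) ^ Fintype.card κ :=
        pow_le_pow_left₀ h4 h3 _
    _ = Real.exp ((Fintype.card κ : ℝ) * V2 * P) := by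
        rw [← Real.exp_nat_mul, mul_assoc]

end Pool.Agent.ES39
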