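import Pool.Agent.ES39.Defs
import Pool.Agent.VOID.MomC

/-! ES39/ZmX.  Copy `VOID.zm_sumV` (Pool/Agent/VOID/MomC.lean) with `w (Tc σ)` in place of
`Pi (Tc σ).card` and `ZX p y D w` in place of `ZZ κ p y D Pi`. -/

set_option autoImplicit false

open Finset Pool.Agent.RS Pool.Agent.VOID

namespace Pool.Agent.ES39

variable {ι κ : Type} [Fintype ι] [DecidableEq ι] [DecidableEq κ] [Fintype κ]

open Classical in
theorem zm_sumX {p : ι → ℕ} (hp : ∀ i, 2 ≤ p i) (y : Finset ι → ℝ) {D D2 δ τ : ℝ}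
    {w : Finset κ → ℝ} (hw : ∀ T, 0 ≤ w T)
    (hc1 : ∀ U, |cc p y D U| ≤ 1) (hc2 : ∀ U, PP p U ≤ D2 → |cc p y D U| ≤ δ)
    (htail : ∑ σ ∈ (univ : Finset (ι → Option κ)).filter (fun σ => D2 < PP p (supp σ)),
        Yd p y D σ ^ 2 / PH p (supp σ) * w (Tc σ) ≤ τ * ZX p y D w) (m : κ) :
    ∑ σ, Zm p y D m σ ^ 2 / PH p (supp σ) * w (Tc σ) ≤
      (δ ^ 2 + τ) * ZX p y D w := by
  have hPH : ∀ σ : ι → Option κ, 0 < PH p (supp σ) := fun σ =>
    lt_of_lt_of_le one_pos (one_le_PH hp _)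
  have key : ∀ σ : ι → Option κ, Zm p y D m σ ^ 2 ≤ Yd p y D σ ^ 2 * cc p y D (supp σ) ^ 2 := by
    intro σ
    unfold Zm
    by_cases hc : cell σ m = ∅
    · rw [if_pos hc]
      by_cases hD : PP p (supp σ) ≤ D
      · unfold Yd
        rw [if_pos hD, mul_pow]
      · rw [cc_eq_zero hp y (lt_of_not_ge hD)]
        simp
    · rw [if_neg hc]
      have h0 : 0 ≤ Yd p y D σ ^ 2 * cc p y D (supp σ) ^ 2 :=
        mul_nonneg (sq_nonneg _) (sq_nonneg _)
      simpa using h0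
  have hterm : ∀ σ : ι → Option κ, Zm p y D m σ ^ 2 / PH p (supp σ) * w (Tc σ) ≤
      δ ^ 2 * (Yd p y D σ ^ 2 / PH p (supp σ) * w (Tc σ)) +
        (if D2 < PP p (supp σ) then Yd p y D σ ^ 2 / PH p (supp σ) * w (Tc σ) else 0) := by
    intro σ
    have hq : 0 ≤ Yd p y D σ ^ 2 / PH p (supp σ) * w (Tc σ) :=
      mul_nonneg (div_nonneg (sq_nonneg _) (hPH σ).le) (hw _)
    have h1 : Zm p y D m σ ^ 2 / PH p (supp σ) * w (Tc σ) ≤
        (Yd p y D σ ^ 2 / PH p (supp σ) * w (Tc σ)) * cc p y D (supp σ) ^ 2 := by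
      have h2 : Zm p y D m σ ^ 2 / PH p (supp σ) ≤
          (Yd p y D σ ^ 2 / PH p (supp σ)) * cc p y D (supp σ) ^ 2 := by
        rw [div_mul_eq_mul_div]
        exact div_le_div_of_nonneg_right (key σ) (hPH σ).le
      calc Zm p y D m σ ^ 2 / PH p (supp σ) * w (Tc σ)
          ≤ (Yd p y D σ ^ 2 / PH p (supp σ)) * cc p y D (supp σ) ^ 2 * w (Tc σ) :=
            mul_le_mul_of_nonneg_right h2 (hw _)
        _ = _ := by ring
    by_cases h : D2 < PP p (supp σ)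
    · rw [if_pos h]
      have h2 : cc p y D (supp σ) ^ 2 ≤ 1 := by
        have := hc1 (supp σ)
        rw [← sq_abs]
        exact pow_le_one₀ (abs_nonneg _) this
      have h3 := mul_le_of_le_one_right hq h2
      have h4 : 0 ≤ δ ^ 2 * (Yd p y D σ ^ 2 / PH p (supp σ) * w (Tc σ)) :=
        mul_nonneg (sq_nonneg _) hq
      linarith
    · rw [if_neg h]
      have h2 : cc p y D (supp σ) ^ 2 ≤ δ ^ 2 := by
        have := hc2 (supp σ) (not_lt.mp h)
        rw [← sq_abs]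
        exact pow_le_pow_left₀ (abs_nonneg _) this 2
      have h3 := mul_le_mul_of_nonneg_left h2 hq
      linarith
  unfold ZX
  calc ∑ σ, Zm p y D m σ ^ 2 / PH p (supp σ) * w (Tc σ) ≤
      ∑ σ : ι → Option κ, (δ ^ 2 * (Yd p y D σ ^ 2 / PH p (supp σ) * w (Tc σ)) +
        (if D2 < PP p (supp σ) then Yd p y D σ ^ 2 / PH p (supp σ) * w (Tc σ) else 0)) :=
        Finset.sum_le_sum (fun σ _ => hterm σ)
    _ = δ ^ 2 * ∑ σ : ι → Option κ, Yd p y D σ ^ 2 / PH p (supp σ) * w (Tc σ) +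
        ∑ σ ∈ (univ : Finset (ι → Option κ)).filter (fun σ => D2 < PP p (supp σ)),
          Yd p y D σ ^ 2 / PH p (supp σ) * w (Tc σ) := by
        rw [Finset.sum_add_distrib, ← Finset.mul_sum, Finset.sum_filter]
    _ ≤ δ ^ 2 * ∑ σ : ι → Option κ, Yd p y D σ ^ 2 / PH p (supp σ) * w (Tc σ) +
        τ * ∑ σ : ι → Option κ, Yd p y D σ ^ 2 / PH p (supp σ) * w (Tc σ) := by
        refine add_le_add le_rfl ?_
        exact htail
    _ = _ := by ring

end Pool.Agent.ES39
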