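import Pool.Agent.ES39.MomX
import Pool.Agent.ES39.ZmX
import Pool.Agent.ES39.FourB
import Pool.Agent.VOID.RepAvg

/-! ES39/AbsTX.  Transfer of the mean values to the average along the progression `n0 + M t`, `t < T`.

Compare Pool/Agent/VOID/AbsT.lean (`tr0`, `tr2`, and the private lemmas `abst_zm`, `abst_zm_supp`,
`abst_card`, `abst_repY`, `abst_repZ`, `abst_sq`, `abst_ps`, `abst_Qpos`; these use only `hs.rep` and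
`hs.one_le_W`, copy them with `SX` in place of `SS`).
`trX0`: `Rep.avg` for the square of `GZ (Yd)`, `momX0`.
`trX2`: `Rep.avg` for `ψ (n - a m) * GZ (Zm) ^ 2`, `momX2`, `zm_sumX` (`w = Me Q1 ψ a 2`).
`trX4`: `Rep.pow` with exponent `4` (weight `(C (3 Wψ)^N)^4`), `Rep.avg`, `four`. -/

set_option autoImplicit false

open Finset Pool.Agent.RS Pool.Agent.VOID

namespace Pool.Agent.ES39

variable {ι κ : Type} [Fintype ι] [DecidableEq ι] [DecidableEq κ] [Fintype κ]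

omit [DecidableEq ι] [DecidableEq κ] [Fintype κ] [Fintype ι] in
private theorem AbsTX_pp {p : ι → ℕ} (hp : ∀ i, 2 ≤ p i) (S : Finset ι) : 1 ≤ PP p S := by
  classical
  unfold PP
  refine Finset.induction_on S (by simp) fun i S hi ih => ?_
  rw [Finset.prod_insert hi]
  have h1 : (2 : ℝ) ≤ (p i : ℝ) := by exact_mod_cast hp i
  nlinarith

private theorem AbsTX_zm {p : ι → ℕ} {y : Finset ι → ℝ} (hy1 : ∀ S, |y S| ≤ 1)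
    {D : ℝ} (hc1 : ∀ U, |cc p y D U| ≤ 1) (m : κ) (σ : ι → Option κ) :
    |Zm p y D m σ| ≤ 1 := by
  unfold Zm
  split_ifs
  · rw [abs_mul, Yt, Finset.abs_prod]
    exact mul_le_one₀ (Finset.prod_le_one (fun j _ => abs_nonneg _) fun j _ => hy1 _)
      (abs_nonneg _) (hc1 _)
  · rw [abs_zero]
    exact zero_le_one

private theorem AbsTX_zm_supp {p : ι → ℕ} (hp : ∀ i, 2 ≤ p i) {y : Finset ι → ℝ}
    {D : ℝ} {m : κ} {σ : ι → Option κ} (h : Zm p y D m σ ≠ 0) : PP p (supp σ) ≤ D := by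
  unfold Zm at h
  have h1 : cc p y D (supp σ) ≠ 0 := by
    intro h0
    rw [h0, mul_zero] at h
    simp at h
  unfold cc at h1
  obtain ⟨S, _, hS⟩ := Finset.exists_ne_zero_of_sum_ne_zero h1
  have h2 : PP p S * PP p (supp σ) ≤ D := by
    by_contra h3
    rw [if_neg h3] at hS
    exact hS rfl
  have h3 := AbsTX_pp hp S
  have h4 := AbsTX_pp hp (supp σ)
  nlinarith

open Classical in
private theorem AbsTX_card {P : (ι → Option κ) → Prop} {Z : (ι → Option κ) → ℝ}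
    (hZ : ∀ σ, Z σ ≠ 0 → P σ) {C : ℝ}
    (hC : (((univ : Finset (ι → Option κ)).filter P).card : ℝ) ≤ C) :
    (((univ : Finset (ι → Option κ)).filter (fun σ => Z σ ≠ 0)).card : ℝ) ≤ C := by
  refine le_trans ?_ hC
  exact_mod_cast Finset.card_le_card fun σ hσ =>
    Finset.mem_filter.2 ⟨Finset.mem_univ _, hZ σ (Finset.mem_filter.1 hσ).2⟩

open Classical in
private theorem AbsTX_repY {p : ι → ℕ} (hp : ∀ i, 2 ≤ p i) {Q1 : ℕ} {a : κ → ℤ}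
    {ψ : ℤ → ℝ} {Wψ V2 : ℝ} {N : ℕ} (hs : SX Q1 ψ Wψ V2 a) {D : ℝ}
    (hN : ∀ S : Finset ι, PP p S ≤ D → S.card ≤ N) {y : Finset ι → ℝ} (hy1 : ∀ S, |y S| ≤ 1)
    {C : ℝ} (hC : (((univ : Finset (ι → Option κ)).filter
      (fun σ => PP p (supp σ) ≤ D)).card : ℝ) ≤ C) :
    Rep (Q1 * ∏ i, p i) (GZ p a ψ (Yd p y D)) (C * (3 * Wψ) ^ N) :=
  rep_GZ hp hs.rep hs.one_le_W a (Yd p y D) (Yd_abs hy1 D)
    (fun _ hσ => hN _ (Yd_supp hσ)) (AbsTX_card (fun _ hσ => Yd_supp hσ) hC)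

open Classical in
private theorem AbsTX_repZ {p : ι → ℕ} (hp : ∀ i, 2 ≤ p i) {Q1 : ℕ} {a : κ → ℤ}
    {ψ : ℤ → ℝ} {Wψ V2 : ℝ} {N : ℕ} (hs : SX Q1 ψ Wψ V2 a) {D : ℝ}
    (hN : ∀ S : Finset ι, PP p S ≤ D → S.card ≤ N) {y : Finset ι → ℝ} (hy1 : ∀ S, |y S| ≤ 1)
    (hc1 : ∀ U, |cc p y D U| ≤ 1)
    {C : ℝ} (hC : (((univ : Finset (ι → Option κ)).filter
      (fun σ => PP p (supp σ) ≤ D)).card : ℝ) ≤ C) (m : κ) :
    Rep (Q1 * ∏ i, p i) (GZ p a ψ (Zm p y D m)) (C * (3 * Wψ) ^ N) :=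
  rep_GZ hp hs.rep hs.one_le_W a (Zm p y D m) (AbsTX_zm hy1 hc1 m)
    (fun _ hσ => hN _ (AbsTX_zm_supp hp hσ)) (AbsTX_card (fun _ hσ => AbsTX_zm_supp hp hσ) hC)

private theorem AbsTX_sq {Q : ℕ} {f : ℤ → ℝ} {W : ℝ} (h : Rep Q f W) :
    Rep Q (fun n => f n ^ 2) (W ^ 2) := Rep.pow h 2

private theorem AbsTX_ps {Q1 R : ℕ} {ψ f : ℤ → ℝ} {W Wψ : ℝ} (hψ : Rep Q1 ψ Wψ) (c : ℤ)
    (h : Rep (Q1 * R) f W) : Rep (Q1 * R) (fun n => ψ (n - c) * f n ^ 2) (W ^ 2 * Wψ) := by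
  have h1 := Rep.mul (Rep.dvd_mono (Dvd.intro R rfl) (Rep.shift hψ c)) (AbsTX_sq h)
  rwa [mul_comm Wψ] at h1

private theorem AbsTX_Qpos {p : ι → ℕ} {Q1 : ℕ} {a : κ → ℤ} {z : ℝ} (h : Hy p Q1 a z) :
    0 < Q1 * ∏ i, p i :=
  Nat.mul_pos h.Q1pos (Finset.prod_pos fun i _ => by have := h.two i; omega)

open Classical in
theorem trX0 {p : ι → ℕ} {Q1 M : ℕ} {a : κ → ℤ} {z : ℝ} (h : Hy p Q1 a z)
    (hM : Nat.Coprime M (Q1 * ∏ i, p i)) {ψ : ℤ → ℝ} {Wψ V2 : ℝ} {N : ℕ}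
    (hs : SX Q1 ψ Wψ V2 a) {D : ℝ}
    (hN : ∀ S : Finset ι, PP p S ≤ D → S.card ≤ N) {y : Finset ι → ℝ} (hy1 : ∀ S, |y S| ≤ 1)
    {C : ℝ} (hC : (((univ : Finset (ι → Option κ)).filter
      (fun σ => PP p (supp σ) ≤ D)).card : ℝ) ≤ C) (n0 : ℤ) (T : ℕ) :
    (T : ℝ) * (ZX p y D (Me Q1 ψ a 2) - offB κ p N z) - 2 * (C * (3 * Wψ) ^ N) ^ 2 ≤
      ∑ t ∈ range T, GZ p a ψ (Yd p y D) (n0 + M * (t : ℤ)) ^ 2 := by
  have h1 := Rep.avg (AbsTX_Qpos h) hM (AbsTX_sq (AbsTX_repY h.two hs hN hy1 hC)) T n0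
  have h2 := momX0 h hs hN hy1
  have h3 := mul_le_mul_of_nonneg_left h2 (Nat.cast_nonneg (α := ℝ) T)
  have h4 := (abs_le.1 h1).1
  linarith

open Classical in
theorem trX2 {p : ι → ℕ} {Q1 M : ℕ} {a : κ → ℤ} {z : ℝ} (h : Hy p Q1 a z)
    (hM : Nat.Coprime M (Q1 * ∏ i, p i)) {ψ : ℤ → ℝ} {Wψ V2 : ℝ} {N : ℕ}
    (hs : SX Q1 ψ Wψ V2 a) {D D2 : ℝ}
    (hN : ∀ S : Finset ι, PP p S ≤ D → S.card ≤ N) {y : Finset ι → ℝ} (hy1 : ∀ S, |y S| ≤ 1)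
    {δ τ : ℝ} (hc1 : ∀ U, |cc p y D U| ≤ 1) (hc2 : ∀ U, PP p U ≤ D2 → |cc p y D U| ≤ δ)
    (htail : ∑ σ ∈ (univ : Finset (ι → Option κ)).filter (fun σ => D2 < PP p (supp σ)),
        Yd p y D σ ^ 2 / PH p (supp σ) * Me Q1 ψ a 2 (Tc σ) ≤ τ * ZX p y D (Me Q1 ψ a 2))
    {C : ℝ} (hC : (((univ : Finset (ι → Option κ)).filter
      (fun σ => PP p (supp σ) ≤ D)).card : ℝ) ≤ C) (n0 : ℤ) (T : ℕ) (m : κ) :
    ∑ t ∈ range T, ψ (n0 + M * (t : ℤ) - a m) *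
        GZ p a ψ (Zm p y D m) (n0 + M * (t : ℤ)) ^ 2 ≤
      (T : ℝ) * (V2 * ((δ ^ 2 + τ) * ZX p y D (Me Q1 ψ a 2)) + offB κ p N z) +
        2 * ((C * (3 * Wψ) ^ N) ^ 2 * Wψ) := by
  have h1 := Rep.avg (AbsTX_Qpos h) hM
    (AbsTX_ps hs.rep (a m) (AbsTX_repZ h.two hs hN hy1 hc1 hC m)) T n0
  have h2 := (abs_le.1 h1).2
  have h3 := momX2 h hs hN hy1 hc1 m
  have h4 := zm_sumX h.two y (fun T => hs.Me_nonneg 2 T) hc1 hc2 htail m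
  have h5 := mul_le_mul_of_nonneg_left h4 hs.V2_nonneg
  have h6 : mean (Q1 * ∏ i, p i) (fun n => ψ (n - a m) * GZ p a ψ (Zm p y D m) n ^ 2) ≤
      V2 * ((δ ^ 2 + τ) * ZX p y D (Me Q1 ψ a 2)) + offB κ p N z := by
    linarith
  have h7 := mul_le_mul_of_nonneg_left h6 (Nat.cast_nonneg (α := ℝ) T)
  linarith

open Classical in
theorem trX4 {p : ι → ℕ} {Q1 M : ℕ} {a : κ → ℤ} {z : ℝ} (h : Hy p Q1 a z)
    (hM : Nat.Coprime M (Q1 * ∏ i, p i)) {ψ : ℤ → ℝ} {Wψ V2 : ℝ} {N : ℕ}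
    (hs : SX Q1 ψ Wψ V2 a) {D : ℝ}
    (hN : ∀ S : Finset ι, PP p S ≤ D → S.card ≤ N) {y : Finset ι → ℝ} (hy0 : y ∅ = 1)
    (hy1 : ∀ S, |y S| ≤ 1)
    {C : ℝ} (hC : (((univ : Finset (ι → Option κ)).filter
      (fun σ => PP p (supp σ) ≤ D)).card : ℝ) ≤ C) (n0 : ℤ) (T : ℕ) :
    ∑ t ∈ range T, GZ p a ψ (Yd p y D) (n0 + M * (t : ℤ)) ^ 4 ≤
      (T : ℝ) * Real.exp ((Fintype.card κ : ℝ) * V2 *
        Real.exp (19 * ∑ i, 1 / ((p i : ℝ) - 1))) + 2 * (C * (3 * Wψ) ^ N) ^ 4 := by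
  have h1 := Rep.avg (AbsTX_Qpos h) hM (Rep.pow (AbsTX_repY h.two hs hN hy1 hC) 4) T n0
  have h2 := (abs_le.1 h1).2
  have h3 := four h hs hy0 hy1 D
  have h4 := mul_le_mul_of_nonneg_left h3 (Nat.cast_nonneg (α := ℝ) T)
  linarith

end Pool.Agent.ES39
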