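import Pool.Agent.ES39.AbsTX
import Pool.Agent.VOID.Rough

/-! ES39/AbsX.  The abstract theorem (Section 7 of es39.md).

The second moment of `GZ (Yd)` over the set on the right hand side is at least `T / 2` (`trX0`,
`rough_idV`, `trX2`) and the fourth moment is at most `2 T E` (`trX4`); Cauchy-Schwarz. -/

set_option autoImplicit false

open Finset Pool.Agent.RS Pool.Agent.VOID

namespace Pool.Agent.ES39

variable {ι κ : Type} [Fintype ι] [DecidableEq ι] [DecidableEq κ] [Fintype κ]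

omit [DecidableEq ι] [DecidableEq κ] in
private theorem absx_off {p : ι → ℕ} (hp : ∀ i, 2 ≤ p i) {z : ℝ} (hz : 0 < z) (N : ℕ) :
    0 ≤ offB κ p N z := by
  unfold offB
  have h1 : 0 ≤ ∏ i, (1 + 1 / ((p i : ℝ) - 1)) := by
    refine Finset.prod_nonneg fun i _ => ?_
    have h2 : (2 : ℝ) ≤ (p i : ℝ) := by exact_mod_cast hp i
    have h3 : 0 ≤ 1 / ((p i : ℝ) - 1) := one_div_nonneg.2 (by linarith)
    linarith
  positivity

open Classical in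
theorem absX {p : ι → ℕ} {Q1 M : ℕ} {a : κ → ℤ} {z : ℝ} (h : Hy p Q1 a z)
    (hM : Nat.Coprime M (Q1 * ∏ i, p i)) {ψ : ℤ → ℝ} {Wψ V2 : ℝ} {N : ℕ}
    (hs : SX Q1 ψ Wψ V2 a) {D D2 : ℝ} (hD : 1 ≤ D)
    (hN : ∀ S : Finset ι, PP p S ≤ D → S.card ≤ N) {y : Finset ι → ℝ} (hy0 : y ∅ = 1)
    (hy1 : ∀ S, |y S| ≤ 1)
    {δ τ : ℝ} (hc1 : ∀ U, |cc p y D U| ≤ 1) (hc2 : ∀ U, PP p U ≤ D2 → |cc p y D U| ≤ δ)
    (htail : ∑ σ ∈ (univ : Finset (ι → Option κ)).filter (fun σ => D2 < PP p (supp σ)),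
        Yd p y D σ ^ 2 / PH p (supp σ) * Me Q1 ψ a 2 (Tc σ) ≤ τ * ZX p y D (Me Q1 ψ a 2))
    {C : ℝ} (hC : (((univ : Finset (ι → Option κ)).filter
      (fun σ => PP p (supp σ) ≤ D)).card : ℝ) ≤ C) {n0 : ℤ} {T : ℕ} (hT : 0 < T)
    (h1 : (Fintype.card κ : ℝ) * V2 * (δ ^ 2 + τ) ≤ 1 / 8)
    (h3 : (1 + (Fintype.card κ : ℝ)) * offB κ p N z ≤ 1 / 8)
    (h4 : 16 * (1 + (Fintype.card κ : ℝ)) * ((C * (3 * Wψ) ^ N) ^ 2 * Wψ) ≤ T)
    (h5 : 2 * (C * (3 * Wψ) ^ N) ^ 4 ≤ T) :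
    (T : ℝ) ≤ 8 * Real.exp ((Fintype.card κ : ℝ) * V2 *
        Real.exp (19 * ∑ i, 1 / ((p i : ℝ) - 1))) *
      (((range T).filter (fun t : ℕ => ∀ j, ψ (n0 + M * (t : ℤ) - a j) ≠ 1 ∨
        ∃ i, (p i : ℤ) ∣ n0 + M * (t : ℤ) - a j)).card : ℝ) := by
  set k : ℝ := (Fintype.card κ : ℝ) with hk
  set o : ℝ := offB κ p N z with ho
  set W : ℝ := C * (3 * Wψ) ^ N with hW
  set E : ℝ := Real.exp (k * V2 * Real.exp (19 * ∑ i, 1 / ((p i : ℝ) - 1))) with hE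
  set Z : ℝ := ZX p y D (Me Q1 ψ a 2) with hZ
  set g : ℕ → ℝ := fun t => GZ p a ψ (Yd p y D) (n0 + M * (t : ℤ)) with hg
  set gz : κ → ℕ → ℝ := fun m t => GZ p a ψ (Zm p y D m) (n0 + M * (t : ℤ)) with hgz
  set G : Finset ℕ := (range T).filter (fun t => ∀ j, ψ (n0 + M * (t : ℤ) - a j) ≠ 1 ∨
        ∃ i, (p i : ℤ) ∣ n0 + M * (t : ℤ) - a j) with hG
  have hk0 : 0 ≤ k := Nat.cast_nonneg _
  have hT0 : (0 : ℝ) < T := Nat.cast_pos.2 hT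
  have hV0 : 0 ≤ V2 := hs.V2_nonneg
  have hE1 : 1 ≤ E := by
    rw [hE]
    exact Real.one_le_exp (mul_nonneg (mul_nonneg hk0 hV0) (Real.exp_pos _).le)
  have hW20 : 0 ≤ W ^ 2 := sq_nonneg _
  have hψ0 : ∀ m, 0 ≤ ψ m := hs.nonneg
  have hZ1 : 1 ≤ Z := ZX_ge_one p y h.two hy0 hD (hs.Me_nonneg 2) (Me_empty h.Q1pos 2)
  have ho0 : 0 ≤ o := by
    rw [ho]
    exact absx_off h.two h.zpos N
  -- pointwise
  have hpt : ∀ t ∈ range T, g t ^ 2 ≤ (if t ∈ G then g t ^ 2 else 0) +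
      ∑ m, ψ (n0 + M * (t : ℤ) - a m) * gz m t ^ 2 := by
    intro t ht
    have e3 : 0 ≤ ∑ m, ψ (n0 + M * (t : ℤ) - a m) * gz m t ^ 2 :=
      Finset.sum_nonneg fun j _ => mul_nonneg (hψ0 _) (sq_nonneg _)
    by_cases htG : t ∈ G
    · rw [if_pos htG]
      linarith
    · rw [if_neg htG, zero_add]
      have e5 : ∃ j, ψ (n0 + M * (t : ℤ) - a j) = 1 ∧
          ∀ i, ¬ (p i : ℤ) ∣ n0 + M * (t : ℤ) - a j := by
        by_contra hcon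
        apply htG
        refine Finset.mem_filter.2 ⟨ht, fun j => ?_⟩
        by_contra hj
        rw [not_or] at hj
        exact hcon ⟨j, not_not.1 hj.1, fun i hi => hj.2 ⟨i, hi⟩⟩
      obtain ⟨j, hj1, hj2⟩ := e5
      have e6 : g t = gz j t := rough_idV h.two a ψ y hy0 j _ hj2 hj1
      have e7 : ψ (n0 + M * (t : ℤ) - a j) * gz j t ^ 2 ≤
          ∑ m, ψ (n0 + M * (t : ℤ) - a m) * gz m t ^ 2 :=
        Finset.single_le_sum (f := fun m => ψ (n0 + M * (t : ℤ) - a m) * gz m t ^ 2)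
          (fun m _ => mul_nonneg (hψ0 _) (sq_nonneg _)) (Finset.mem_univ j)
      rw [hj1, one_mul, ← e6] at e7
      exact e7
  have hsum := Finset.sum_le_sum hpt
  rw [Finset.sum_add_distrib] at hsum
  have hGs : G ⊆ range T := Finset.filter_subset _ _
  have s1 : ∑ t ∈ range T, (if t ∈ G then g t ^ 2 else 0) = ∑ t ∈ G, g t ^ 2 := by
    rw [Finset.sum_ite_mem, Finset.inter_eq_right.2 hGs]
  have s3 : ∑ t ∈ range T, ∑ m, ψ (n0 + M * (t : ℤ) - a m) * gz m t ^ 2 ≤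
      k * (T * (V2 * ((δ ^ 2 + τ) * Z) + o) + 2 * (W ^ 2 * Wψ)) := by
    rw [Finset.sum_comm]
    refine (Finset.sum_le_sum fun m _ =>
      trX2 h hM hs hN hy1 hc1 hc2 htail hC n0 T m).trans (le_of_eq ?_)
    rw [Finset.sum_const, Finset.card_univ, nsmul_eq_mul]
  have t0 := trX0 h hM hs hN hy1 hC n0 T
  have t4 := trX4 h hM hs hN hy0 hy1 hC n0 T
  rw [s1] at hsum
  have hWW : W ^ 2 ≤ W ^ 2 * Wψ := le_mul_of_one_le_right hW20 hs.one_le_W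
  have hTZ : (T : ℝ) ≤ T * Z := le_mul_of_one_le_right hT0.le hZ1
  -- the second moment over `G`
  have w1 : (T : ℝ) / 2 ≤ ∑ t ∈ G, g t ^ 2 := by
    have u1 : (k * V2 * (δ ^ 2 + τ)) * (T * Z) ≤ 1 / 8 * (T * Z) :=
      mul_le_mul_of_nonneg_right h1 (hT0.le.trans hTZ)
    have u2 : T * ((1 + k) * o) ≤ T * (1 / 8) := mul_le_mul_of_nonneg_left h3 hT0.le
    have u3 : (T : ℝ) * (Z - o) - 2 * W ^ 2 ≤ ∑ t ∈ G, g t ^ 2 +
        k * (T * (V2 * ((δ ^ 2 + τ) * Z) + o) + 2 * (W ^ 2 * Wψ)) :=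
      t0.trans (hsum.trans (by linarith))
    have u4 : k * (T * (V2 * ((δ ^ 2 + τ) * Z) + o) + 2 * (W ^ 2 * Wψ)) =
        (k * V2 * (δ ^ 2 + τ)) * (T * Z) + T * (k * o) + 2 * (k * (W ^ 2 * Wψ)) := by ring
    have u5 : 16 * (1 + k) * (W ^ 2 * Wψ) = 16 * (W ^ 2 * Wψ) + 16 * (k * (W ^ 2 * Wψ)) := by ring
    have u6 : T * ((1 + k) * o) = T * o + T * (k * o) := by ring
    have u7 : (T : ℝ) * (Z - o) = T * Z - T * o := by ring
    linarith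
  -- the fourth moment over `G`
  have w2 : ∑ t ∈ G, g t ^ 4 ≤ 2 * T * E := by
    have v1 : ∑ t ∈ G, g t ^ 4 ≤ ∑ t ∈ range T, g t ^ 4 :=
      Finset.sum_le_sum_of_subset_of_nonneg hGs fun t _ _ => by positivity
    have v2 : (T : ℝ) ≤ T * E := le_mul_of_one_le_right hT0.le hE1
    linarith
  have w3 : (∑ t ∈ G, g t ^ 2) ^ 2 ≤ (G.card : ℝ) * ∑ t ∈ G, g t ^ 4 := by
    have v1 := sq_sum_le_card_mul_sum_sq (s := G) (f := fun t => g t ^ 2)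
    refine v1.trans (le_of_eq ?_)
    congr 1
    exact Finset.sum_congr rfl fun t _ => by ring
  have w4 : ((T : ℝ) / 2) ^ 2 ≤ (∑ t ∈ G, g t ^ 2) ^ 2 :=
    pow_le_pow_left₀ (by linarith) w1 2
  have w5 : (G.card : ℝ) * ∑ t ∈ G, g t ^ 4 ≤ (G.card : ℝ) * (2 * T * E) :=
    mul_le_mul_of_nonneg_left w2 (Nat.cast_nonneg _)
  have w6 : (T : ℝ) * T ≤ T * (8 * E * G.card) := by
    have v1 := w4.trans (w3.trans w5)
    nlinarith
  exact le_of_mul_le_mul_left w6 hT0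

end Pool.Agent.ES39
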