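import Pool.Agent.ES39.AsgW

/-! ES39/AsgB.  Three consequences of `mean_asgW`, `loc_hit`, `loc_none`: the local factors are compared
for each value of the assignment. -/

set_option autoImplicit false

open Finset Pool.Agent.RS Pool.Agent.VOID

namespace Pool.Agent.ES39

variable {ι κ : Type} [Fintype ι] [DecidableEq ι] [DecidableEq κ] [Fintype κ]

omit [Fintype ι] [DecidableEq ι] [DecidableEq κ] [Fintype κ] in
private theorem AsgB_per (p : ι → ℕ) (b : ℤ) (c : ℝ) (i : ι) :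
    Per (p i) (fun n => 1 + c * (if (p i : ℤ) ∣ n - b then (1 : ℝ) else 0)) := by
  intro n
  have h1 : (p i : ℤ) ∣ n + (p i : ℤ) - b ↔ (p i : ℤ) ∣ n - b := by
    have h2 : n + (p i : ℤ) - b = (n - b) + p i := by ring
    rw [h2]
    exact dvd_add_self_right
  show 1 + c * (if (p i : ℤ) ∣ n + (p i : ℤ) - b then (1 : ℝ) else 0) = _
  simp only [h1]

omit [DecidableEq κ] [Fintype κ] [DecidableEq ι] in
private theorem AsgB_pow (x : ℝ) (σ : ι → Option κ) :
    x ^ (supp σ).card = ∏ i, if σ i ≠ none then x else 1 := by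
  rw [← Finset.prod_filter, Finset.prod_const]
  rfl

private theorem AsgB_main {p : ι → ℕ} (hp : ∀ i, 2 ≤ p i)
    (hc : ∀ i j, i ≠ j → Nat.Coprime (p i) (p j))
    {a : κ → ℤ} (hd : ∀ i j j', j ≠ j' → ¬ (p i : ℤ) ∣ a j - a j')
    {b : ℤ} (hb : ∀ i j, ¬ (p i : ℤ) ∣ a j - b) (c x : ℝ) (y : ι → ℝ)
    (h0 : ∀ i, 0 ≤ 1 - (Fintype.card κ : ℝ) / p i + c / p i)
    (h1 : ∀ i, 1 / (p i : ℝ) ≤ y i * (x * (1 / (p i : ℝ))))
    (h2 : ∀ i, 1 - (Fintype.card κ : ℝ) / p i + c / p i ≤ y i * (1 - (Fintype.card κ : ℝ) / p i))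
    (F : (ι → Option κ) → ℝ) (hF : ∀ σ, 0 ≤ F σ) :
    mean (∏ i, p i) (fun n => (∏ i, (1 + c * (if (p i : ℤ) ∣ n - b then (1 : ℝ) else 0))) *
      F (asg p a n)) ≤
      (∏ i, y i) * mean (∏ i, p i) (fun n => x ^ (supp (asg p a n)).card * F (asg p a n)) := by
  have e1 := mean_asgW hp hc hd (fun i n => 1 + c * (if (p i : ℤ) ∣ n - b then (1 : ℝ) else 0))
    (AsgB_per p b c) F
  have e2 := mean_asg hp hc hd (fun σ => x ^ (supp σ).card * F σ)
  rw [e1, e2, Finset.mul_sum]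
  refine Finset.sum_le_sum fun σ _ => ?_
  have key : ∏ i, mean (p i) (fun n => (1 + c * (if (p i : ℤ) ∣ n - b then (1 : ℝ) else 0)) *
      (if asg p a n i = σ i then (1 : ℝ) else 0)) ≤
      ∏ i, (y i * ((if σ i ≠ none then x else 1) * wq κ (p i) (σ i))) := by
    refine Finset.prod_le_prod (fun i _ => ?_) fun i _ => ?_
    · cases hσ : σ i with
      | none =>
        rw [loc_none hp hd hb c i]
        exact h0 i
      | some j =>
        rw [loc_hit hp hd hb c i j]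
        positivity
    · cases hσ : σ i with
      | none =>
        rw [loc_none hp hd hb c i, if_neg (fun h => h rfl), one_mul]
        exact h2 i
      | some j =>
        rw [loc_hit hp hd hb c i j, if_pos (by simp)]
        exact h1 i
  calc F σ * ∏ i, mean (p i) (fun n => (1 + c * (if (p i : ℤ) ∣ n - b then (1 : ℝ) else 0)) *
      (if asg p a n i = σ i then (1 : ℝ) else 0))
      ≤ F σ * ∏ i, (y i * ((if σ i ≠ none then x else 1) * wq κ (p i) (σ i))) :=
        mul_le_mul_of_nonneg_left key (hF σ)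
    _ = (∏ i, y i) * (x ^ (supp σ).card * F σ * ∏ i, wq κ (p i) (σ i)) := by
        rw [AsgB_pow, Finset.prod_mul_distrib, Finset.prod_mul_distrib]
        ring

theorem asg_miss {p : ι → ℕ} (hc : ∀ i j, i ≠ j → Nat.Coprime (p i) (p j))
    {a : κ → ℤ} (hd : ∀ i j j', j ≠ j' → ¬ (p i : ℤ) ∣ a j - a j')
    {b : ℤ} (hb : ∀ i j, ¬ (p i : ℤ) ∣ a j - b) {cut : ℕ}
    (hk : 2 * (Fintype.card κ + 1) ≤ cut) (hcut : ∀ i, cut ≤ p i)
    (F : (ι → Option κ) → ℝ) (hF : ∀ σ, 0 ≤ F σ) :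
    mean (∏ i, p i) (fun n => (∏ i, (1 + (-1) * (if (p i : ℤ) ∣ n - b then (1 : ℝ) else 0))) *
      F (asg p a n)) ≤
      (∏ i, (1 - 1 / (p i : ℝ))) *
        mean (∏ i, p i) (fun n => (1 + 2 / (cut : ℝ)) ^ (supp (asg p a n)).card *
          F (asg p a n)) := by
  have hcut2 : (2 : ℝ) * (Fintype.card κ + 1) ≤ cut := by exact_mod_cast hk
  have hk0 : (0 : ℝ) ≤ Fintype.card κ := Nat.cast_nonneg _
  have hc0 : (0 : ℝ) < cut := by linarith
  have hq : ∀ i, (cut : ℝ) ≤ p i := fun i => by exact_mod_cast hcut i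
  refine AsgB_main (fun i => ?_) hc hd hb (-1) (1 + 2 / (cut : ℝ)) (fun i => 1 - 1 / (p i : ℝ))
    (fun i => ?_) (fun i => ?_) (fun i => ?_) F hF
  · have := hcut i
    omega
  · have h1 := hq i
    have h2 : (0 : ℝ) < p i := by linarith
    have h3 : 1 - (Fintype.card κ : ℝ) / p i + (-1) / p i = (p i - (Fintype.card κ + 1)) / p i := by
      field_simp
      ring
    rw [h3]
    exact div_nonneg (by linarith) h2.le
  · have h1 := hq i
    have h2 : (0 : ℝ) < p i := by linarith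
    have h3 : (1 : ℝ) ≤ (1 - 1 / (p i : ℝ)) * (1 + 2 / (cut : ℝ)) := by
      have h4 : 1 / (p i : ℝ) ≤ 1 / cut := one_div_le_one_div_of_le hc0 h1
      have h5 : (1 : ℝ) ≤ (1 - 1 / (cut : ℝ)) * (1 + 2 / (cut : ℝ)) := by
        have h6 : (1 - 1 / (cut : ℝ)) * (1 + 2 / (cut : ℝ)) = 1 + (cut - 2) / cut ^ 2 := by
          field_simp
          ring
        rw [h6]
        have h7 : 0 ≤ ((cut : ℝ) - 2) / cut ^ 2 := div_nonneg (by linarith) (by positivity)
        linarith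
      have h6 : (0 : ℝ) ≤ 1 + 2 / (cut : ℝ) := by positivity
      have h7 : (1 - 1 / (cut : ℝ)) * (1 + 2 / (cut : ℝ)) ≤
          (1 - 1 / (p i : ℝ)) * (1 + 2 / (cut : ℝ)) := mul_le_mul_of_nonneg_right (by linarith) h6
      linarith
    have h8 : (0 : ℝ) ≤ 1 / (p i : ℝ) := by positivity
    have h9 := mul_le_mul_of_nonneg_right h3 h8
    rw [one_mul] at h9
    rw [← mul_assoc]
    exact h9
  · have h1 := hq i
    have h2 : (0 : ℝ) < p i := by linarith
    have h3 : (1 - 1 / (p i : ℝ)) * (1 - (Fintype.card κ : ℝ) / p i) =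
        1 - (Fintype.card κ : ℝ) / p i + (-1) / p i + (Fintype.card κ : ℝ) / p i ^ 2 := by
      field_simp
      ring
    have h4 : (0 : ℝ) ≤ (Fintype.card κ : ℝ) / p i ^ 2 := by positivity
    show _ ≤ (1 - 1 / (p i : ℝ)) * (1 - (Fintype.card κ : ℝ) / p i)
    rw [h3]
    linarith

theorem asg_big {p : ι → ℕ} (hc : ∀ i j, i ≠ j → Nat.Coprime (p i) (p j))
    {a : κ → ℤ} (hd : ∀ i j j', j ≠ j' → ¬ (p i : ℤ) ∣ a j - a j')
    {b : ℤ} (hb : ∀ i j, ¬ (p i : ℤ) ∣ a j - b) {cut : ℕ}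
    (hk : 2 * (Fintype.card κ + 1) ≤ cut) (hcut : ∀ i, cut ≤ p i)
    (F : (ι → Option κ) → ℝ) (hF : ∀ σ, 0 ≤ F σ) :
    mean (∏ i, p i) (fun n => (∏ i, (1 + 31 * (if (p i : ℤ) ∣ n - b then (1 : ℝ) else 0))) *
      F (asg p a n)) ≤
      (∏ i, (1 + 62 / (p i : ℝ))) * mean (∏ i, p i) (fun n => F (asg p a n)) := by
  have hcut2 : (2 : ℝ) * (Fintype.card κ + 1) ≤ cut := by exact_mod_cast hk
  have hk0 : (0 : ℝ) ≤ Fintype.card κ := Nat.cast_nonneg _
  have hc0 : (0 : ℝ) < cut := by linarith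
  have hq : ∀ i, (cut : ℝ) ≤ p i := fun i => by exact_mod_cast hcut i
  have h := AsgB_main (p := p) (a := a) (b := b) (fun i => ?_) hc hd hb 31 1
    (fun i => 1 + 62 / (p i : ℝ)) (fun i => ?_) (fun i => ?_) (fun i => ?_) F hF
  · simpa only [one_pow, one_mul] using h
  · have := hcut i
    omega
  · have h1 := hq i
    have h2 : (0 : ℝ) < p i := by linarith
    have h3 : 1 - (Fintype.card κ : ℝ) / p i + 31 / p i = (p i - Fintype.card κ + 31) / p i := by
      field_simp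
    rw [h3]
    exact div_nonneg (by linarith) h2.le
  · have h1 := hq i
    have h2 : (0 : ℝ) < p i := by linarith
    have h3 : (0 : ℝ) ≤ 62 / (p i : ℝ) * (1 / (p i : ℝ)) := by positivity
    show 1 / (p i : ℝ) ≤ (1 + 62 / (p i : ℝ)) * (1 * (1 / (p i : ℝ)))
    linarith
  · have h1 := hq i
    have h2 : (0 : ℝ) < p i := by linarith
    have h3 : (1 + 62 / (p i : ℝ)) * (1 - (Fintype.card κ : ℝ) / p i) =
        1 - (Fintype.card κ : ℝ) / p i + 31 / p i +
          31 * (p i - 2 * (Fintype.card κ : ℝ)) / p i ^ 2 := by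
      field_simp
      ring
    have h4 : (0 : ℝ) ≤ 31 * (p i - 2 * (Fintype.card κ : ℝ)) / p i ^ 2 :=
      div_nonneg (by linarith) (by positivity)
    show _ ≤ (1 + 62 / (p i : ℝ)) * (1 - (Fintype.card κ : ℝ) / p i)
    rw [h3]
    linarith

theorem asg_pow {p : ι → ℕ} (hp : ∀ i, 2 ≤ p i)
    (hc : ∀ i j, i ≠ j → Nat.Coprime (p i) (p j))
    {a : κ → ℤ} (hd : ∀ i j j', j ≠ j' → ¬ (p i : ℤ) ∣ a j - a j') :
    mean (∏ i, p i) (fun n => (64 : ℝ) ^ (supp (asg p a n)).card) =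
      ∏ i, (1 + 63 * (Fintype.card κ : ℝ) / (p i : ℝ)) := by
  rw [mean_asg hp hc hd (fun σ => (64 : ℝ) ^ (supp σ).card)]
  have h1 : ∀ σ : ι → Option κ, (64 : ℝ) ^ (supp σ).card * ∏ i, wq κ (p i) (σ i) =
      ∏ i, ((if σ i ≠ none then (64 : ℝ) else 1) * wq κ (p i) (σ i)) := by
    intro σ
    rw [AsgB_pow, Finset.prod_mul_distrib]
  rw [Finset.sum_congr rfl fun σ _ => h1 σ]
  have h2 := (Finset.prod_univ_sum (fun _ : ι => (Finset.univ : Finset (Option κ)))
    (fun i o => (if o ≠ none then (64 : ℝ) else 1) * wq κ (p i) o)).symm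
  rw [Fintype.piFinset_univ] at h2
  rw [h2]
  refine Finset.prod_congr rfl fun i _ => ?_
  rw [Fintype.sum_option]
  have h3 : ∀ j : κ, (if (some j : Option κ) ≠ none then (64 : ℝ) else 1) * wq κ (p i) (some j) =
      64 * (1 / p i) := by
    intro j
    rw [if_pos (by simp)]
    rfl
  rw [Finset.sum_congr rfl fun j _ => h3 j, sum_const, card_univ, nsmul_eq_mul,
    if_neg (fun h => h rfl)]
  show 1 * (1 - (Fintype.card κ : ℝ) / p i) + _ = _
  ring

end Pool.Agent.ES39
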