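import Pool.Agent.VOID.BfAsg

/-! ES39/AsgW.  The law of the assignment with local weights.

`mean_asgW`: copy the proof of `VOID.mean_asg` (Pool/Agent/VOID/BfAsg.lean): write
`F (asg p a n) = ∑_σ F σ * ∏_i 1_{asg p a n i = σ i}`, multiply by `∏_i f i n`, take the mean
(`mean_sum`, `mean_const_mul`) and apply `mean_prod` (`Q1 = 1`) to the local functions
`f i n * 1_{asg p a n i = σ i}`, which are `p i`-periodic.

`loc_hit`, `loc_none`: the local means for `f n = 1 + c 1_{q ∣ n - b}`, `q = p i`, `b` different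
from all `a j` modulo `q`: the class of `a j` is hit once in a period and there `q ∤ n - b`, so the
mean is `1 / q`; the classes of the `a j` and of `b` are distinct, so
`1_{asg = none} = 1 - ∑_j 1_{q ∣ n - a j}` and `1_{q ∣ n - b} 1_{asg = none} = 1_{q ∣ n - b}`, hence
the mean is `1 - k / q + c / q`.  (`bfasg_count` of VOID/BfAsg is private: copy it.) -/

set_option autoImplicit false

open Finset Pool.Agent.RS Pool.Agent.VOID

namespace Pool.Agent.ES39

variable {ι κ : Type} [Fintype ι] [DecidableEq ι] [DecidableEq κ] [Fintype κ]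

/-- one residue class has one representative in a period -/
private theorem asgw_count {q : ℕ} (hq : 0 < q) (b : ℤ) :
    ∑ y ∈ range q, (if (q : ℤ) ∣ (y : ℤ) - b then (1 : ℝ) else 0) = 1 := by
  have hq0 : (q : ℤ) ≠ 0 := by exact_mod_cast hq.ne'
  have hqpos : (0 : ℤ) < q := by exact_mod_cast hq
  obtain ⟨r, hr⟩ := Int.eq_ofNat_of_zero_le (Int.emod_nonneg b hq0)
  have hrlt : (r : ℤ) < q := by
    rw [← hr]
    exact Int.emod_lt_of_pos b hqpos
  have hrb : (q : ℤ) ∣ (r : ℤ) - b := by
    have h1 := Int.emod_add_mul_ediv b q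
    rw [hr] at h1
    exact ⟨-(b / q), by linarith⟩
  rw [Finset.sum_eq_single r]
  · rw [if_pos hrb]
  · intro y hy hyr
    rw [if_neg]
    intro h
    apply hyr
    have h1 : (q : ℤ) ∣ (y : ℤ) - r := by
      have h2 : (y : ℤ) - r = ((y : ℤ) - b) - (r - b) := by ring
      rw [h2]
      exact dvd_sub h hrb
    have h2 : (y : ℤ) - r = 0 := by
      apply Int.eq_zero_of_abs_lt_dvd h1
      have h3 := mem_range.mp hy
      rw [abs_lt]
      constructor <;> omega
    omega
  · intro h
    exfalso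
    apply h
    rw [mem_range]
    exact_mod_cast hrlt

private theorem asgw_some {p : ι → ℕ} (hp : ∀ i, 2 ≤ p i)
    {a : κ → ℤ} (hd : ∀ i j j', j ≠ j' → ¬ (p i : ℤ) ∣ a j - a j') (i : ι) (j : κ) :
    mean (p i) (fun n => if asg p a n i = some j then (1 : ℝ) else 0) = 1 / p i := by
  have hp0 : 0 < p i := by have := hp i; omega
  have h6 : ∑ y ∈ range (p i), (if asg p a (y : ℤ) i = some j then (1 : ℝ) else 0) = 1 := by
    refine Eq.trans (sum_congr rfl fun y _ => ?_) (asgw_count hp0 (a j))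
    have h3 := asg_eq hd (y : ℤ) i j
    by_cases h4 : (p i : ℤ) ∣ (y : ℤ) - a j
    · rw [if_pos h4, if_pos (h3.mpr h4)]
    · rw [if_neg h4, if_neg (fun h5 => h4 (h3.mp h5))]
  unfold mean
  rw [h6]

private theorem asgw_none {p : ι → ℕ} (hp : ∀ i, 2 ≤ p i)
    {a : κ → ℤ} (hd : ∀ i j j', j ≠ j' → ¬ (p i : ℤ) ∣ a j - a j') (i : ι) :
    mean (p i) (fun n => if asg p a n i = none then (1 : ℝ) else 0) = 1 - (Fintype.card κ : ℝ) / p i := by
  have hp0 : 0 < p i := by have := hp i; omega
  have h3 : (fun n => if asg p a n i = none then (1 : ℝ) else 0) =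
      fun n => 1 + (-1) * ∑ j : κ, if asg p a n i = some j then (1 : ℝ) else 0 := by
    funext n
    cases h4 : asg p a n i with
    | none => simp
    | some j => simp
  rw [h3, mean_add, mean_const hp0, mean_const_mul, mean_sum,
    sum_congr rfl fun j _ => asgw_some hp hd i j, sum_const, card_univ, nsmul_eq_mul]
  ring

/-- the classes of the `a j` and of `b` are disjoint -/
private theorem asgw_dis {q a b n : ℤ} (hb : ¬ q ∣ a - b) (h : q ∣ n - a) : ¬ q ∣ n - b := by
  intro h1
  apply hb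
  have h2 : a - b = (n - b) - (n - a) := by ring
  rw [h2]
  exact dvd_sub h1 h

theorem mean_asgW {p : ι → ℕ} (hp : ∀ i, 2 ≤ p i) (hc : ∀ i j, i ≠ j → Nat.Coprime (p i) (p j))
    {a : κ → ℤ} (hd : ∀ i j j', j ≠ j' → ¬ (p i : ℤ) ∣ a j - a j')
    (f : ι → ℤ → ℝ) (hf : ∀ i, Per (p i) (f i)) (F : (ι → Option κ) → ℝ) :
    mean (∏ i, p i) (fun n => (∏ i, f i n) * F (asg p a n)) =
      ∑ σ, F σ * ∏ i, mean (p i) (fun n => f i n * (if asg p a n i = σ i then (1 : ℝ) else 0)) := by
  have hp0 : ∀ i, 0 < p i := fun i => by have := hp i; omega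
  have h1 : (fun n => (∏ i, f i n) * F (asg p a n)) =
      fun n => ∑ σ : ι → Option κ, F σ * (1 * ∏ i, f i n * (if asg p a n i = σ i then (1 : ℝ) else 0)) := by
    funext n
    rw [Finset.sum_eq_single (asg p a n)]
    · have h2 : ∏ i, f i n * (if asg p a n i = asg p a n i then (1 : ℝ) else 0) = ∏ i, f i n :=
        prod_congr rfl fun i _ => by rw [if_pos rfl, mul_one]
      rw [h2, one_mul, mul_comm]
    · intro σ _ hσ
      have h2 : ∃ i, asg p a n i ≠ σ i := by
        by_contra h3
        push Not at h3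
        exact hσ (funext fun i => (h3 i).symm)
      obtain ⟨i, hi⟩ := h2
      rw [Finset.prod_eq_zero (mem_univ i) (by rw [if_neg hi, mul_zero]), mul_zero, mul_zero]
    · intro h
      exact absurd (mem_univ _) h
  rw [h1, mean_sum]
  refine sum_congr rfl fun σ _ => ?_
  rw [mean_const_mul]
  congr 1
  have hper : ∀ i, Per (p i) (fun n => f i n * (if asg p a n i = σ i then (1 : ℝ) else 0)) := by
    intro i n
    have h2 : asg p a (n + (p i : ℤ)) i = asg p a n i := by
      have h3 : ∀ j, asg p a (n + (p i : ℤ)) i = some j ↔ asg p a n i = some j := by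
        intro j
        rw [asg_eq hd, asg_eq hd]
        have h4 : n + (p i : ℤ) - a j = (n - a j) + p i := by ring
        rw [h4]
        exact dvd_add_self_right
      exact Option.ext h3
    show f i (n + (p i : ℤ)) * (if asg p a (n + (p i : ℤ)) i = σ i then (1 : ℝ) else 0) = _
    rw [h2, hf i n]
  have h2 := mean_prod (Q1 := 1) (F := fun _ => 1) univ p (fun i _ => hp0 i)
    (fun i _ j _ hij => hc i j hij) one_pos (fun i _ => Nat.coprime_one_left _) (fun _ => rfl)
    (fun i n => f i n * (if asg p a n i = σ i then (1 : ℝ) else 0)) (fun i _ => hper i)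
  rw [one_mul, mean_const one_pos, one_mul] at h2
  exact h2

theorem loc_hit {p : ι → ℕ} (hp : ∀ i, 2 ≤ p i)
    {a : κ → ℤ} (hd : ∀ i j j', j ≠ j' → ¬ (p i : ℤ) ∣ a j - a j')
    {b : ℤ} (hb : ∀ i j, ¬ (p i : ℤ) ∣ a j - b) (c : ℝ) (i : ι) (j : κ) :
    mean (p i) (fun n => (1 + c * (if (p i : ℤ) ∣ n - b then (1 : ℝ) else 0)) *
      (if asg p a n i = some j then (1 : ℝ) else 0)) = 1 / p i := by
  have h1 : (fun n : ℤ => (1 + c * (if (p i : ℤ) ∣ n - b then (1 : ℝ) else 0)) *
      (if asg p a n i = some j then (1 : ℝ) else 0)) = fun n => if asg p a n i = some j then (1 : ℝ) else 0 := by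
    funext n
    by_cases h : asg p a n i = some j
    · rw [if_pos h, if_neg (asgw_dis (hb i j) ((asg_eq hd n i j).1 h)), mul_zero, add_zero, mul_one]
    · rw [if_neg h, mul_zero]
  rw [h1, asgw_some hp hd]

theorem loc_none {p : ι → ℕ} (hp : ∀ i, 2 ≤ p i)
    {a : κ → ℤ} (hd : ∀ i j j', j ≠ j' → ¬ (p i : ℤ) ∣ a j - a j')
    {b : ℤ} (hb : ∀ i j, ¬ (p i : ℤ) ∣ a j - b) (c : ℝ) (i : ι) :
    mean (p i) (fun n => (1 + c * (if (p i : ℤ) ∣ n - b then (1 : ℝ) else 0)) *
      (if asg p a n i = none then (1 : ℝ) else 0)) =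
      1 - (Fintype.card κ : ℝ) / p i + c / p i := by
  have hp0 : 0 < p i := by have := hp i; omega
  have h1 : (fun n : ℤ => (1 + c * (if (p i : ℤ) ∣ n - b then (1 : ℝ) else 0)) *
      (if asg p a n i = none then (1 : ℝ) else 0)) =
      fun n => (if asg p a n i = none then (1 : ℝ) else 0) + c * (if (p i : ℤ) ∣ n - b then (1 : ℝ) else 0) := by
    funext n
    cases h : asg p a n i with
    | none =>
      rw [if_pos rfl]
      ring
    | some j =>
      rw [if_neg (asgw_dis (hb i j) ((asg_eq hd n i j).1 h)), if_neg (by simp)]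
      ring
  have h2 : mean (p i) (fun n => if (p i : ℤ) ∣ n - b then (1 : ℝ) else 0) = 1 / p i := by
    unfold mean
    rw [asgw_count hp0]
  rw [h1, mean_add, mean_const_mul, asgw_none hp hd, h2]
  ring

end Pool.Agent.ES39
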