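import Pool.Agent.VOID.BigP

/-! ES39/BigS.  Sharper bounds for the sum over the large primes (compare `VOID.big_prod`).

`bigs_dbl`: for `e ≥ 1`, `∑_{q prime, 2^e < q ≤ 2^(2e)} 1/q ≤ 4`: the sum over
`2^(e+i) < q ≤ 2^(e+i+1)`, `i < e`, is `≤ 4/(e+i) ≤ 4/e` (`Helper52.recip_dyadic`; copy `bigp_recip` of
VOID/BigP or `blk_recip` of VOID/Blk with `t = e`).
`bigs_pr`: for `h` doublings, `∑_{2^m1 < q ≤ 2^(m1 2^h)} 1/q ≤ 4 h` (induction on `h`).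
`big_sum`: `s ≤ m1 2^(g+1)`, so the large primes lie in `(2^m1, 2^(m1 2^(g+1))]`; `1/(q-1) ≤ 2/q`.
`big_prodX`: `1 + x ≤ exp x`, `Real.exp_sum`. -/

set_option autoImplicit false

open Finset Pool.Agent.RS Pool.Agent.VOID

namespace Pool.Agent.ES39

private theorem bigs_recip {m1 : ℕ} (hm : 1 ≤ m1) (t : ℕ) :
    ∑ q ∈ Helper52.pr (2 ^ m1) (2 ^ (m1 + t)), 1 / (q : ℝ) ≤ 4 * (t : ℝ) / m1 := by
  have hm0 : (0 : ℝ) < m1 := by exact_mod_cast hm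
  induction t with
  | zero =>
    have h1 : Helper52.pr (2 ^ m1) (2 ^ (m1 + 0)) = ∅ := by
      ext q
      rw [Helper52.mem_pr, add_zero]
      constructor
      · rintro ⟨h1, h2, -⟩
        omega
      · intro h
        exact absurd h (Finset.notMem_empty q)
    rw [h1, Finset.sum_empty]
    simp
  | succ t ih =>
    have h1 : Helper52.pr (2 ^ m1) (2 ^ (m1 + (t + 1))) ⊆
        Helper52.pr (2 ^ m1) (2 ^ (m1 + t)) ∪ Helper52.pr (2 ^ (m1 + t)) (2 ^ (m1 + t + 1)) := by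
      intro q hq
      rw [Helper52.mem_pr] at hq
      rw [Finset.mem_union, Helper52.mem_pr, Helper52.mem_pr]
      by_cases h : q ≤ 2 ^ (m1 + t)
      · exact Or.inl ⟨hq.1, h, hq.2.2⟩
      · exact Or.inr ⟨by omega, hq.2.1, hq.2.2⟩
    have h2 : ∑ q ∈ Helper52.pr (2 ^ m1) (2 ^ (m1 + (t + 1))), 1 / (q : ℝ) ≤
        ∑ q ∈ Helper52.pr (2 ^ m1) (2 ^ (m1 + t)), 1 / (q : ℝ) +
        ∑ q ∈ Helper52.pr (2 ^ (m1 + t)) (2 ^ (m1 + t + 1)), 1 / (q : ℝ) := by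
      refine (Finset.sum_le_sum_of_subset_of_nonneg h1 fun q _ _ => by positivity).trans ?_
      rw [← Finset.sum_union_inter]
      exact le_add_of_nonneg_right (Finset.sum_nonneg fun q _ => by positivity)
    have h3 := Helper52.recip_dyadic (i := m1 + t) (by omega)
    have h4 : (4 : ℝ) / ((m1 + t : ℕ) : ℝ) ≤ 4 / m1 := by
      apply div_le_div_of_nonneg_left (by norm_num) hm0
      push_cast
      linarith [Nat.cast_nonneg (α := ℝ) t]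
    have h5 : 4 * ((t + 1 : ℕ) : ℝ) / m1 = 4 * (t : ℝ) / m1 + 4 / m1 := by
      push_cast
      ring
    rw [h5]
    linarith

theorem bigs_dbl {e : ℕ} (he : 1 ≤ e) :
    ∑ q ∈ Helper52.pr (2 ^ e) (2 ^ (2 * e)), 1 / (q : ℝ) ≤ 4 := by
  have h := bigs_recip he e
  have he0 : (e : ℝ) ≠ 0 := by
    have : (1 : ℝ) ≤ e := by exact_mod_cast he
    linarith
  rw [mul_div_assoc, div_self he0, mul_one, ← two_mul] at h
  exact h

theorem bigs_pr {m1 : ℕ} (hm : 1 ≤ m1) (h : ℕ) :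
    ∑ q ∈ Helper52.pr (2 ^ m1) (2 ^ (m1 * 2 ^ h)), 1 / (q : ℝ) ≤ 4 * h := by
  induction h with
  | zero =>
    have h1 : Helper52.pr (2 ^ m1) (2 ^ (m1 * 2 ^ 0)) = ∅ := by
      ext q
      rw [Helper52.mem_pr, pow_zero, mul_one]
      constructor
      · rintro ⟨h1, h2, -⟩
        omega
      · intro h
        exact absurd h (Finset.notMem_empty q)
    rw [h1, Finset.sum_empty]
    simp
  | succ h ih =>
    have he : 1 ≤ m1 * 2 ^ h := Nat.one_le_iff_ne_zero.2 (by positivity)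
    have h1 : Helper52.pr (2 ^ m1) (2 ^ (m1 * 2 ^ (h + 1))) ⊆
        Helper52.pr (2 ^ m1) (2 ^ (m1 * 2 ^ h)) ∪
          Helper52.pr (2 ^ (m1 * 2 ^ h)) (2 ^ (2 * (m1 * 2 ^ h))) := by
      intro q hq
      rw [Helper52.mem_pr] at hq
      rw [Finset.mem_union, Helper52.mem_pr, Helper52.mem_pr]
      by_cases h' : q ≤ 2 ^ (m1 * 2 ^ h)
      · exact Or.inl ⟨hq.1, h', hq.2.2⟩
      · refine Or.inr ⟨by omega, ?_, hq.2.2⟩
        have e1 : 2 * (m1 * 2 ^ h) = m1 * 2 ^ (h + 1) := by ring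
        rw [e1]
        exact hq.2.1
    have h2 : ∑ q ∈ Helper52.pr (2 ^ m1) (2 ^ (m1 * 2 ^ (h + 1))), 1 / (q : ℝ) ≤
        ∑ q ∈ Helper52.pr (2 ^ m1) (2 ^ (m1 * 2 ^ h)), 1 / (q : ℝ) +
        ∑ q ∈ Helper52.pr (2 ^ (m1 * 2 ^ h)) (2 ^ (2 * (m1 * 2 ^ h))), 1 / (q : ℝ) := by
      refine (Finset.sum_le_sum_of_subset_of_nonneg h1 fun q _ _ => by positivity).trans ?_
      rw [← Finset.sum_union_inter]
      exact le_add_of_nonneg_right (Finset.sum_nonneg fun q _ => by positivity)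
    have h3 := bigs_dbl he
    push_cast
    linarith

theorem big_sum {L m1 s g : ℕ} (hm : 1 ≤ m1) (B : Finset ℤ) (hs : s ≤ m1 * 2 ^ (g + 1)) :
    ∑ i : {q // q ∈ prz (2 ^ s) \ EB L m1 s B}, 1 / (((i : ℕ) : ℝ) - 1) ≤ 8 * ((g : ℝ) + 1) := by
  have h1 : ∑ i : {q // q ∈ prz (2 ^ s) \ EB L m1 s B}, 1 / (((i : ℕ) : ℝ) - 1) ≤
      ∑ i : {q // q ∈ prz (2 ^ s) \ EB L m1 s B}, 2 * (1 / ((i : ℕ) : ℝ)) := by
    refine Finset.sum_le_sum fun i _ => ?_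
    have h2 : (2 : ℝ) ≤ ((i : ℕ) : ℝ) := by exact_mod_cast (big_mem i.2).1.two_le
    rw [mul_one_div, div_le_div_iff₀ (by linarith) (by linarith)]
    linarith
  refine h1.trans ?_
  rw [← Finset.mul_sum]
  have h6 : ∑ i : {q // q ∈ prz (2 ^ s) \ EB L m1 s B}, 1 / ((i : ℕ) : ℝ) =
      ∑ q ∈ prz (2 ^ s) \ EB L m1 s B, 1 / (q : ℝ) :=
    Finset.sum_coe_sort (prz (2 ^ s) \ EB L m1 s B) fun q => 1 / (q : ℝ)
  rw [h6]
  have h8 : ∑ q ∈ prz (2 ^ s) \ EB L m1 s B, 1 / (q : ℝ) ≤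
      ∑ q ∈ Helper52.pr (2 ^ m1) (2 ^ (m1 * 2 ^ (g + 1))), 1 / (q : ℝ) := by
    refine Finset.sum_le_sum_of_subset_of_nonneg (fun q hq => ?_) fun q _ _ => by positivity
    obtain ⟨a1, a2, a3, -⟩ := big_mem hq
    exact Helper52.mem_pr.2 ⟨a2, a3.trans (Nat.pow_le_pow_right (by norm_num) hs), a1⟩
  have h9 := bigs_pr hm (g + 1)
  push_cast at h9
  linarith

theorem big_prodX {L m1 s g : ℕ} (hm : 1 ≤ m1) (B : Finset ℤ) (hs : s ≤ m1 * 2 ^ (g + 1)) :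
    ∏ i : {q // q ∈ prz (2 ^ s) \ EB L m1 s B}, (1 + 1 / (((i : ℕ) : ℝ) - 1)) ≤
      Real.exp (8 * ((g : ℝ) + 1)) := by
  have h5 : ∏ i : {q // q ∈ prz (2 ^ s) \ EB L m1 s B}, (1 + 1 / (((i : ℕ) : ℝ) - 1)) ≤
      ∏ i : {q // q ∈ prz (2 ^ s) \ EB L m1 s B}, Real.exp (1 / (((i : ℕ) : ℝ) - 1)) := by
    refine Finset.prod_le_prod (fun i _ => ?_) fun i _ => ?_
    · have h2 : (2 : ℝ) ≤ ((i : ℕ) : ℝ) := by exact_mod_cast (big_mem i.2).1.two_le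
      have h3 : 0 ≤ 1 / (((i : ℕ) : ℝ) - 1) := div_nonneg zero_le_one (by linarith)
      linarith
    · have h4 := Real.add_one_le_exp (1 / (((i : ℕ) : ℝ) - 1))
      linarith
  refine h5.trans ?_
  rw [← Real.exp_sum]
  exact Real.exp_le_exp.2 (big_sum hm B hs)

end Pool.Agent.ES39
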