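import Pool.Agent.VOID.BfMom

/-! ES39/BlkA.  Pointwise facts about one block `S` of primes; `ι = {q // q ∈ S}`, `p = coe`,
`κ' = {j // j ∈ T}`, `asg` the assignment of `VOID/BfAsg`.

`om_miss`: `∏_{q ∈ S} (1 - 1_{q ∣ m})` is `1` if `om S m = 0` and `0` otherwise.
`om_pow`: `∏_{q ∈ S} (1 + 31 1_{q ∣ m}) = 32 ^ om S m`.
(`om S m` is the number of `q ∈ S` with `q ∣ m`; `Finset.prod_ite`, `Finset.prod_const`.  If the
`Classical` instances or the cast in `om` make trouble, copy `bfmom_om` of VOID/BfMom.)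
`bf_ub`: `bf r ω ^ e ≤ (if ω = 0 then 1 else 0) + (4 ^ r)⁻¹ * 32 ^ ω` for `1 ≤ e ≤ 4`:
`ω = 0`: `bf = 1`; `1 ≤ ω ≤ 2 r`: `bf = 0` (`VOID.bf_vanish`); `ω > 2 r`: `bf ≤ 2 ^ ω`, so
`bf ^ e ≤ 16 ^ ω` and `4 ^ r = 2 ^ (2 r) ≤ 2 ^ ω`.
`psi_asg`: the function `∏_{j ∈ T} psiB S r (n - a j) ^ e` is `Fb r e (asg n)`, with
`om S (n - a j) = (cell (asg n) j).card` (copy from `bfmom_mean` of VOID/BfMom, which is private).
`Fb_le`: `bf r w ^ e ≤ 16 ^ w` (`e ≤ 4`; compare `VOID.bf_pow_le`), and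
`∑_j (cell σ j).card = (supp σ).card` (the cells are a partition of the support). -/

set_option autoImplicit false

open Finset Pool.Agent.RS Pool.Agent.VOID

namespace Pool.Agent.ES39

/-- the product of the block weights as a function of the assignment -/
noncomputable def Fb {ι κ : Type} [Fintype ι] [DecidableEq ι] [DecidableEq κ] [Fintype κ]
    (r e : ℕ) (σ : ι → Option κ) : ℝ :=
  ∏ j, bf r (cell σ j).card ^ e

open Classical in
private theorem blka_om (S : Finset ℕ) (m : ℤ) :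
    om S m = (S.filter (fun q : ℕ => (q : ℤ) ∣ m)).card := by
  unfold om
  rfl

private theorem blka_two (r ω : ℕ) : bf r ω ≤ 2 ^ ω := by
  unfold bf
  split_ifs with h
  · rw [h, pow_zero]
  · have h2 : (ω - 1).choose (2 * r) ≤ 2 ^ ω :=
      (Nat.choose_le_two_pow _ _).trans (Nat.pow_le_pow_right (by norm_num) (Nat.sub_le _ _))
    exact_mod_cast h2

private theorem blka_pow {e : ℕ} (he : e ≤ 4) (r ω : ℕ) : bf r ω ^ e ≤ 16 ^ ω := by
  have h3 : (1 : ℝ) ≤ 2 ^ ω := one_le_pow₀ (by norm_num)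
  calc bf r ω ^ e ≤ (2 ^ ω) ^ e := pow_le_pow_left₀ (bf_nonneg r ω) (blka_two r ω) e
    _ ≤ (2 ^ ω) ^ 4 := pow_le_pow_right₀ h3 he
    _ = 16 ^ ω := by
      rw [← pow_mul, mul_comm, pow_mul]
      norm_num

theorem om_miss (S : Finset ℕ) (m : ℤ) :
    ∏ i : {q // q ∈ S}, (1 + (-1) * (if (((i : ℕ)) : ℤ) ∣ m then (1 : ℝ) else 0)) =
      if om S m = 0 then 1 else 0 := by
  classical
  have h0 : ∏ i : {q // q ∈ S}, (1 + (-1) * (if (((i : ℕ)) : ℤ) ∣ m then (1 : ℝ) else 0)) =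
      ∏ q ∈ S, (1 + (-1) * (if (q : ℤ) ∣ m then (1 : ℝ) else 0)) :=
    prod_coe_sort S (fun q => (1 + (-1) * (if (q : ℤ) ∣ m then (1 : ℝ) else 0)))
  rw [h0, blka_om]
  by_cases h : (S.filter (fun q : ℕ => (q : ℤ) ∣ m)).card = 0
  · rw [if_pos h]
    rw [card_eq_zero] at h
    refine prod_eq_one fun q hq => ?_
    have h1 : ¬ (q : ℤ) ∣ m := by
      intro h2
      have h3 : q ∈ S.filter (fun q : ℕ => (q : ℤ) ∣ m) := mem_filter.2 ⟨hq, h2⟩
      rw [h] at h3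
      exact absurd h3 (notMem_empty q)
    rw [if_neg h1]
    norm_num
  · rw [if_neg h]
    obtain ⟨q, hq⟩ := card_pos.1 (Nat.pos_of_ne_zero h)
    obtain ⟨hq1, hq2⟩ := mem_filter.1 hq
    refine prod_eq_zero hq1 ?_
    rw [if_pos hq2]
    norm_num

theorem om_pow (S : Finset ℕ) (m : ℤ) :
    ∏ i : {q // q ∈ S}, (1 + 31 * (if (((i : ℕ)) : ℤ) ∣ m then (1 : ℝ) else 0)) =
      (32 : ℝ) ^ om S m := by
  classical
  have h0 : ∏ i : {q // q ∈ S}, (1 + 31 * (if (((i : ℕ)) : ℤ) ∣ m then (1 : ℝ) else 0)) =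
      ∏ q ∈ S, (1 + 31 * (if (q : ℤ) ∣ m then (1 : ℝ) else 0)) :=
    prod_coe_sort S (fun q => (1 + 31 * (if (q : ℤ) ∣ m then (1 : ℝ) else 0)))
  rw [h0, blka_om, ← prod_const, prod_filter]
  refine prod_congr rfl fun q _ => ?_
  by_cases h : (q : ℤ) ∣ m
  · rw [if_pos h, if_pos h]
    norm_num
  · rw [if_neg h, if_neg h]
    norm_num

theorem bf_ub {e : ℕ} (he1 : 1 ≤ e) (he : e ≤ 4) (r ω : ℕ) :
    bf r ω ^ e ≤ (if ω = 0 then 1 else 0) + ((4 : ℝ) ^ r)⁻¹ * 32 ^ ω := by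
  have h4 : (0 : ℝ) ≤ ((4 : ℝ) ^ r)⁻¹ * 32 ^ ω := by positivity
  by_cases h : ω = 0
  · rw [if_pos h, h, bf_zero, one_pow]
    rw [h] at h4
    linarith
  · rw [if_neg h, zero_add]
    by_cases h1 : ω ≤ 2 * r
    · rw [bf_vanish h h1, zero_pow (by omega)]
      exact h4
    · refine (blka_pow he r ω).trans ?_
      have h2 : (4 : ℝ) ^ r ≤ 2 ^ ω := by
        have h3 : (4 : ℝ) ^ r = 2 ^ (2 * r) := by
          rw [pow_mul]
          norm_num
        rw [h3]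
        exact pow_le_pow_right₀ (by norm_num) (by omega)
      have h5 : (32 : ℝ) ^ ω = 2 ^ ω * 16 ^ ω := by
        rw [← mul_pow]
        norm_num
      have h6 : (0 : ℝ) < 4 ^ r := by positivity
      rw [h5, ← mul_assoc]
      have h7 : (1 : ℝ) ≤ ((4 : ℝ) ^ r)⁻¹ * 2 ^ ω := by
        rw [inv_mul_eq_div, le_div_iff₀ h6, one_mul]
        exact h2
      have h8 : (0 : ℝ) ≤ 16 ^ ω := by positivity
      nlinarith

theorem psi_asg {κ : Type} [DecidableEq κ] [Fintype κ] {S : Finset ℕ} {a : κ → ℤ}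
    (hd : ∀ q ∈ S, ∀ j j', j ≠ j' → ¬ (q : ℤ) ∣ a j - a j') (r e : ℕ) (T : Finset κ) (n : ℤ) :
    ∏ j ∈ T, psiB S r (n - a j) ^ e =
      Fb r e (asg (fun i : {q // q ∈ S} => (i : ℕ)) (fun j : {j // j ∈ T} => a j) n) := by
  classical
  have hd' : ∀ (i : {q // q ∈ S}) (j j' : {j // j ∈ T}), j ≠ j' →
      ¬ (((i : ℕ)) : ℤ) ∣ a j - a j' := by
    intro i j j' hj
    exact hd i i.2 j j' (fun h => hj (Subtype.ext h))
  unfold Fb
  rw [← prod_coe_sort T (fun j => psiB S r (n - a j) ^ e)]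
  refine prod_congr rfl fun j _ => ?_
  have h5 : om S (n - a j) =
      (cell (asg (fun i : {q // q ∈ S} => (i : ℕ)) (fun j : {j // j ∈ T} => a j) n) j).card := by
    rw [blka_om, ← card_map (Function.Embedding.subtype (fun q => q ∈ S))
      (s := cell (asg (fun i : {q // q ∈ S} => (i : ℕ)) (fun j : {j // j ∈ T} => a j) n) j)]
    refine congrArg card ?_
    ext q
    rw [mem_filter, mem_map]
    constructor
    · rintro ⟨hq, hdvd⟩
      exact ⟨⟨q, hq⟩, mem_cell.2 ((asg_eq hd' n ⟨q, hq⟩ j).2 hdvd), rfl⟩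
    · rintro ⟨i, hi, rfl⟩
      exact ⟨i.2, (asg_eq hd' n i j).1 (mem_cell.1 hi)⟩
  unfold psiB
  rw [h5]

theorem Fb_nonneg {ι κ : Type} [Fintype ι] [DecidableEq ι] [DecidableEq κ] [Fintype κ]
    (r e : ℕ) (σ : ι → Option κ) : 0 ≤ Fb r e σ := by
  exact prod_nonneg fun j _ => pow_nonneg (bf_nonneg r _) _

theorem Fb_le {ι κ : Type} [Fintype ι] [DecidableEq ι] [DecidableEq κ] [Fintype κ]
    (r : ℕ) {e : ℕ} (he : e ≤ 4) (σ : ι → Option κ) : Fb r e σ ≤ 16 ^ (supp σ).card := by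
  have h1 : ∑ j, (cell σ j).card = (supp σ).card := by
    rw [← card_biUnion]
    · refine congrArg card ?_
      ext i
      rw [mem_biUnion, mem_supp]
      constructor
      · rintro ⟨j, _, hj⟩
        rw [mem_cell.1 hj]
        simp
      · intro h
        cases h2 : σ i with
        | none => exact absurd h2 h
        | some j => exact ⟨j, mem_univ j, mem_cell.2 h2⟩
    · intro j _ j' _ hj
      show Disjoint (cell σ j) (cell σ j')
      rw [disjoint_left]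
      intro i hi hi'
      rw [mem_cell] at hi hi'
      rw [hi] at hi'
      exact hj (Option.some.inj hi')
  unfold Fb
  rw [← h1, ← prod_pow_eq_pow_sum]
  exact prod_le_prod (fun j _ => pow_nonneg (bf_nonneg r _) _) fun j _ => blka_pow he r _

end Pool.Agent.ES39
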