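import Pool.Agent.ES39.AsgB
import Pool.Agent.ES39.BlkA

/-! ES39/BlkR.  Insertion of one more shift into the moments of a block (Lemma B of es39.md):
`blkr_lam` bounds the power of `1 + 2 / cut`, `blk_ins` is the insertion inequality. -/

set_option autoImplicit false

open Finset Pool.Agent.RS Pool.Agent.VOID

namespace Pool.Agent.ES39

theorem blkr_lam {D M0 cut : ℕ} (h : 2 * M0 ≤ cut) (h2 : 2 ≤ cut) :
    (1 + 2 / (cut : ℝ)) ^ D ≤ 1 + 4 * M0 / cut + ((2 : ℝ) ^ M0)⁻¹ * 4 ^ D := by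
  have hc : (2 : ℝ) ≤ cut := by exact_mod_cast h2
  have hc0 : (0 : ℝ) < cut := by linarith
  have hM : (2 : ℝ) * M0 ≤ cut := by exact_mod_cast h
  have h3 : (0 : ℝ) ≤ 2 / (cut : ℝ) := by positivity
  have h4 : 2 / (cut : ℝ) ≤ 1 := by
    rw [div_le_one hc0]
    exact hc
  by_cases hD : D ≤ M0
  · have h5 : (1 + 2 / (cut : ℝ)) ^ D ≤ (1 + 2 / (cut : ℝ)) ^ M0 :=
      pow_le_pow_right₀ (by linarith) hD
    have h6 : (1 + 2 / (cut : ℝ)) ^ M0 ≤ Real.exp (2 * M0 / cut) := by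
      have h7 : 1 + 2 / (cut : ℝ) ≤ Real.exp (2 / (cut : ℝ)) := by
        have := Real.add_one_le_exp (2 / (cut : ℝ))
        linarith
      calc (1 + 2 / (cut : ℝ)) ^ M0 ≤ Real.exp (2 / (cut : ℝ)) ^ M0 :=
            pow_le_pow_left₀ (by linarith) h7 M0
        _ = Real.exp (2 * M0 / cut) := by
            rw [← Real.exp_nat_mul]
            congr 1
            ring
    set x : ℝ := 2 * M0 / cut with hx
    have hx0 : 0 ≤ x := by positivity
    have hx1 : x ≤ 1 := by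
      rw [hx, div_le_one hc0]
      exact hM
    have h7 : Real.exp x ≤ 1 + 2 * x := by
      have h8 := Real.abs_exp_sub_one_sub_id_le (x := x) (by rw [abs_of_nonneg hx0]; exact hx1)
      have h9 := (abs_le.mp h8).2
      nlinarith
    have h8 : 1 + 2 * x = 1 + 4 * M0 / cut := by
      rw [hx]
      ring
    have h9 : (0 : ℝ) ≤ ((2 : ℝ) ^ M0)⁻¹ * 4 ^ D := by positivity
    linarith
  · push Not at hD
    have h5 : (1 + 2 / (cut : ℝ)) ^ D ≤ 2 ^ D := pow_le_pow_left₀ (by linarith) (by linarith) D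
    have h6 : (2 : ℝ) ^ D ≤ ((2 : ℝ) ^ M0)⁻¹ * 4 ^ D := by
      have h7 : (4 : ℝ) ^ D = 2 ^ D * 2 ^ D := by
        rw [← mul_pow]
        norm_num
      have h8 : (2 : ℝ) ^ M0 ≤ 2 ^ D := pow_le_pow_right₀ (by norm_num) hD.le
      have h9 : (0 : ℝ) < (2 : ℝ) ^ M0 := by positivity
      rw [h7, ← mul_assoc]
      refine le_mul_of_one_le_left (by positivity) ?_
      rw [inv_mul_eq_div, one_le_div h9]
      exact h8
    have h9 : (0 : ℝ) ≤ 4 * M0 / cut := by positivity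
    linarith

private theorem blkr_low {x : ℝ} (hx0 : 0 ≤ x) (hx1 : x ≤ 1 / 2) : Real.exp (-(2 * x)) ≤ 1 - x := by
  have h1 := Real.add_one_le_exp (2 * x)
  rw [Real.exp_neg, inv_le_comm₀ (Real.exp_pos _) (by linarith)]
  refine le_trans ?_ h1
  rw [inv_le_iff_one_le_mul₀ (by linarith)]
  nlinarith

private theorem blkr_prod_low {S : Finset ℕ} {k : ℕ} (h : ∀ q ∈ S, 2 * k ≤ q)
    (hpos : ∀ q ∈ S, 0 < q) {s0 : ℝ} (hs : ∑ q ∈ S, 1 / (q : ℝ) ≤ s0) :
    Real.exp (-(2 * k * s0)) ≤ ∏ q ∈ S, (1 - (k : ℝ) / q) := by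
  calc Real.exp (-(2 * k * s0)) ≤ Real.exp (∑ q ∈ S, -(2 * ((k : ℝ) / q))) := by
        rw [Real.exp_le_exp]
        have h1 : ∑ q ∈ S, -(2 * ((k : ℝ) / q)) = -(2 * k * ∑ q ∈ S, 1 / (q : ℝ)) := by
          rw [sum_neg_distrib, mul_sum]
          congr 1
          refine sum_congr rfl fun q _ => ?_
          ring
        rw [h1]
        have h2 : (0 : ℝ) ≤ 2 * k := by positivity
        have := mul_le_mul_of_nonneg_left hs h2
        linarith
    _ = ∏ q ∈ S, Real.exp (-(2 * ((k : ℝ) / q))) := Real.exp_sum _ _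
    _ ≤ _ := by
        refine prod_le_prod (fun q _ => (Real.exp_pos _).le) fun q hq => ?_
        have hq0 : (0 : ℝ) < q := by exact_mod_cast hpos q hq
        refine blkr_low (by positivity) ?_
        rw [div_le_iff₀ hq0]
        have : (2 * k : ℝ) ≤ q := by exact_mod_cast h q hq
        linarith

private theorem blkr_prod_up {S : Finset ℕ} {c : ℝ} (hc : 0 ≤ c) {s0 : ℝ}
    (hs : ∑ q ∈ S, 1 / (q : ℝ) ≤ s0) :
    ∏ q ∈ S, (1 + c / (q : ℝ)) ≤ Real.exp (c * s0) := by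
  calc ∏ q ∈ S, (1 + c / (q : ℝ)) ≤ ∏ q ∈ S, Real.exp (c / (q : ℝ)) := by
        refine prod_le_prod (fun q _ => by positivity) fun q _ => ?_
        have := Real.add_one_le_exp (c / (q : ℝ))
        linarith
    _ = Real.exp (∑ q ∈ S, c / (q : ℝ)) := (Real.exp_sum _ _).symm
    _ ≤ _ := by
        rw [Real.exp_le_exp]
        have h1 : ∑ q ∈ S, c / (q : ℝ) = c * ∑ q ∈ S, 1 / (q : ℝ) := by
          rw [mul_sum]
          refine sum_congr rfl fun q _ => ?_
          ring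
        rw [h1]
        exact mul_le_mul_of_nonneg_left hs hc

theorem blk_ins {κ : Type} [DecidableEq κ] [Fintype κ] {S : Finset ℕ} (hS : ∀ q ∈ S, q.Prime)
    {a : κ → ℤ} (hd : ∀ q ∈ S, ∀ j j', j ≠ j' → ¬ (q : ℤ) ∣ a j - a j') (r : ℕ) {e : ℕ}
    (he1 : 1 ≤ e) (he : e ≤ 4) (T : Finset κ) (j : κ) (hj : j ∉ T) {cut M0 : ℕ} {s0 : ℝ}
    (hcut : ∀ q ∈ S, cut ≤ q) (hT : 2 * (T.card + 1) ≤ cut) (hM0 : 2 * M0 ≤ cut)
    (hs : ∑ q ∈ S, 1 / (q : ℝ) ≤ s0) :
    mean (∏ q ∈ S, q) (fun n => ∏ j' ∈ insert j T, psiB S r (n - a j') ^ e) ≤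
      (∏ q ∈ S, (1 - 1 / (q : ℝ))) *
        (1 + 4 * M0 / cut + ((2 : ℝ) ^ M0)⁻¹ * Real.exp (65 * T.card * s0) +
          ((4 : ℝ) ^ r)⁻¹ * Real.exp (64 * s0)) *
        mean (∏ q ∈ S, q) (fun n => ∏ j' ∈ T, psiB S r (n - a j') ^ e) := by
  classical
  have hcut2 : 2 ≤ cut := by omega
  have hpos : ∀ q ∈ S, 0 < q := fun q hq => (hS q hq).pos
  have h2T : ∀ q ∈ S, 2 * T.card ≤ q := fun q hq => by
    have := hcut q hq
    omega
  have hd' : ∀ (i : {q // q ∈ S}) (j j' : {j // j ∈ T}), j ≠ j' →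
      ¬ (((i : ℕ)) : ℤ) ∣ a j - a j' := by
    intro i j j' hj
    exact hd i i.2 j j' (fun h => hj (Subtype.ext h))
  have hb : ∀ (i : {q // q ∈ S}) (j' : {j // j ∈ T}), ¬ (((i : ℕ)) : ℤ) ∣ a j' - a j := by
    intro i j'
    exact hd i i.2 j' j (fun h => hj (h ▸ j'.2))
  have hcop : ∀ i j : {q // q ∈ S}, i ≠ j → Nat.Coprime (i : ℕ) (j : ℕ) := fun i j hij =>
    (Nat.coprime_primes (hS i i.2) (hS j j.2)).2 (fun h => hij (Subtype.ext h))
  have hcut' : ∀ i : {q // q ∈ S}, cut ≤ (i : ℕ) := fun i => hcut i i.2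
  have hk : 2 * (Fintype.card {j // j ∈ T} + 1) ≤ cut := by
    rw [Fintype.card_coe]
    exact hT
  have hQ : ∏ i : {q // q ∈ S}, (i : ℕ) = ∏ q ∈ S, q := prod_coe_sort S (fun q => q)
  set A : ℤ → ({q // q ∈ S} → Option {j // j ∈ T}) := fun n =>
    asg (fun i : {q // q ∈ S} => (i : ℕ)) (fun j : {j // j ∈ T} => a j) n with hA
  set F : ℤ → ℝ := fun n => Fb r e (A n) with hF
  have hFn : ∀ n, ∏ j' ∈ T, psiB S r (n - a j') ^ e = F n := fun n => psi_asg hd r e T n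
  have hF0 : ∀ n, 0 ≤ F n := fun n => Fb_nonneg r e _
  have hFe : (fun n => ∏ j' ∈ T, psiB S r (n - a j') ^ e) = F := funext hFn
  rw [hFe]
  set v : ℝ := ∏ q ∈ S, (1 - 1 / (q : ℝ)) with hv
  set mF : ℝ := mean (∏ q ∈ S, q) F with hmF
  have hmF0 : 0 ≤ mF := mean_nonneg hF0
  have hsum0 : (0 : ℝ) ≤ ∑ q ∈ S, 1 / (q : ℝ) := sum_nonneg fun q _ => by positivity
  have hs0 : 0 ≤ s0 := hsum0.trans hs
  -- pointwise
  have h1 : mean (∏ q ∈ S, q) (fun n => ∏ j' ∈ insert j T, psiB S r (n - a j') ^ e) ≤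
      mean (∏ q ∈ S, q) (fun n => (∏ i : {q // q ∈ S},
        (1 + (-1) * (if (((i : ℕ)) : ℤ) ∣ n - a j then (1 : ℝ) else 0))) * F n +
        ((4 : ℝ) ^ r)⁻¹ * ((∏ i : {q // q ∈ S},
        (1 + 31 * (if (((i : ℕ)) : ℤ) ∣ n - a j then (1 : ℝ) else 0))) * F n)) := by
    apply mean_mono
    intro n
    rw [prod_insert hj, hFn n, om_miss, om_pow]
    have h2 := bf_ub he1 he r (om S (n - a j))
    have h3 : psiB S r (n - a j) = bf r (om S (n - a j)) := rfl
    rw [h3]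
    calc bf r (om S (n - a j)) ^ e * F n ≤ ((if om S (n - a j) = 0 then 1 else 0) +
          ((4 : ℝ) ^ r)⁻¹ * 32 ^ om S (n - a j)) * F n := mul_le_mul_of_nonneg_right h2 (hF0 n)
      _ = _ := by ring
  rw [mean_add, mean_const_mul] at h1
  -- the first term
  have hmiss := asg_miss (p := fun i : {q // q ∈ S} => (i : ℕ)) hcop
    (a := fun j : {j // j ∈ T} => a j) hd' (b := a j) hb hk hcut' (Fb r e) (Fb_nonneg r e)
  have hbig := asg_big (p := fun i : {q // q ∈ S} => (i : ℕ)) hcop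
    (a := fun j : {j // j ∈ T} => a j) hd' (b := a j) hb hk hcut' (Fb r e) (Fb_nonneg r e)
  have hpow := asg_pow (p := fun i : {q // q ∈ S} => (i : ℕ)) (fun i => (hS i i.2).two_le) hcop
    (a := fun j : {j // j ∈ T} => a j) hd'
  rw [hQ] at hmiss hbig hpow
  rw [prod_coe_sort S (fun q => 1 - 1 / (q : ℝ))] at hmiss
  rw [prod_coe_sort S (fun q => 1 + 62 / (q : ℝ))] at hbig
  rw [Fintype.card_coe, prod_coe_sort S (fun q => 1 + 63 * (T.card : ℝ) / (q : ℝ))] at hpow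
  have hv0 : Real.exp (-(2 * s0)) ≤ v := by
    have h2 := blkr_prod_low (S := S) (k := 1) (fun q hq => by have := hcut q hq; omega) hpos hs
    have h3 : -(2 * ((1 : ℕ) : ℝ) * s0) = -(2 * s0) := by
      push_cast
      ring
    rw [h3] at h2
    refine h2.trans (le_of_eq ?_)
    rw [hv]
    push_cast
    rfl
  have hvpos : 0 < v := lt_of_lt_of_le (Real.exp_pos _) hv0
  -- moment of the weight
  have h64 : mean (∏ q ∈ S, q) (fun n => (4 : ℝ) ^ (supp (A n)).card * F n) ≤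
      Real.exp (63 * T.card * s0) := by
    calc mean (∏ q ∈ S, q) (fun n => (4 : ℝ) ^ (supp (A n)).card * F n)
        ≤ mean (∏ q ∈ S, q) (fun n => (64 : ℝ) ^ (supp (A n)).card) := by
          apply mean_mono
          intro n
          have h2 := Fb_le (r := r) he (A n)
          calc (4 : ℝ) ^ (supp (A n)).card * F n ≤ 4 ^ (supp (A n)).card * 16 ^ (supp (A n)).card :=
                mul_le_mul_of_nonneg_left h2 (by positivity)
            _ = 64 ^ (supp (A n)).card := by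
                rw [← mul_pow]
                norm_num
      _ = ∏ q ∈ S, (1 + 63 * (T.card : ℝ) / (q : ℝ)) := hpow
      _ ≤ Real.exp (63 * T.card * s0) := blkr_prod_up (by positivity) hs
  have hlow : Real.exp (-(2 * T.card * s0)) ≤ mF := by
    have h2 := blkr_prod_low (S := S) (k := T.card) h2T hpos hs
    have h3 := blk_low hS hd r T h2T (fun _ => e)
    have h4 : mean (∏ q ∈ S, q) (fun n => ∏ j' ∈ T, psiB S r (n - a j') ^ e) = mF := by
      rw [hFe]
    rw [h4] at h3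
    exact h2.trans h3
  have h65 : Real.exp (63 * T.card * s0) ≤ Real.exp (65 * T.card * s0) * mF := by
    calc Real.exp (63 * T.card * s0) =
          Real.exp (65 * T.card * s0) * Real.exp (-(2 * T.card * s0)) := by
          rw [← Real.exp_add]
          congr 1
          ring
      _ ≤ _ := mul_le_mul_of_nonneg_left hlow (Real.exp_pos _).le
  have h2 : mean (∏ q ∈ S, q) (fun n => (1 + 2 / (cut : ℝ)) ^ (supp (A n)).card * F n) ≤
      (1 + 4 * M0 / cut) * mF + ((2 : ℝ) ^ M0)⁻¹ * (Real.exp (65 * T.card * s0) * mF) := by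
    calc mean (∏ q ∈ S, q) (fun n => (1 + 2 / (cut : ℝ)) ^ (supp (A n)).card * F n)
        ≤ mean (∏ q ∈ S, q) (fun n => (1 + 4 * M0 / cut) * F n +
          ((2 : ℝ) ^ M0)⁻¹ * ((4 : ℝ) ^ (supp (A n)).card * F n)) := by
          apply mean_mono
          intro n
          have h3 := blkr_lam (D := (supp (A n)).card) hM0 hcut2
          calc (1 + 2 / (cut : ℝ)) ^ (supp (A n)).card * F n
              ≤ (1 + 4 * M0 / cut + ((2 : ℝ) ^ M0)⁻¹ * 4 ^ (supp (A n)).card) * F n :=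
                mul_le_mul_of_nonneg_right h3 (hF0 n)
            _ = _ := by ring
      _ = (1 + 4 * M0 / cut) * mF + ((2 : ℝ) ^ M0)⁻¹ *
          mean (∏ q ∈ S, q) (fun n => (4 : ℝ) ^ (supp (A n)).card * F n) := by
          rw [mean_add, mean_const_mul, mean_const_mul]
      _ ≤ _ := by
          refine add_le_add le_rfl (mul_le_mul_of_nonneg_left (h64.trans h65) (by positivity))
  have h3 : ∏ q ∈ S, (1 + 62 / (q : ℝ)) ≤ v * Real.exp (64 * s0) := by
    calc ∏ q ∈ S, (1 + 62 / (q : ℝ)) ≤ Real.exp (62 * s0) := blkr_prod_up (by norm_num) hs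
      _ = Real.exp (-(2 * s0)) * Real.exp (64 * s0) := by
          rw [← Real.exp_add]
          congr 1
          ring
      _ ≤ _ := mul_le_mul_of_nonneg_right hv0 (Real.exp_pos _).le
  have h4 := mul_le_mul_of_nonneg_left h2 hvpos.le
  have h5 := mul_le_mul_of_nonneg_right h3 hmF0
  have h6 : (0 : ℝ) < ((4 : ℝ) ^ r)⁻¹ := by positivity
  have h7 := mul_le_mul_of_nonneg_left (hbig.trans h5) h6.le
  calc mean (∏ q ∈ S, q) (fun n => ∏ j' ∈ insert j T, psiB S r (n - a j') ^ e)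
      ≤ _ := h1
    _ ≤ v * ((1 + 4 * M0 / cut) * mF + ((2 : ℝ) ^ M0)⁻¹ * (Real.exp (65 * T.card * s0) * mF)) +
        ((4 : ℝ) ^ r)⁻¹ * (v * Real.exp (64 * s0) * mF) :=
        add_le_add (hmiss.trans h4) h7
    _ = _ := by ring

end Pool.Agent.ES39
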