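import Pool.Agent.VOID.MomU

/-!
# ES39: exceptional sets for sparse additive complements. Definitions

Paper proof: `/team-store/es39.md` (it modifies `/team-store/void_proof.md`).  The small sieve `ψ`
enters only through the structure `SX`: it is `0` or at least `1`, of small `ℓ¹` weight, and the
insertion of one more shift into a product of second (fourth) powers costs a factor `V2`.
-/

set_option autoImplicit false

open Finset Pool.Agent.RS Pool.Agent.VOID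

namespace Pool.Agent.ES39

variable {ι κ : Type} [Fintype ι] [DecidableEq ι] [DecidableEq κ] [Fintype κ]

/-- the moment of the shifts in `T`, all exponents equal to `e` -/
noncomputable def Me (Q1 : ℕ) (ψ : ℤ → ℝ) (a : κ → ℤ) (e : ℕ) (T : Finset κ) : ℝ :=
  mean Q1 (fun n => ∏ j ∈ T, ψ (n - a j) ^ e)

/-- the diagonal sum, with a weight `m (Tc σ)` -/
noncomputable def ZX (p : ι → ℕ) (y : Finset ι → ℝ) (D : ℝ) (m : Finset κ → ℝ) : ℝ :=
  ∑ σ : ι → Option κ, Yd p y D σ ^ 2 / PH p (supp σ) * m (Tc σ)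

/-- `∏ i, (1 + |e_{p i} (n - b)|)` -/
noncomputable def uu (p : ι → ℕ) (b : ℤ) (n : ℤ) : ℝ := ∏ i, (1 + |ee (p i) (n - b)|)

/-- the small sieve -/
structure SX (Q1 : ℕ) (ψ : ℤ → ℝ) (Wψ : ℝ) (V2 : ℝ) (a : κ → ℤ) : Prop where
  zo : ∀ n, ψ n = 0 ∨ 1 ≤ ψ n
  rep : Rep Q1 ψ Wψ
  one_le_W : 1 ≤ Wψ
  V2_nonneg : 0 ≤ V2
  V2_le_one : V2 ≤ 1
  step2 : ∀ (T : Finset κ) (j : κ), j ∉ T → Me Q1 ψ a 2 (insert j T) ≤ V2 * Me Q1 ψ a 2 T
  step4 : ∀ (T : Finset κ) (j : κ), j ∉ T → Me Q1 ψ a 4 (insert j T) ≤ V2 * Me Q1 ψ a 4 T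

variable {Q1 : ℕ} {ψ : ℤ → ℝ} {Wψ V2 : ℝ} {a : κ → ℤ}

omit [DecidableEq κ] [Fintype κ] in
theorem Me_empty (hQ : 0 < Q1) (e : ℕ) : Me Q1 ψ a e ∅ = 1 := by
  unfold Me
  simp only [Finset.prod_empty]
  exact mean_const hQ 1

theorem SX.nonneg (h : SX Q1 ψ Wψ V2 a) (n : ℤ) : 0 ≤ ψ n := by
  rcases h.zo n with h1 | h1
  · exact h1.ge
  · exact zero_le_one.trans h1

theorem SX.le_sq (h : SX Q1 ψ Wψ V2 a) (n : ℤ) : ψ n ≤ ψ n ^ 2 := by
  rcases h.zo n with h1 | h1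
  · rw [h1]
    norm_num
  · nlinarith

theorem SX.Me_nonneg (h : SX Q1 ψ Wψ V2 a) (e : ℕ) (T : Finset κ) : 0 ≤ Me Q1 ψ a e T :=
  mean_nonneg fun _ => Finset.prod_nonneg fun _ _ => pow_nonneg (h.nonneg _) _

theorem SX.Me2_le_one (h : SX Q1 ψ Wψ V2 a) (hQ : 0 < Q1) (T : Finset κ) :
    Me Q1 ψ a 2 T ≤ 1 := by
  induction T using Finset.induction_on with
  | empty => exact (Me_empty hQ 2).le
  | insert j T hj ih =>
    calc Me Q1 ψ a 2 (insert j T) ≤ V2 * Me Q1 ψ a 2 T := h.step2 T j hj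
      _ ≤ 1 * 1 := mul_le_mul h.V2_le_one ih (h.Me_nonneg 2 T) zero_le_one
      _ = 1 := one_mul 1

theorem SX.Me4_le (h : SX Q1 ψ Wψ V2 a) (hQ : 0 < Q1) (T : Finset κ) :
    Me Q1 ψ a 4 T ≤ V2 ^ T.card := by
  induction T using Finset.induction_on with
  | empty =>
    rw [Me_empty hQ 4, card_empty, pow_zero]
  | insert j T hj ih =>
    rw [card_insert_of_notMem hj, pow_succ']
    exact (h.step4 T j hj).trans (mul_le_mul_of_nonneg_left ih h.V2_nonneg)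

theorem SX.per (h : SX Q1 ψ Wψ V2 a) : Per Q1 ψ := h.rep.per

end Pool.Agent.ES39
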