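import Pool.Agent.ES39.BlkR
import Pool.Agent.ES39.Defs
import Pool.Agent.VOID.BrunV

/-! ES39/BrunX.  The block sieve satisfies `SX` (Lemma C of es39.md).

The mean of `∏ psiV (n - a j) ^ e` is the product of the means of the blocks; the insertion of one more shift costs the
factor of `blk_ins` in each block. The sieve `psiV` is a product of natural numbers, so it is `0` or at least `1`. -/

set_option autoImplicit false

open Finset Pool.Agent.RS Pool.Agent.VOID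

namespace Pool.Agent.ES39

private theorem BrunX_bf (r ω : ℕ) : bf r ω = 0 ∨ 1 ≤ bf r ω := by
  unfold bf
  split_ifs with h
  · exact Or.inr le_rfl
  · rcases Nat.eq_zero_or_pos ((ω - 1).choose (2 * r)) with h1 | h1
    · exact Or.inl (by rw [h1, Nat.cast_zero])
    · exact Or.inr (by exact_mod_cast h1)

private theorem BrunX_zo (Bl : ℕ → Finset ℕ) (r : ℕ) (m : ℤ) (s : Finset ℕ) :
    (∏ i ∈ s, psiB (Bl i) (r + i) m) = 0 ∨ 1 ≤ ∏ i ∈ s, psiB (Bl i) (r + i) m := by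
  induction s using Finset.induction_on with
  | empty => exact Or.inr (by rw [Finset.prod_empty])
  | insert i s hi ih =>
    rw [Finset.prod_insert hi]
    rcases BrunX_bf (r + i) (om (Bl i) m) with h | h
    · exact Or.inl (by
        unfold psiB
        rw [h, zero_mul])
    · rcases ih with h1 | h1
      · exact Or.inl (by rw [h1, mul_zero])
      · exact Or.inr (one_le_mul_of_one_le_of_one_le h h1)

private theorem BrunX_mean {κ : Type} {Bl : ℕ → Finset ℕ} {r I : ℕ}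
    (hB : ∀ i < I, ∀ q ∈ Bl i, q.Prime)
    (hdisj : ∀ i < I, ∀ i' < I, i ≠ i' → Disjoint (Bl i) (Bl i')) (a : κ → ℤ) (e : ℕ) (T : Finset κ) :
    Me (QV Bl I) (psiV Bl r I) a e T = ∏ i ∈ range I, mean (∏ q ∈ Bl i, q)
        (fun n => ∏ j ∈ T, psiB (Bl i) (r + i) (n - a j) ^ e) := by
  have hppos : ∀ i ∈ range I, 0 < ∏ q ∈ Bl i, q := by
    intro i hi
    rw [Finset.mem_range] at hi
    exact Finset.prod_pos (fun q hq => (hB i hi q hq).pos)
  have hcop : ∀ i ∈ range I, ∀ i' ∈ range I, i ≠ i' →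
      Nat.Coprime (∏ q ∈ Bl i, q) (∏ q ∈ Bl i', q) := by
    intro i hi i' hi' hne
    rw [Finset.mem_range] at hi hi'
    apply Nat.Coprime.prod_left
    intro q hq
    apply Nat.Coprime.prod_right
    intro q' hq'
    rw [Nat.coprime_primes (hB i hi q hq) (hB i' hi' q' hq')]
    intro h
    subst h
    exact Finset.disjoint_left.mp (hdisj i hi i' hi' hne) hq hq'
  have hper : ∀ i ∈ range I,
      Per (∏ q ∈ Bl i, q) (fun n => ∏ j ∈ T, psiB (Bl i) (r + i) (n - a j) ^ e) := by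
    intro i hi
    rw [Finset.mem_range] at hi
    have hrep := psiB_rep (S := Bl i) (hB i hi) (r + i)
    exact (Rep.prod T (fun j n => psiB (Bl i) (r + i) (n - a j) ^ e)
      (fun j => ((((Bl i).card : ℝ) + 1) ^ (2 * (r + i))) ^ e)
      (fun j _ => (hrep.shift (a j)).pow e)).per
  have h1 := mean_prod (Q1 := 1) (F := fun _ => (1 : ℝ)) (range I) (fun i => ∏ q ∈ Bl i, q)
    hppos hcop one_pos (fun i _ => Nat.coprime_one_left _) (fun n => rfl)
    (fun i n => ∏ j ∈ T, psiB (Bl i) (r + i) (n - a j) ^ e) hper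
  rw [mean_const one_pos, one_mul, one_mul] at h1
  rw [← h1]
  unfold Me QV
  congr 1
  funext n
  rw [one_mul, Finset.prod_comm]
  apply Finset.prod_congr rfl
  intro j _
  unfold psiV
  rw [Finset.prod_pow]

private theorem BrunX_step {κ : Type} [DecidableEq κ] [Fintype κ] {Bl : ℕ → Finset ℕ} {r I : ℕ}
    (hB : ∀ i < I, ∀ q ∈ Bl i, q.Prime)
    (hdisj : ∀ i < I, ∀ i' < I, i ≠ i' → Disjoint (Bl i) (Bl i')) {a : κ → ℤ}
    (hd : ∀ i < I, ∀ q ∈ Bl i, ∀ j j', j ≠ j' → ¬ (q : ℤ) ∣ a j - a j')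
    {cut M0 : ℕ} {s0 E V2 : ℝ} (hcut : ∀ i < I, ∀ q ∈ Bl i, cut ≤ q)
    (hk : 2 * (Fintype.card κ + 1) ≤ cut) (hM0 : 2 * M0 ≤ cut) (hs0 : 0 ≤ s0)
    (hs : ∀ i < I, ∑ q ∈ Bl i, 1 / (q : ℝ) ≤ s0)
    (hE : ∏ i ∈ range I, (1 + 4 * (M0 : ℝ) / cut +
      ((2 : ℝ) ^ M0)⁻¹ * Real.exp (65 * (Fintype.card κ : ℝ) * s0) +
        ((4 : ℝ) ^ (r + i))⁻¹ * Real.exp (64 * s0)) ≤ E)
    (hV : E * PiV Bl I 1 ≤ V2) {e : ℕ} (he1 : 1 ≤ e) (he : e ≤ 4) (T : Finset κ) (j : κ) (hj : j ∉ T) :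
    Me (QV Bl I) (psiV Bl r I) a e (insert j T) ≤ V2 * Me (QV Bl I) (psiV Bl r I) a e T := by
  rw [BrunX_mean hB hdisj a e (insert j T), BrunX_mean hB hdisj a e T]
  have hTc : T.card ≤ Fintype.card κ := Finset.card_le_univ T
  have hTr : (T.card : ℝ) ≤ (Fintype.card κ : ℝ) := by exact_mod_cast hTc
  have hm0 : ∀ i, 0 ≤ mean (∏ q ∈ Bl i, q) (fun n => ∏ j ∈ T, psiB (Bl i) (r + i) (n - a j) ^ e) := fun i =>
    mean_nonneg fun n => Finset.prod_nonneg fun _ _ => pow_nonneg (bf_nonneg _ _) _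
  have hv0 : ∀ i ∈ range I, 0 ≤ ∏ q ∈ Bl i, (1 - 1 / (q : ℝ)) := by
    intro i hi
    rw [Finset.mem_range] at hi
    refine Finset.prod_nonneg fun q hq => ?_
    have h1 : (1 : ℝ) ≤ q := by exact_mod_cast (hB i hi q hq).one_lt.le
    rw [sub_nonneg, div_le_one (by linarith)]
    exact h1
  have hpi : ∏ i ∈ range I, ∏ q ∈ Bl i, (1 - 1 / (q : ℝ)) = PiV Bl I 1 := by
    unfold PiV
    refine Finset.prod_congr rfl fun i hi => Finset.prod_congr rfl fun q hq => ?_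
    rw [Finset.mem_range] at hi
    have h1 : (1 : ℝ) ≤ q := by exact_mod_cast (hB i hi q hq).one_lt.le
    rw [Nat.cast_one, max_eq_right]
    rw [sub_nonneg, div_le_one (by linarith)]
    exact h1
  have hB0 : ∀ i, 0 ≤ 1 + 4 * (M0 : ℝ) / cut +
      ((2 : ℝ) ^ M0)⁻¹ * Real.exp (65 * (Fintype.card κ : ℝ) * s0) +
        ((4 : ℝ) ^ (r + i))⁻¹ * Real.exp (64 * s0) := fun i => by positivity
  have hstep : ∏ i ∈ range I, mean (∏ q ∈ Bl i, q)
        (fun n => ∏ j' ∈ insert j T, psiB (Bl i) (r + i) (n - a j') ^ e) ≤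
      ∏ i ∈ range I, ((∏ q ∈ Bl i, (1 - 1 / (q : ℝ))) * (1 + 4 * (M0 : ℝ) / cut +
      ((2 : ℝ) ^ M0)⁻¹ * Real.exp (65 * (Fintype.card κ : ℝ) * s0) +
        ((4 : ℝ) ^ (r + i))⁻¹ * Real.exp (64 * s0)) *
          mean (∏ q ∈ Bl i, q) (fun n => ∏ j' ∈ T, psiB (Bl i) (r + i) (n - a j') ^ e)) := by
    refine Finset.prod_le_prod (fun i _ => ?_) fun i hi => ?_
    · exact mean_nonneg fun n => Finset.prod_nonneg fun _ _ => pow_nonneg (bf_nonneg _ _) _
    · have hi' := Finset.mem_range.1 hi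
      have h1 := blk_ins (hB i hi') (hd i hi') (r + i) he1 he T j hj (hcut i hi') (by omega) hM0 (hs i hi')
      refine h1.trans (mul_le_mul_of_nonneg_right (mul_le_mul_of_nonneg_left ?_ (hv0 i hi)) (hm0 i))
      have h2 : Real.exp (65 * (T.card : ℝ) * s0) ≤ Real.exp (65 * (Fintype.card κ : ℝ) * s0) := by
        rw [Real.exp_le_exp]
        exact mul_le_mul_of_nonneg_right (by linarith) hs0
      have h3 : ((2 : ℝ) ^ M0)⁻¹ * Real.exp (65 * (T.card : ℝ) * s0) ≤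
          ((2 : ℝ) ^ M0)⁻¹ * Real.exp (65 * (Fintype.card κ : ℝ) * s0) :=
        mul_le_mul_of_nonneg_left h2 (by positivity)
      linarith
  refine hstep.trans ?_
  rw [Finset.prod_mul_distrib, Finset.prod_mul_distrib, hpi]
  refine mul_le_mul_of_nonneg_right ?_ (Finset.prod_nonneg fun i _ => hm0 i)
  refine le_trans ?_ hV
  rw [mul_comm]
  refine mul_le_mul_of_nonneg_right hE ?_
  rw [← hpi]
  exact Finset.prod_nonneg hv0

theorem brun_sx {κ : Type} [DecidableEq κ] [Fintype κ] {Bl : ℕ → Finset ℕ} {r I : ℕ}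
    (hB : ∀ i < I, ∀ q ∈ Bl i, q.Prime)
    (hdisj : ∀ i < I, ∀ i' < I, i ≠ i' → Disjoint (Bl i) (Bl i')) {a : κ → ℤ}
    (hd : ∀ i < I, ∀ q ∈ Bl i, ∀ j j', j ≠ j' → ¬ (q : ℤ) ∣ a j - a j')
    {cut M0 : ℕ} {s0 E V2 : ℝ} (hcut : ∀ i < I, ∀ q ∈ Bl i, cut ≤ q)
    (hk : 2 * (Fintype.card κ + 1) ≤ cut) (hM0 : 2 * M0 ≤ cut) (hs0 : 0 ≤ s0)
    (hs : ∀ i < I, ∑ q ∈ Bl i, 1 / (q : ℝ) ≤ s0)
    (hE : ∏ i ∈ range I, (1 + 4 * (M0 : ℝ) / cut +
      ((2 : ℝ) ^ M0)⁻¹ * Real.exp (65 * (Fintype.card κ : ℝ) * s0) +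
        ((4 : ℝ) ^ (r + i))⁻¹ * Real.exp (64 * s0)) ≤ E)
    (hV : E * PiV Bl I 1 ≤ V2) (hV1 : V2 ≤ 1) :
    SX (QV Bl I) (psiV Bl r I) (∏ i ∈ range I, (((Bl i).card : ℝ) + 1) ^ (2 * (r + i))) V2 a := by
  refine ⟨fun n => BrunX_zo Bl r n (range I), ?_, ?_, ?_, hV1, fun T j hj => ?_, fun T j hj => ?_⟩
  · apply Rep.prod (range I) (fun i => psiB (Bl i) (r + i))
      (fun i => (((Bl i).card : ℝ) + 1) ^ (2 * (r + i)))
    intro i hi
    have hi' := Finset.mem_range.mp hi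
    exact (psiB_rep (S := Bl i) (hB i hi') (r + i)).dvd_mono
      (Finset.dvd_prod_of_mem (fun i => ∏ q ∈ Bl i, q) hi)
  · calc (1 : ℝ) = ∏ i ∈ range I, (1 : ℝ) := by rw [Finset.prod_const_one]
      _ ≤ ∏ i ∈ range I, (((Bl i).card : ℝ) + 1) ^ (2 * (r + i)) := by
        apply Finset.prod_le_prod
        · intro i _
          exact zero_le_one
        · intro i _
          apply one_le_pow₀
          have : (0 : ℝ) ≤ ((Bl i).card : ℝ) := Nat.cast_nonneg _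
          linarith
  · refine le_trans (mul_nonneg (le_trans (Finset.prod_nonneg fun i _ => ?_) hE) ?_) hV
    · positivity
    · exact Finset.prod_nonneg fun i _ => Finset.prod_nonneg fun q _ => le_max_left _ _
  · exact BrunX_step hB hdisj hd hcut hk hM0 hs0 hs hE hV (by norm_num) (by norm_num) T j hj
  · exact BrunX_step hB hdisj hd hcut hk hM0 hs0 hs hE hV (by norm_num) (by norm_num) T j hj

end Pool.Agent.ES39
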