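import Pool.Agent.ES39.Defs
import Pool.Agent.RS.Chern

/-! ES39/ChernX.  Exponential moment bound with a set function `m` instead of `Pi (card)`.
One cell at a time, as in `VOID.tailV`. -/

set_option autoImplicit false

open Finset Pool.Agent.RS Pool.Agent.VOID

namespace Pool.Agent.ES39

variable {ι κ : Type} [Fintype ι] [DecidableEq ι] [DecidableEq κ] [Fintype κ]

omit [DecidableEq ι] in
private theorem chernx_rpow {p : ι → ℕ} (hp : ∀ i, 2 ≤ p i) {lam : ℝ} (hlam : 0 ≤ lam)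
    (S : Finset ι) : 1 ≤ PP p S ^ lam := by
  classical
  exact Real.one_le_rpow (one_le_PP hp S) hlam

omit [DecidableEq ι] in
private theorem chernx_ph {p : ι → ℕ} (hp : ∀ i, 2 ≤ p i) (S : Finset ι) : 0 < PH p S := by
  classical
  exact lt_of_lt_of_le one_pos (one_le_PH hp S)

private theorem chernx_Tc (σ : ι → Option κ) (i : κ) (h : cell σ i ≠ ∅) :
    Tc σ = insert i (Tc (era σ i)) ∧ i ∉ Tc (era σ i) := by
  have h1 : Tc σ = insert i (Tc (era σ i)) := by
    ext j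
    unfold Tc
    rw [mem_insert, mem_filter, mem_filter]
    by_cases hj : j = i
    · subst hj
      simp [h]
    · rw [cell_era_of_ne σ hj]
      simp [hj]
  have h2 : i ∉ Tc (era σ i) := by
    unfold Tc
    rw [mem_filter, cell_era_self]
    simp
  exact ⟨h1, h2⟩

open Classical in
private theorem chernx_step {p : ι → ℕ} (hp : ∀ i, 2 ≤ p i) (y : Finset ι → ℝ) (hy0 : y ∅ = 1)
    {D lam θ V1 : ℝ} (hlam : 0 ≤ lam) (hθ0 : 0 ≤ θ)
    (hθ : ∑ S ∈ (univ : Finset (Finset ι)).filter (fun S => S ≠ ∅),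
      y S ^ 2 / PH p S * (PP p S ^ lam - 1) ≤ θ)
    (m : Finset κ → ℝ) (hm : ∀ T, 0 ≤ m T) (hV1 : 0 ≤ V1)
    (hstep : ∀ (T : Finset κ) (j : κ), j ∉ T → m (insert j T) ≤ V1 * m T)
    (J : Finset κ) (i : κ) (hi : i ∉ J) :
    ∑ σ : ι → Option κ, Yd p y D σ ^ 2 * (∏ j ∈ J, PP p (cell σ j) ^ lam) *
        (PP p (cell σ i) ^ lam - 1) / PH p (supp σ) * m (Tc σ) ≤
      V1 * θ * ∑ σ : ι → Option κ,
        Yd p y D σ ^ 2 * (∏ j ∈ J, PP p (cell σ j) ^ lam) / PH p (supp σ) * m (Tc σ) := by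
  have hprod : ∀ σ : ι → Option κ, 0 ≤ ∏ j ∈ J, PP p (cell σ j) ^ lam := fun σ =>
    prod_nonneg fun j _ => le_trans zero_le_one (chernx_rpow hp hlam _)
  obtain ⟨F, hF⟩ : ∃ F : (ι → Option κ) → Finset ι → ℝ,
      ∀ σ' S, F σ' S = (if PP p S * PP p (supp σ') ≤ D then (y S * Yt y σ') ^ 2 else 0) *
          (∏ j ∈ J, PP p (cell σ' j) ^ lam) *
          (PP p S ^ lam - 1) / (PH p S * PH p (supp σ')) * (V1 * m (Tc σ')) :=
    ⟨_, fun _ _ => rfl⟩
  have h1 : ∑ σ : ι → Option κ, Yd p y D σ ^ 2 * (∏ j ∈ J, PP p (cell σ j) ^ lam) *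
        (PP p (cell σ i) ^ lam - 1) / PH p (supp σ) * m (Tc σ) ≤
      ∑ σ : ι → Option κ, F (era σ i) (cell σ i) := by
    apply sum_le_sum
    intro σ _
    have h2 : ∏ j ∈ J, PP p (cell (era σ i) j) ^ lam = ∏ j ∈ J, PP p (cell σ j) ^ lam := by
      apply prod_congr rfl
      intro j hj
      have hji : j ≠ i := by
        rintro rfl
        exact hi hj
      rw [cell_era_of_ne σ hji]
    have h3 : Yd p y D σ ^ 2 =
        if PP p (cell σ i) * PP p (supp (era σ i)) ≤ D then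
          (y (cell σ i) * Yt y (era σ i)) ^ 2 else 0 := by
      unfold Yd
      rw [PP_supp_split p σ i, Yt_split y hy0 σ i]
      split_ifs
      · rfl
      · exact zero_pow two_ne_zero
    rw [hF, ← h3, h2, ← PH_supp_split p σ i]
    by_cases hc : cell σ i = ∅
    · rw [hc, PP_empty, Real.one_rpow, sub_self, mul_zero, zero_div, zero_mul, zero_mul]
    · obtain ⟨hc1, hc2⟩ := chernx_Tc σ i hc
      rw [hc1]
      apply mul_le_mul_of_nonneg_left (hstep _ _ hc2)
      exact div_nonneg (mul_nonneg (mul_nonneg (sq_nonneg _) (hprod σ))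
        (sub_nonneg.mpr (chernx_rpow hp hlam _))) (chernx_ph hp _).le
  refine h1.trans ?_
  rw [decomp i F, mul_sum]
  refine le_trans (sum_le_sum (g := fun σ : ι → Option κ =>
    V1 * θ * (Yd p y D σ ^ 2 * (∏ j ∈ J, PP p (cell σ j) ^ lam) / PH p (supp σ) *
      m (Tc σ))) ?_) ?_
  · intro σ _
    have hphs := chernx_ph hp (supp σ)
    have hV : 0 ≤ V1 * m (Tc σ) := mul_nonneg hV1 (hm _)
    have h2 : ∀ S ∈ (univ \ supp σ).powerset, F σ S ≤
        (Yd p y D σ ^ 2 * (∏ j ∈ J, PP p (cell σ j) ^ lam) / PH p (supp σ) *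
          (V1 * m (Tc σ))) *
          (y S ^ 2 / PH p S * (PP p S ^ lam - 1)) := by
      intro S _
      have hph := chernx_ph hp S
      have hpp : (1 : ℝ) ≤ PP p S := one_le_PP hp S
      have hpl : 0 ≤ PP p S ^ lam - 1 := sub_nonneg.mpr (chernx_rpow hp hlam S)
      have h3 : (if PP p S * PP p (supp σ) ≤ D then (y S * Yt y σ) ^ 2 else 0) ≤
          Yd p y D σ ^ 2 * y S ^ 2 := by
        have hps : (1 : ℝ) ≤ PP p (supp σ) := one_le_PP hp _
        split_ifs with h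
        · have h4 : PP p (supp σ) ≤ D := by nlinarith
          unfold Yd
          rw [if_pos h4]
          exact le_of_eq (by ring)
        · positivity
      have h5 : (Yd p y D σ ^ 2 * (∏ j ∈ J, PP p (cell σ j) ^ lam) / PH p (supp σ) *
          (V1 * m (Tc σ))) *
          (y S ^ 2 / PH p S * (PP p S ^ lam - 1)) =
          (Yd p y D σ ^ 2 * y S ^ 2) * (∏ j ∈ J, PP p (cell σ j) ^ lam) *
          (PP p S ^ lam - 1) / (PH p S * PH p (supp σ)) * (V1 * m (Tc σ)) := by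
        field_simp
      rw [h5, hF]
      apply mul_le_mul_of_nonneg_right _ hV
      apply div_le_div_of_nonneg_right _ (mul_pos hph hphs).le
      apply mul_le_mul_of_nonneg_right _ hpl
      exact mul_le_mul_of_nonneg_right h3 (hprod σ)
    refine le_trans (sum_le_sum h2) ?_
    rw [← mul_sum]
    have h7 : V1 * θ * (Yd p y D σ ^ 2 * (∏ j ∈ J, PP p (cell σ j) ^ lam) / PH p (supp σ) *
        m (Tc σ)) = (Yd p y D σ ^ 2 * (∏ j ∈ J, PP p (cell σ j) ^ lam) / PH p (supp σ) *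
          (V1 * m (Tc σ))) * θ := by ring
    rw [h7]
    apply mul_le_mul_of_nonneg_left _
      (mul_nonneg (div_nonneg (mul_nonneg (sq_nonneg _) (hprod σ)) hphs.le) hV)
    refine le_trans ?_ hθ
    have h6 : ∑ S ∈ (univ \ supp σ).powerset, y S ^ 2 / PH p S * (PP p S ^ lam - 1) =
        ∑ S ∈ (univ \ supp σ).powerset.filter (fun S => S ≠ ∅),
          y S ^ 2 / PH p S * (PP p S ^ lam - 1) := by
      symm
      apply sum_filter_of_ne
      intro S _ hS
      rintro rfl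
      apply hS
      rw [PP_empty, Real.one_rpow, sub_self, mul_zero]
    rw [h6]
    apply sum_le_sum_of_subset_of_nonneg
    · intro S hS
      rw [mem_filter] at hS ⊢
      exact ⟨mem_univ _, hS.2⟩
    · intro S _ _
      exact mul_nonneg (div_nonneg (sq_nonneg _) (chernx_ph hp S).le)
        (sub_nonneg.mpr (chernx_rpow hp hlam S))
  · apply sum_le_sum_of_subset_of_nonneg (filter_subset _ _)
    intro σ _ _
    exact mul_nonneg (mul_nonneg hV1 hθ0) (mul_nonneg
      (div_nonneg (mul_nonneg (sq_nonneg _) (hprod σ)) (chernx_ph hp (supp σ)).le) (hm _))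

open Classical in
private theorem chernx_chernoff {p : ι → ℕ} (hp : ∀ i, 2 ≤ p i) (y : Finset ι → ℝ)
    (hy0 : y ∅ = 1) {D lam θ V1 : ℝ} (hlam : 0 ≤ lam) (hθ0 : 0 ≤ θ)
    (hθ : ∑ S ∈ (univ : Finset (Finset ι)).filter (fun S => S ≠ ∅),
      y S ^ 2 / PH p S * (PP p S ^ lam - 1) ≤ θ)
    (m : Finset κ → ℝ) (hm : ∀ T, 0 ≤ m T) (hV1 : 0 ≤ V1)
    (hstep : ∀ (T : Finset κ) (j : κ), j ∉ T → m (insert j T) ≤ V1 * m T) :
    ∑ σ : ι → Option κ, Yd p y D σ ^ 2 * PP p (supp σ) ^ lam / PH p (supp σ) *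
        m (Tc σ) ≤
      (1 + V1 * θ) ^ (Fintype.card κ) * ZX p y D m := by
  have hVθ : 0 ≤ V1 * θ := mul_nonneg hV1 hθ0
  have key : ∀ J : Finset κ, ∑ σ : ι → Option κ,
      Yd p y D σ ^ 2 * (∏ j ∈ J, PP p (cell σ j) ^ lam) / PH p (supp σ) * m (Tc σ) ≤
      (1 + V1 * θ) ^ J.card * ZX p y D m := by
    intro J
    induction J using Finset.induction_on with
    | empty => simp [ZX]
    | insert i J hi ih =>
      have h1 : ∑ σ : ι → Option κ,
          Yd p y D σ ^ 2 * (∏ j ∈ insert i J, PP p (cell σ j) ^ lam) / PH p (supp σ) *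
            m (Tc σ) =
          ∑ σ : ι → Option κ, Yd p y D σ ^ 2 * (∏ j ∈ J, PP p (cell σ j) ^ lam) / PH p (supp σ) *
            m (Tc σ) +
          ∑ σ : ι → Option κ, Yd p y D σ ^ 2 * (∏ j ∈ J, PP p (cell σ j) ^ lam) *
            (PP p (cell σ i) ^ lam - 1) / PH p (supp σ) * m (Tc σ) := by
        rw [← sum_add_distrib]
        apply sum_congr rfl
        intro σ _
        rw [prod_insert hi]
        ring
      have h2 := chernx_step hp y hy0 (D := D) hlam hθ0 hθ m hm hV1 hstep J i hi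
      rw [h1, card_insert_of_notMem hi, pow_succ]
      have h3 := mul_le_mul_of_nonneg_left ih (by linarith : (0 : ℝ) ≤ 1 + V1 * θ)
      linarith
  have h1 := key univ
  rw [card_univ] at h1
  refine le_trans (le_of_eq ?_) h1
  apply sum_congr rfl
  intro σ _
  rw [Real.finsetProd_rpow _ _ (fun j _ => le_trans zero_le_one (one_le_PP hp _)),
    ← PP_supp_eq_prod]

open Classical in
theorem tailX {p : ι → ℕ} (hp : ∀ i, 2 ≤ p i) (y : Finset ι → ℝ) (hy0 : y ∅ = 1)
    {D D2 lam θ V1 : ℝ} (hD2 : 0 < D2) (hlam : 0 ≤ lam) (hθ0 : 0 ≤ θ)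
    (hθ : ∑ S ∈ (univ : Finset (Finset ι)).filter (fun S => S ≠ ∅),
      y S ^ 2 / PH p S * (PP p S ^ lam - 1) ≤ θ)
    (m : Finset κ → ℝ) (hm : ∀ T, 0 ≤ m T) (hV1 : 0 ≤ V1)
    (hstep : ∀ (T : Finset κ) (j : κ), j ∉ T → m (insert j T) ≤ V1 * m T) :
    ∑ σ ∈ (univ : Finset (ι → Option κ)).filter (fun σ => D2 < PP p (supp σ)),
        Yd p y D σ ^ 2 / PH p (supp σ) * m (Tc σ) ≤
      D2 ^ (-lam) * Real.exp (V1 * θ * Fintype.card κ) * ZX p y D m := by
  have hVθ : 0 ≤ V1 * θ := mul_nonneg hV1 hθ0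
  have hZ : 0 ≤ ZX p y D m :=
    sum_nonneg fun σ _ => mul_nonneg (div_nonneg (sq_nonneg _) (chernx_ph hp _).le) (hm _)
  have h1 : ∑ σ ∈ (univ : Finset (ι → Option κ)).filter (fun σ => D2 < PP p (supp σ)),
        Yd p y D σ ^ 2 / PH p (supp σ) * m (Tc σ) ≤
      D2 ^ (-lam) *
        ∑ σ : ι → Option κ, Yd p y D σ ^ 2 * PP p (supp σ) ^ lam / PH p (supp σ) *
          m (Tc σ) := by
    rw [mul_sum]
    refine le_trans (sum_le_sum (g := fun σ : ι → Option κ => D2 ^ (-lam) *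
      (Yd p y D σ ^ 2 * PP p (supp σ) ^ lam / PH p (supp σ) * m (Tc σ))) ?_) ?_
    · intro σ hσ
      rw [mem_filter] at hσ
      have h2 : 1 ≤ D2 ^ (-lam) * PP p (supp σ) ^ lam := by
        rw [Real.rpow_neg hD2.le, ← div_eq_inv_mul,
          one_le_div (Real.rpow_pos_of_pos hD2 lam)]
        exact Real.rpow_le_rpow hD2.le hσ.2.le hlam
      have h3 : D2 ^ (-lam) * (Yd p y D σ ^ 2 * PP p (supp σ) ^ lam / PH p (supp σ) *
          m (Tc σ)) =
          (D2 ^ (-lam) * PP p (supp σ) ^ lam) * (Yd p y D σ ^ 2 / PH p (supp σ) *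
            m (Tc σ)) := by ring
      rw [h3]
      exact le_mul_of_one_le_left (mul_nonneg (div_nonneg (sq_nonneg _) (chernx_ph hp _).le)
        (hm _)) h2
    · apply sum_le_sum_of_subset_of_nonneg (filter_subset _ _)
      intro σ _ _
      exact mul_nonneg (Real.rpow_nonneg hD2.le _) (mul_nonneg (div_nonneg (mul_nonneg
        (sq_nonneg _) (le_trans zero_le_one (chernx_rpow hp hlam _))) (chernx_ph hp _).le)
        (hm _))
  refine h1.trans ?_
  rw [mul_assoc]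
  apply mul_le_mul_of_nonneg_left _ (Real.rpow_nonneg hD2.le _)
  refine (chernx_chernoff hp y hy0 hlam hθ0 hθ m hm hV1 hstep).trans ?_
  apply mul_le_mul_of_nonneg_right _ hZ
  have h4 : (1 + V1 * θ) ^ (Fintype.card κ) ≤ Real.exp (V1 * θ) ^ (Fintype.card κ) := by
    apply pow_le_pow_left₀ (by linarith)
    rw [add_comm]
    exact Real.add_one_le_exp (V1 * θ)
  rw [← Real.exp_nat_mul, mul_comm (Fintype.card κ : ℝ)] at h4
  exact h4

end Pool.Agent.ES39
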