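import Mathlib

/-! ES39/NumX.  The numerical condition of the block sieve (`r = 400`, `s0 = 8`, `cut = L^6`,
`M0 = L^3`).

For every `i` the summands besides `1` are at most `5/L^3 + (1/4)^i * (4^400)⁻¹ exp 512`:
`4 L^3/L^6 = 4/L^3`; `2^(-L^3) exp (520 k) ≤ 1/L^3` because `L^3 exp (520 L) ≤ exp (521 L) ≤
exp (L^3/2) ≤ 2^(L^3)` for `L ≥ 100` (`x^3 ≤ exp x` for large `x`, e.g. from
`Real.pow_div_factorial_le_exp`, or `L^3 ≤ exp (3 L)`: `3 L + 520 L ≤ L^3/2`).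
`exp 512 ≤ 4^399` (`exp 1 < 2.7182818286`, `exp 512 = (exp 1)^512`, `2.7182818286^512 ≤ 4^399`: e.g.
`2.7182818286^4 ≤ 4^3` gives `exp 512 ≤ 4^384`).  Then `1 + x ≤ exp x`, `Finset.prod_le_prod`,
`Real.exp_sum`: the sum of the exponents is `≤ I * 5/L^3 + 2 * 4^(-16) ≤ 1` (`I ≤ L`). -/

set_option autoImplicit false

open Finset

namespace Pool.Agent.ES39

private theorem numX_two (n : ℕ) : Real.exp ((n : ℝ) / 2) ≤ (2 : ℝ) ^ n := by
  have h1 : Real.exp (1 / 2) ≤ 2 := by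
    have h2 : Real.exp (1 / 2) * Real.exp (1 / 2) = Real.exp 1 := by
      rw [← Real.exp_add]
      norm_num
    have h3 := Real.exp_one_lt_d9
    have h4 := Real.exp_pos (1 / 2)
    by_contra hcon
    push Not at hcon
    nlinarith
  have h2 : Real.exp ((n : ℝ) / 2) = Real.exp (1 / 2) ^ n := by
    rw [← Real.exp_nat_mul]
    congr 1
    ring
  rw [h2]
  exact pow_le_pow_left₀ (Real.exp_pos _).le h1 n

private theorem numX_512 : Real.exp (64 * 8) ≤ (4 : ℝ) ^ 384 := by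
  have h1 : Real.exp 1 ^ 4 ≤ 64 := by
    have h3 := Real.exp_one_lt_d9
    have h4 := Real.exp_pos 1
    calc Real.exp 1 ^ 4 ≤ (2.7182818286 : ℝ) ^ 4 := pow_le_pow_left₀ h4.le h3.le 4
      _ ≤ 64 := by norm_num
  have h2 : Real.exp (64 * 8) = (Real.exp 1 ^ 4) ^ 128 := by
    rw [← pow_mul, ← Real.exp_nat_mul]
    norm_num
  rw [h2]
  calc (Real.exp 1 ^ 4) ^ 128 ≤ (64 : ℝ) ^ 128 :=
        pow_le_pow_left₀ (by positivity) h1 128
    _ = ((4 : ℝ) ^ 3) ^ 128 := by norm_num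
    _ = (4 : ℝ) ^ 384 := by rw [← pow_mul]

private theorem numX_alg (a b c : ℝ) (ha : a ≠ 0) : (a * (b * c))⁻¹ * a = b⁻¹ * c⁻¹ := by
  rw [mul_inv, mul_comm a⁻¹, mul_assoc, inv_mul_cancel₀ ha, mul_one, mul_inv]

private theorem numX_geo (I : ℕ) : ∑ i ∈ range I, (1 / 4 : ℝ) ^ i ≤ 2 - 2 * (1 / 4) ^ I := by
  induction I with
  | zero => norm_num
  | succ n ih =>
    rw [sum_range_succ, pow_succ]
    have h : (0 : ℝ) < (1 / 4) ^ n := by positivity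
    linarith

theorem brun_num {L I k : ℕ} (hL : 100 ≤ L) (hI : I ≤ L) (hk : k ≤ L) :
    ∏ i ∈ range I, (1 + 4 * ((L ^ 3 : ℕ) : ℝ) / ((L ^ 6 : ℕ) : ℝ) +
      ((2 : ℝ) ^ (L ^ 3))⁻¹ * Real.exp (65 * (k : ℝ) * 8) +
        ((4 : ℝ) ^ (400 + i))⁻¹ * Real.exp (64 * 8)) ≤ Real.exp 1 := by
  have hL' : (100 : ℝ) ≤ L := by exact_mod_cast hL
  have hI' : (I : ℝ) ≤ L := by exact_mod_cast hI
  have hk' : (k : ℝ) ≤ L := by exact_mod_cast hk
  have hLpos : (0 : ℝ) < L := by linarith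
  have hL3 : (0 : ℝ) < (L : ℝ) ^ 3 := by positivity
  -- the first summand
  have hA : 4 * ((L ^ 3 : ℕ) : ℝ) / ((L ^ 6 : ℕ) : ℝ) = 4 / (L : ℝ) ^ 3 := by
    push_cast
    field_simp
  -- the second summand
  have hB : ((2 : ℝ) ^ (L ^ 3))⁻¹ * Real.exp (65 * (k : ℝ) * 8) ≤ 1 / (L : ℝ) ^ 3 := by
    have h1 : Real.exp (65 * (k : ℝ) * 8) ≤ Real.exp (520 * L) := by
      apply Real.exp_le_exp.2
      linarith
    have h2 : (L : ℝ) ^ 3 ≤ Real.exp (3 * L) := by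
      have h3 : (L : ℝ) ≤ Real.exp L := by
        have := Real.add_one_le_exp (L : ℝ)
        linarith
      calc (L : ℝ) ^ 3 ≤ Real.exp L ^ 3 := pow_le_pow_left₀ hLpos.le h3 3
        _ = Real.exp (3 * L) := by
          rw [← Real.exp_nat_mul]
          norm_num
    have h3 : (L : ℝ) ^ 3 * Real.exp (65 * (k : ℝ) * 8) ≤ (2 : ℝ) ^ (L ^ 3) := by
      calc (L : ℝ) ^ 3 * Real.exp (65 * (k : ℝ) * 8)
          ≤ Real.exp (3 * L) * Real.exp (520 * L) :=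
            mul_le_mul h2 h1 (Real.exp_pos _).le (Real.exp_pos _).le
        _ = Real.exp (523 * L) := by
            rw [← Real.exp_add]
            congr 1
            ring
        _ ≤ Real.exp (((L ^ 3 : ℕ) : ℝ) / 2) := by
            apply Real.exp_le_exp.2
            push_cast
            have h4 : (1046 : ℝ) ≤ (L : ℝ) ^ 2 := by nlinarith
            have h5 : 1046 * (L : ℝ) ≤ (L : ℝ) ^ 2 * L := mul_le_mul_of_nonneg_right h4 hLpos.le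
            have h6 : (L : ℝ) ^ 3 = (L : ℝ) ^ 2 * L := by ring
            rw [h6]
            linarith
        _ ≤ (2 : ℝ) ^ (L ^ 3) := numX_two (L ^ 3)
    have h2p : (0 : ℝ) < (2 : ℝ) ^ (L ^ 3) := by positivity
    rw [le_div_iff₀ hL3, inv_mul_eq_div, div_mul_eq_mul_div, div_le_one h2p]
    linarith
  -- the third summand
  have hC : ∀ i : ℕ, ((4 : ℝ) ^ (400 + i))⁻¹ * Real.exp (64 * 8) ≤ (1 / 4) ^ 16 * (1 / 4) ^ i := by
    intro i
    have h1 : (0 : ℝ) < (4 : ℝ) ^ (400 + i) := by positivity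
    calc ((4 : ℝ) ^ (400 + i))⁻¹ * Real.exp (64 * 8)
        ≤ ((4 : ℝ) ^ (400 + i))⁻¹ * (4 : ℝ) ^ 384 :=
          mul_le_mul_of_nonneg_left numX_512 (inv_pos.2 h1).le
      _ = (1 / 4) ^ 16 * (1 / 4) ^ i := by
          have h2 : (4 : ℝ) ^ (400 + i) = (4 : ℝ) ^ 384 * ((4 : ℝ) ^ 16 * (4 : ℝ) ^ i) := by
            rw [← pow_add, ← pow_add]
            congr 1
            omega
          have h3 : (4 : ℝ) ^ 384 ≠ 0 := pow_ne_zero _ (by norm_num)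
          rw [h2, numX_alg _ _ _ h3, one_div, inv_pow, inv_pow]
  have hterm : ∀ i ∈ range I, (1 + 4 * ((L ^ 3 : ℕ) : ℝ) / ((L ^ 6 : ℕ) : ℝ) +
      ((2 : ℝ) ^ (L ^ 3))⁻¹ * Real.exp (65 * (k : ℝ) * 8) +
        ((4 : ℝ) ^ (400 + i))⁻¹ * Real.exp (64 * 8)) ≤
      Real.exp (5 / (L : ℝ) ^ 3 + (1 / 4) ^ 16 * (1 / 4) ^ i) := by
    intro i _
    have h1 := Real.add_one_le_exp (5 / (L : ℝ) ^ 3 + (1 / 4) ^ 16 * (1 / 4) ^ i)
    have h2 := hC i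
    have h3 : 5 / (L : ℝ) ^ 3 = 4 / (L : ℝ) ^ 3 + 1 / (L : ℝ) ^ 3 := by ring
    rw [hA]
    linarith
  refine (prod_le_prod (fun i _ => by positivity) hterm).trans ?_
  rw [← Real.exp_sum]
  apply Real.exp_le_exp.2
  rw [sum_add_distrib, sum_const, card_range, nsmul_eq_mul, ← mul_sum]
  have h1 := numX_geo I
  have h2 : (0 : ℝ) < (1 / 4) ^ I := by positivity
  have h3 : (I : ℝ) * (5 / (L : ℝ) ^ 3) ≤ 1 / 2 := by
    have h4 : (I : ℝ) * (5 / (L : ℝ) ^ 3) ≤ L * (5 / (L : ℝ) ^ 3) :=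
      mul_le_mul_of_nonneg_right hI' (by positivity)
    have h5 : (L : ℝ) * (5 / (L : ℝ) ^ 3) = 5 / (L : ℝ) ^ 2 := by
      field_simp
    have h6 : 5 / (L : ℝ) ^ 2 ≤ 1 / 2 := by
      rw [div_le_iff₀ (by positivity)]
      nlinarith
    linarith
  have h4 : (1 / 4 : ℝ) ^ 16 * ∑ i ∈ range I, (1 / 4 : ℝ) ^ i ≤ (1 / 4 : ℝ) ^ 16 * 2 :=
    mul_le_mul_of_nonneg_left (by linarith) (by positivity)
  have h5 : (1 / 4 : ℝ) ^ 16 * 2 ≤ 1 / 2 := by norm_num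
  linarith

end Pool.Agent.ES39
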