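import Mathlib

/-! ES39/ParX.  The parameters (Section 1 of es39.md): `λ = Nat.log 2 l`, `d = l / 20000`,
`g = 16 + G Λ`, `s = d / (100 g)`, `m1 = s / 2^g`, `N = d / m1` (all floors); `16 G Λ ≤ λ`.
`16000000 = 16 * 10^6`, `1604 = 4 * 400 + 4`.

With `u = λ / 4` and `T = 2 ^ u` one has `16000000 g 2^g ≤ T`, `T^4 ≤ l`, `T^3 ≤ m1`, `N ≤ T`. -/

set_option autoImplicit false

namespace Pool.Agent.ES39

/-- the numerical facts about the parameters -/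
structure PX (A0 N0 G Λ l L g s m1 d N : ℕ) : Prop where
  hg : g = 16 + G * Λ
  l100 : 100 ≤ l
  m_pos : 1 ≤ m1
  s_low : m1 * 2 ^ g ≤ s
  s_up : s ≤ m1 * 2 ^ (g + 1)
  l_le : l ≤ 16000000 * g * 2 ^ g * m1
  hN : N = d / m1
  l_le_d : l ≤ 40000 * d
  sd : 100 * g * s ≤ d
  sN0 : s * N0 ≤ l
  L6 : L ^ 6 ≤ 2 ^ m1
  logL : Nat.log 2 L + 1 ≤ 3 * A0 * Nat.log 2 l
  Glam : G * Nat.log 2 l ≤ m1
  Lam_le : Λ ≤ Nat.log 2 l
  off_le : (1 + (l : ℝ)) * (((l : ℝ) + 1) ^ (2 * N) * Real.exp (8 * ((g : ℝ) + 1)) / 2 ^ m1) ≤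
    1 / 8
  del_le : 16000000 * (g : ℝ) ^ 2 * 2 ^ g * (2 * (N : ℝ) / 2 ^ m1) ^ 2 ≤ 1 / 16
  wt1 : 16 * (1 + (l : ℝ)) * ((2 * ((2 : ℝ) ^ d) ^ 2 * (3 * 2 ^ (m1 * 1604)) ^ N) ^ 2 *
    2 ^ (m1 * 1604)) ≤ 2 ^ (l / 2)
  wt2 : 2 * (2 * ((2 : ℝ) ^ d) ^ 2 * (3 * 2 ^ (m1 * 1604)) ^ N) ^ 4 ≤ 2 ^ (l / 2)

/-- the parameters `g`, `s`, `m1`, `d`, `N`: integer inequalities -/
private theorem ParX_nat {l g T : ℕ} (hR : 16000000 * g * 2 ^ g ≤ T) (hT : 1 ≤ T) (hl : T ^ 4 ≤ l)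
    (hg : 16 ≤ g) {d s m1 N : ℕ} (hd : d = l / 20000) (hs : s = d / (100 * g)) (hm : m1 = s / 2 ^ g)
    (hN : N = d / m1) :
    1 ≤ m1 ∧ m1 * 2 ^ g ≤ s ∧ s ≤ m1 * 2 ^ (g + 1) ∧ l ≤ 16000000 * g * 2 ^ g * m1 ∧
      l ≤ 40000 * d ∧ 100 * g * s ≤ d ∧ T ^ 3 ≤ m1 ∧ N ≤ T ∧ N * m1 ≤ d ∧ m1 ≤ d ∧ 20000 * d ≤ l := by
  have hp2 : 2 ^ (g + 1) = 2 * 2 ^ g := by rw [pow_succ, mul_comm]
  rw [hp2]
  have hg2 : 1 ≤ 2 ^ g := Nat.one_le_two_pow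
  generalize 2 ^ g = P at *
  have hTl : T ≤ l := by
    calc T = T * 1 := (mul_one T).symm
      _ ≤ T * T ^ 3 := Nat.mul_le_mul_left _ (Nat.one_le_pow _ _ hT)
      _ = T ^ 4 := by ring
      _ ≤ l := hl
  have hd1 : d * 20000 ≤ l := by rw [hd]; exact Nat.div_mul_le_self _ _
  have hd2 : l < (d + 1) * 20000 := by
    rw [← Nat.div_lt_iff_lt_mul (by norm_num), ← hd]
    exact Nat.lt_succ_self _
  have hg100 : 0 < 100 * g := by omega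
  have hs1 : s * (100 * g) ≤ d := by rw [hs]; exact Nat.div_mul_le_self _ _
  have hs2 : d < (s + 1) * (100 * g) := by
    rw [← Nat.div_lt_iff_lt_mul hg100, ← hs]
    exact Nat.lt_succ_self _
  have hm1 : m1 * P ≤ s := by rw [hm]; exact Nat.div_mul_le_self _ _
  have hm2 : s < (m1 + 1) * P := by
    rw [← Nat.div_lt_iff_lt_mul hg2, ← hm]
    exact Nat.lt_succ_self _
  have hPs : P ≤ s := by
    rw [hs, Nat.le_div_iff_mul_le hg100, hd, Nat.le_div_iff_mul_le (by norm_num)]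
    calc P * (100 * g) * 20000 = 2000000 * (g * P) := by ring
      _ ≤ 16000000 * (g * P) := Nat.mul_le_mul_right _ (by norm_num)
      _ = 16000000 * g * P := by ring
      _ ≤ T := hR
      _ ≤ l := hTl
  have hs0 : 1 ≤ s := hg2.trans hPs
  have hm0 : 1 ≤ m1 := by
    rw [hm, Nat.le_div_iff_mul_le hg2, one_mul]
    exact hPs
  have hsd : s ≤ d := le_trans (Nat.le_mul_of_pos_right s hg100) hs1
  have hms : m1 ≤ s := le_trans (Nat.le_mul_of_pos_right m1 hg2) hm1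
  have hd0 : 1 ≤ d := hs0.trans hsd
  have hl1 : l ≤ 40000 * d := by omega
  have hsu : s ≤ m1 * (2 * P) := by
    have h1 : (m1 + 1) * P ≤ (2 * m1) * P := Nat.mul_le_mul_right _ (by omega)
    have h2 : (2 * m1) * P = m1 * (2 * P) := by ring
    omega
  have hds : d ≤ 200 * g * s := by
    have h1 : (s + 1) * (100 * g) ≤ (2 * s) * (100 * g) := Nat.mul_le_mul_right _ (by omega)
    have h2 : (2 * s) * (100 * g) = 200 * g * s := by ring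
    omega
  have hlR : l ≤ 16000000 * g * P * m1 := by
    calc l ≤ 40000 * d := hl1
      _ ≤ 40000 * (200 * g * s) := Nat.mul_le_mul_left _ hds
      _ = 8000000 * g * s := by ring
      _ ≤ 8000000 * g * (m1 * (2 * P)) := Nat.mul_le_mul_left _ hsu
      _ = 16000000 * g * P * m1 := by ring
  have hNm : N * m1 ≤ d := by rw [hN]; exact Nat.div_mul_le_self _ _
  have hlT : l ≤ T * m1 := hlR.trans (Nat.mul_le_mul_right _ hR)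
  refine ⟨hm0, hm1, hsu, hlR, hl1, ?_, ?_, ?_, hNm, hms.trans hsd, ?_⟩
  · rw [mul_comm]
    exact hs1
  · have h1 : T * T ^ 3 ≤ T * m1 := by
      calc T * T ^ 3 = T ^ 4 := by ring
        _ ≤ l := hl
        _ ≤ T * m1 := hlT
    exact Nat.le_of_mul_le_mul_left h1 hT
  · have h1 : N * m1 ≤ T * m1 := by
      refine hNm.trans (le_trans ?_ hlT)
      omega
    exact Nat.le_of_mul_le_mul_right h1 hm0
  · rw [mul_comm]
    exact hd1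

/-- the off-diagonal terms -/
private theorem ParX_off {l u N g m1 : ℕ} (hl : l + 1 ≤ 2 ^ (4 * u + 4))
    (h : 3 + (4 * u + 4) * (2 * N + 1) + 12 * (g + 1) ≤ m1) :
    (1 + (l : ℝ)) * (((l : ℝ) + 1) ^ (2 * N) * Real.exp (8 * ((g : ℝ) + 1)) / 2 ^ m1) ≤ 1 / 8 := by
  have hlr : (l : ℝ) + 1 ≤ 2 ^ (4 * u + 4) := by exact_mod_cast hl
  have hl0 : (0 : ℝ) ≤ (l : ℝ) + 1 := by positivity
  have h1 : ((l : ℝ) + 1) ^ (2 * N + 1) ≤ 2 ^ ((4 * u + 4) * (2 * N + 1)) := by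
    rw [pow_mul]
    exact pow_le_pow_left₀ hl0 hlr _
  have h2 : Real.exp (8 * ((g : ℝ) + 1)) ≤ 2 ^ (12 * (g + 1)) := by
    have e1 : Real.exp (8 * ((g : ℝ) + 1)) = Real.exp 1 ^ (8 * (g + 1)) := by
      rw [← Real.exp_nat_mul]
      push_cast
      congr 1
      ring
    have h3 : Real.exp 1 ^ 2 ≤ 8 := by
      have h4 := Real.exp_one_lt_d9
      have h5 := Real.exp_pos 1
      nlinarith
    rw [e1]
    have e2 : 8 * (g + 1) = 2 * (4 * (g + 1)) := by ring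
    have e3 : 12 * (g + 1) = 3 * (4 * (g + 1)) := by ring
    have h4 : (8 : ℝ) = 2 ^ 3 := by norm_num
    rw [h4] at h3
    rw [e2, e3, pow_mul (Real.exp 1) 2 (4 * (g + 1)), pow_mul (2 : ℝ) 3 (4 * (g + 1))]
    exact pow_le_pow_left₀ (by positivity) h3 _
  have h3 : (1 + (l : ℝ)) * (((l : ℝ) + 1) ^ (2 * N) * Real.exp (8 * ((g : ℝ) + 1)) / 2 ^ m1) =
      ((l : ℝ) + 1) ^ (2 * N + 1) * Real.exp (8 * ((g : ℝ) + 1)) / 2 ^ m1 := by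
    rw [pow_succ]
    ring
  rw [h3, div_le_iff₀ (by positivity)]
  have h4 : ((l : ℝ) + 1) ^ (2 * N + 1) * Real.exp (8 * ((g : ℝ) + 1)) ≤
      2 ^ ((4 * u + 4) * (2 * N + 1)) * 2 ^ (12 * (g + 1)) :=
    mul_le_mul h1 h2 (Real.exp_pos _).le (by positivity)
  have h5 : (2 : ℝ) ^ (3 + (4 * u + 4) * (2 * N + 1) + 12 * (g + 1)) ≤ 2 ^ m1 :=
    pow_le_pow_right₀ (by norm_num) h
  rw [pow_add, pow_add] at h5
  have h6 : (2 : ℝ) ^ 3 = 8 := by norm_num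
  rw [h6, mul_assoc] at h5
  linarith

private theorem ParX_del {g N T m1 : ℕ} (hR : 16000000 * g * 2 ^ g ≤ T) (hg : g ≤ T) (hN : N ≤ T)
    (hT : 8 ≤ T) (hm : T ^ 3 ≤ m1) :
    16000000 * (g : ℝ) ^ 2 * 2 ^ g * (2 * (N : ℝ) / 2 ^ m1) ^ 2 ≤ 1 / 16 := by
  have hX : (T : ℝ) ^ 3 ≤ 2 ^ m1 := by
    have h1 : T ^ 3 ≤ 2 ^ m1 := hm.trans Nat.lt_two_pow_self.le
    exact_mod_cast h1
  have hX0 : (0 : ℝ) < 2 ^ m1 := by positivity
  generalize (2 : ℝ) ^ m1 = X at *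
  have hR' : 16000000 * (g : ℝ) * 2 ^ g ≤ T := by exact_mod_cast hR
  have hg' : (g : ℝ) ≤ T := by exact_mod_cast hg
  have hN' : (N : ℝ) ≤ T := by exact_mod_cast hN
  have hT' : (8 : ℝ) ≤ T := by exact_mod_cast hT
  have hg0 : (0 : ℝ) ≤ g := Nat.cast_nonneg _
  have hN0 : (0 : ℝ) ≤ N := Nat.cast_nonneg _
  have e : 16000000 * (g : ℝ) ^ 2 * 2 ^ g * (2 * (N : ℝ) / X) ^ 2 =
      4 * ((16000000 * (g : ℝ) * 2 ^ g) * g * N ^ 2) / X ^ 2 := by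
    field_simp
    ring
  rw [e, div_le_iff₀ (by positivity)]
  have h1 : (16000000 * (g : ℝ) * 2 ^ g) * g ≤ T * T :=
    mul_le_mul hR' hg' hg0 (by linarith)
  have h2 : (N : ℝ) ^ 2 ≤ T ^ 2 := pow_le_pow_left₀ hN0 hN' 2
  have h3 : (16000000 * (g : ℝ) * 2 ^ g) * g * N ^ 2 ≤ T * T * T ^ 2 :=
    mul_le_mul h1 h2 (by positivity) (by positivity)
  have h4 : ((T : ℝ) ^ 3) ^ 2 ≤ X ^ 2 := pow_le_pow_left₀ (by positivity) hX 2
  have h5 : 64 * ((T : ℝ) * T * T ^ 2) ≤ ((T : ℝ) ^ 3) ^ 2 := by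
    have h6 : (64 : ℝ) ≤ T ^ 2 := by nlinarith
    calc 64 * ((T : ℝ) * T * T ^ 2) ≤ T ^ 2 * ((T : ℝ) * T * T ^ 2) :=
          mul_le_mul_of_nonneg_right h6 (by positivity)
      _ = ((T : ℝ) ^ 3) ^ 2 := by ring
  linarith

private theorem ParX_B {d m1 N : ℕ} (hNm : N * m1 ≤ d) :
    2 * ((2 : ℝ) ^ d) ^ 2 * (3 * 2 ^ (m1 * 1604)) ^ N ≤ 2 ^ (1 + 1606 * d + 2 * N) := by
  have h1 : (3 * (2 : ℝ) ^ (m1 * 1604)) ^ N ≤ 2 ^ (2 * N + 1604 * d) := by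
    have h2 : 3 * (2 : ℝ) ^ (m1 * 1604) ≤ 2 ^ (2 + m1 * 1604) := by
      rw [pow_add]
      exact mul_le_mul_of_nonneg_right (by norm_num) (by positivity)
    calc (3 * (2 : ℝ) ^ (m1 * 1604)) ^ N ≤ (2 ^ (2 + m1 * 1604)) ^ N :=
          pow_le_pow_left₀ (by positivity) h2 N
      _ = 2 ^ ((2 + m1 * 1604) * N) := (pow_mul _ _ _).symm
      _ ≤ 2 ^ (2 * N + 1604 * d) := by
          refine pow_le_pow_right₀ (by norm_num) ?_
          nlinarith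
  calc 2 * ((2 : ℝ) ^ d) ^ 2 * (3 * 2 ^ (m1 * 1604)) ^ N ≤
        2 * ((2 : ℝ) ^ d) ^ 2 * 2 ^ (2 * N + 1604 * d) :=
        mul_le_mul_of_nonneg_left h1 (by positivity)
    _ = 2 ^ (1 + 1606 * d + 2 * N) := by
        rw [← pow_mul]
        have e : 1 + 1606 * d + 2 * N = 1 + d * 2 + (2 * N + 1604 * d) := by ring
        rw [e, pow_add (2 : ℝ) (1 + d * 2), pow_add (2 : ℝ) 1 (d * 2), pow_one]

private theorem ParX_wt1 {l u d m1 N : ℕ} (hl : l + 1 ≤ 2 ^ (4 * u + 4)) (hNm : N * m1 ≤ d) (hmd : m1 ≤ d)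
    (h : 2 * (4816 * d + 4 * N + 4 * u + 10) ≤ l) :
    16 * (1 + (l : ℝ)) * ((2 * ((2 : ℝ) ^ d) ^ 2 * (3 * 2 ^ (m1 * 1604)) ^ N) ^ 2 *
      2 ^ (m1 * 1604)) ≤ 2 ^ (l / 2) := by
  have hlr : 1 + (l : ℝ) ≤ 2 ^ (4 * u + 4) := by
    have : (l : ℝ) + 1 ≤ 2 ^ (4 * u + 4) := by exact_mod_cast hl
    linarith
  have hB := ParX_B (d := d) (m1 := m1) (N := N) hNm
  have hB0 : 0 ≤ 2 * ((2 : ℝ) ^ d) ^ 2 * (3 * 2 ^ (m1 * 1604)) ^ N := by positivity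
  generalize 2 * ((2 : ℝ) ^ d) ^ 2 * (3 * 2 ^ (m1 * 1604)) ^ N = B at *
  have h1 : B ^ 2 ≤ (2 ^ (1 + 1606 * d + 2 * N)) ^ 2 := pow_le_pow_left₀ hB0 hB 2
  have h2 : (2 : ℝ) ^ (m1 * 1604) ≤ 2 ^ (1604 * d) := by
    refine pow_le_pow_right₀ (by norm_num) ?_
    omega
  have h3 : B ^ 2 * 2 ^ (m1 * 1604) ≤ (2 ^ (1 + 1606 * d + 2 * N)) ^ 2 * 2 ^ (1604 * d) :=
    mul_le_mul h1 h2 (by positivity) (by positivity)
  have h4 : 16 * (1 + (l : ℝ)) ≤ 2 ^ 4 * 2 ^ (4 * u + 4) := by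
    have : (2 : ℝ) ^ 4 = 16 := by norm_num
    rw [this]
    linarith
  calc 16 * (1 + (l : ℝ)) * (B ^ 2 * 2 ^ (m1 * 1604)) ≤
        (2 ^ 4 * 2 ^ (4 * u + 4)) * ((2 ^ (1 + 1606 * d + 2 * N)) ^ 2 * 2 ^ (1604 * d)) :=
        mul_le_mul h4 h3 (by positivity) (by positivity)
    _ = 2 ^ (4816 * d + 4 * N + 4 * u + 10) := by
        rw [← pow_mul, ← pow_add, ← pow_add, ← pow_add]
        congr 1
        ring
    _ ≤ 2 ^ (l / 2) := by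
        refine pow_le_pow_right₀ (by norm_num) ?_
        omega

private theorem ParX_wt2 {l d m1 N : ℕ} (hNm : N * m1 ≤ d) (h : 2 * (6424 * d + 8 * N + 5) ≤ l) :
    2 * (2 * ((2 : ℝ) ^ d) ^ 2 * (3 * 2 ^ (m1 * 1604)) ^ N) ^ 4 ≤ 2 ^ (l / 2) := by
  have hB := ParX_B (d := d) (m1 := m1) (N := N) hNm
  have hB0 : 0 ≤ 2 * ((2 : ℝ) ^ d) ^ 2 * (3 * 2 ^ (m1 * 1604)) ^ N := by positivity
  generalize 2 * ((2 : ℝ) ^ d) ^ 2 * (3 * 2 ^ (m1 * 1604)) ^ N = B at *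
  have h1 : B ^ 4 ≤ (2 ^ (1 + 1606 * d + 2 * N)) ^ 4 := pow_le_pow_left₀ hB0 hB 4
  calc 2 * B ^ 4 ≤ 2 * (2 ^ (1 + 1606 * d + 2 * N)) ^ 4 := by linarith
    _ = 2 ^ (6424 * d + 8 * N + 5) := by
        have e : 6424 * d + 8 * N + 5 = (1 + 1606 * d + 2 * N) * 4 + 1 := by ring
        rw [e, pow_succ (2 : ℝ) ((1 + 1606 * d + 2 * N) * 4), pow_mul (2 : ℝ) (1 + 1606 * d + 2 * N) 4, mul_comm]
    _ ≤ 2 ^ (l / 2) := by
        refine pow_le_pow_right₀ (by norm_num) ?_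
        omega

theorem parX (A0 N0 G : ℕ) (hA0 : 1 ≤ A0) (hG : 1 ≤ G) (hN0 : N0 ≤ G) :
    ∃ l0 : ℕ, ∀ l : ℕ, l0 ≤ l → ∀ L Λ : ℕ, l ≤ L → L ≤ l ^ A0 → 1 ≤ Λ →
      16 * G * Λ ≤ Nat.log 2 l → ∃ g s m1 d N : ℕ, PX A0 N0 G Λ l L g s m1 d N := by
  refine ⟨2 ^ (4 * (112 + 24 * A0 + 4 * G)), ?_⟩
  intro l hl L Λ hlL hLA hΛ h16
  have hl0 : l ≠ 0 := (lt_of_lt_of_le (by positivity) hl).ne'
  have h1 : 2 ^ Nat.log 2 l ≤ l := Nat.pow_log_le_self 2 hl0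
  have h2 : l < 2 ^ (Nat.log 2 l + 1) := Nat.lt_pow_succ_log_self (by norm_num) l
  have h3 : 4 * (112 + 24 * A0 + 4 * G) ≤ Nat.log 2 l := Nat.le_log_of_pow_le (by norm_num) hl
  obtain ⟨lam, hlam⟩ : ∃ lam, lam = Nat.log 2 l := ⟨_, rfl⟩
  rw [← hlam] at h1 h2 h3 h16
  obtain ⟨u, hu⟩ : ∃ u, u = lam / 4 := ⟨_, rfl⟩
  have hu1 : 4 * u ≤ lam := by omega
  have hu2 : lam ≤ 4 * u + 3 := by omega
  have hu3 : 112 + 24 * A0 + 4 * G ≤ u := by omega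
  obtain ⟨T, hT⟩ : ∃ T, T = 2 ^ u := ⟨_, rfl⟩
  have hTu : u + 1 ≤ T := by
    rw [hT]
    exact Nat.lt_two_pow_self
  have hT1 : 1 ≤ T := by omega
  have hT4 : T ^ 4 ≤ l := by
    rw [hT, ← pow_mul, mul_comm]
    exact le_trans (Nat.pow_le_pow_right (by norm_num) hu1) h1
  have hl4 : l + 1 ≤ 2 ^ (4 * u + 4) := by
    have h4 : l + 1 ≤ 2 ^ (lam + 1) := h2
    exact h4.trans (Nat.pow_le_pow_right (by norm_num) (by omega))
  obtain ⟨Z, hZ⟩ : ∃ Z, Z = G * Λ := ⟨_, rfl⟩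
  have h16' : 16 * Z ≤ lam := by
    rw [hZ, ← mul_assoc]
    exact h16
  have hGZ : G ≤ Z := by
    rw [hZ]
    exact Nat.le_mul_of_pos_right G hΛ
  have hΛZ : Λ ≤ Z := by
    rw [hZ]
    exact Nat.le_mul_of_pos_left Λ hG
  obtain ⟨g, hg⟩ : ∃ g, g = 16 + Z := ⟨_, rfl⟩
  have hg1 : 4 * g ≤ 64 + u := by omega
  have hR : 16000000 * g * 2 ^ g ≤ T := by
    have h4 : g ≤ 2 ^ g := Nat.lt_two_pow_self.le
    calc 16000000 * g * 2 ^ g ≤ 2 ^ 24 * 2 ^ g * 2 ^ g :=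
          Nat.mul_le_mul_right _ (Nat.mul_le_mul (by norm_num) h4)
      _ = 2 ^ (24 + 2 * g) := by
          rw [← pow_add, ← pow_add]
          congr 1
          ring
      _ ≤ T := by
          rw [hT]
          exact Nat.pow_le_pow_right (by norm_num) (by omega)
  obtain ⟨d, hd⟩ : ∃ d, d = l / 20000 := ⟨_, rfl⟩
  obtain ⟨s, hs⟩ : ∃ s, s = d / (100 * g) := ⟨_, rfl⟩
  obtain ⟨m1, hm⟩ : ∃ m1, m1 = s / 2 ^ g := ⟨_, rfl⟩
  obtain ⟨N, hN⟩ : ∃ N, N = d / m1 := ⟨_, rfl⟩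
  obtain ⟨f1, f2, f3, f4, f5, f6, f7, f8, f9, f10, f11⟩ :=
    ParX_nat hR hT1 hT4 (by omega) hd hs hm hN
  have hT100 : 112 + 24 * A0 + 4 * G ≤ T := by omega
  have hTT : (112 + 24 * A0 + 4 * G) * T ≤ T ^ 2 := by
    rw [pow_two]
    exact Nat.mul_le_mul_right _ hT100
  have hTTT : (112 + 24 * A0 + 4 * G) * T ^ 2 ≤ T ^ 3 := by
    calc (112 + 24 * A0 + 4 * G) * T ^ 2 ≤ T * T ^ 2 := Nat.mul_le_mul_right _ hT100
      _ = T ^ 3 := by ring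
  have hT34 : T ^ 3 ≤ T ^ 4 := Nat.pow_le_pow_right hT1 (by norm_num)
  have hTT3 : (112 + 24 * A0 + 4 * G) * T ≤ T ^ 3 :=
    hTT.trans (Nat.pow_le_pow_right hT1 (by norm_num))
  have hA0T : 0 ≤ 24 * A0 * T := Nat.zero_le _
  have hexp : (112 + 24 * A0 + 4 * G) * T = 112 * T + 24 * A0 * T + 4 * G * T := by ring
  have hgT : g ≤ T := by
    calc g ≤ 16000000 * g * 2 ^ g := by
          have h4 : 1 ≤ 2 ^ g := Nat.one_le_two_pow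
          calc g = g * 1 := (mul_one g).symm
            _ ≤ 16000000 * g * 2 ^ g := Nat.mul_le_mul (by omega) h4
      _ ≤ T := hR
  refine ⟨g, s, m1, d, N, ?_⟩
  refine ⟨by rw [hg, hZ], ?_, f1, f2, f3, f4, hN, f5, f6, ?_, ?_, ?_, ?_, ?_, ?_, ?_, ?_, ?_⟩
  · -- 100 ≤ l
    omega
  · -- s * N0 ≤ l
    have h4 : s * N0 ≤ s * g := Nat.mul_le_mul_left _ (by omega)
    have h5 : s * g ≤ 100 * g * s := by
      calc s * g = 1 * (g * s) := by ring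
        _ ≤ 100 * (g * s) := Nat.mul_le_mul_right _ (by norm_num)
        _ = 100 * g * s := by ring
    omega
  · -- L ^ 6 ≤ 2 ^ m1
    have h4 : l ≤ 2 ^ (4 * u + 4) := by omega
    calc L ^ 6 ≤ (l ^ A0) ^ 6 := Nat.pow_le_pow_left hLA 6
      _ ≤ ((2 ^ (4 * u + 4)) ^ A0) ^ 6 := Nat.pow_le_pow_left (Nat.pow_le_pow_left h4 A0) 6
      _ = 2 ^ (24 * A0 * (u + 1)) := by
          rw [← pow_mul, ← pow_mul]
          congr 1
          ring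
      _ ≤ 2 ^ m1 := by
          refine Nat.pow_le_pow_right (by norm_num) ?_
          have h5 : 24 * A0 * (u + 1) ≤ 24 * A0 * T := Nat.mul_le_mul_left _ hTu
          omega
  · -- log
    have h4 : L < 2 ^ (A0 * (lam + 1)) := by
      calc L ≤ l ^ A0 := hLA
        _ < (2 ^ (lam + 1)) ^ A0 := Nat.pow_lt_pow_left h2 (by omega)
        _ = 2 ^ (A0 * (lam + 1)) := by
            rw [← pow_mul]
            congr 1
            ring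
    have h5 : Nat.log 2 L < A0 * (lam + 1) := by
      refine Nat.log_lt_of_lt_pow (by omega) h4
    have h6 : A0 * (lam + 1) ≤ A0 * (3 * lam) := Nat.mul_le_mul_left _ (by omega)
    have h7 : A0 * (3 * lam) = 3 * A0 * lam := by ring
    rw [← hlam]
    omega
  · -- G * lam ≤ m1
    rw [← hlam]
    have h4 : G * lam ≤ G * (4 * T) := Nat.mul_le_mul_left _ (by omega)
    have h5 : G * (4 * T) = 4 * G * T := by ring
    omega
  · rw [← hlam]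
    omega
  · -- off_le
    refine ParX_off hl4 ?_
    have h4 : (4 * u + 4) * (2 * N + 1) ≤ (4 * T) * (2 * T + 1) :=
      Nat.mul_le_mul (by omega) (by omega)
    have h5 : (4 * T) * (2 * T + 1) = 8 * T ^ 2 + 4 * T := by ring
    have h6 : 112 * T ≤ T ^ 2 := by omega
    have h7 : 112 * T ^ 2 ≤ T ^ 3 := by
      refine le_trans ?_ hTTT
      exact Nat.mul_le_mul_right _ (by omega)
    omega
  · exact ParX_del hR hgT f8 (by omega) f7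
  · refine ParX_wt1 hl4 f9 f10 ?_
    omega
  · refine ParX_wt2 f9 ?_
    omega

end Pool.Agent.ES39
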