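import Pool.Agent.ES39.AbsX
import Pool.Agent.ES39.ChernX
import Pool.Agent.ES39.BrunX
import Pool.Agent.ES39.NumX
import Pool.Agent.ES39.BigS
import Pool.Agent.ES39.ParX
import Pool.Agent.VOID.V1B
import Pool.Agent.RS.Count
import Pool.Agent.RS.Wt

/-! ES39/CoreX.  The core proposition (assembly). -/

set_option autoImplicit false

open Finset Pool.Agent.RS Pool.Agent.VOID

namespace Pool.Agent.ES39

/-- `k V2` in terms of `l / m1` -/
private theorem corex_kV {k lam Λ l P V2 m1 A0 lL C1 C2 : ℝ} (hk0 : 0 ≤ k)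
    (hk : k * lam ≤ Λ * l) (hm : 1 ≤ m1) (hA0 : 0 ≤ A0)
    (hC1 : C1 = 36 * Real.exp 9 * A0 / Real.log 2) (hC2 : C2 = Real.exp 1 * C1)
    (hV2 : V2 = Real.exp 1 * P)
    (hV : P ≤ 12 * Real.exp 9 * lL / (m1 * Real.log 2)) (hlL : lL ≤ 3 * A0 * lam) :
    k * V2 ≤ C2 * (Λ * l / m1) := by
  have hl2 : 0 < Real.log 2 := Real.log_pos (by norm_num)
  have hm0 : 0 < m1 := by linarith
  have hE : 0 < Real.exp 9 := Real.exp_pos 9
  have hE1 : 0 < Real.exp 1 := Real.exp_pos 1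
  have h1 : P ≤ 12 * Real.exp 9 * (3 * A0 * lam) / (m1 * Real.log 2) := by
    refine hV.trans ?_
    apply div_le_div_of_nonneg_right _ (by positivity)
    exact mul_le_mul_of_nonneg_left hlL (by positivity)
  rw [hV2, hC2, hC1]
  calc k * (Real.exp 1 * P) = Real.exp 1 * (k * P) := by ring
    _ ≤ Real.exp 1 * (k * (12 * Real.exp 9 * (3 * A0 * lam) / (m1 * Real.log 2))) :=
        mul_le_mul_of_nonneg_left (mul_le_mul_of_nonneg_left h1 hk0) hE1.le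
    _ = Real.exp 1 * (36 * Real.exp 9 * A0 / Real.log 2) * ((k * lam) / m1) := by
        field_simp
        ring
    _ ≤ Real.exp 1 * (36 * Real.exp 9 * A0 / Real.log 2) * (Λ * l / m1) := by
        apply mul_le_mul_of_nonneg_left _ (by positivity)
        exact div_le_div_of_nonneg_right hk hm0.le

/-- `k V2 ≤ g R` -/
private theorem corex_kR {kV C2 G Λ l m1 g R : ℝ} (h : kV ≤ C2 * (Λ * l / m1)) (hm : 1 ≤ m1)
    (hl : l ≤ R * m1) (hC : C2 ≤ G) (hC0 : 0 ≤ C2) (hΛ : 0 ≤ Λ) (hg : G * Λ ≤ g)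
    (hR : 0 ≤ R) : kV ≤ g * R := by
  have hm0 : 0 < m1 := by linarith
  have h1 : l / m1 ≤ R := (div_le_iff₀ hm0).2 hl
  calc kV ≤ C2 * (Λ * l / m1) := h
    _ = (C2 * Λ) * (l / m1) := by ring
    _ ≤ (C2 * Λ) * R := mul_le_mul_of_nonneg_left h1 (by positivity)
    _ ≤ g * R := by
        apply mul_le_mul_of_nonneg_right _ hR
        exact (mul_le_mul_of_nonneg_right hC hΛ).trans hg

/-- the tail -/
private theorem corex_tail {kV C2 H G Λ l s m1 d g : ℝ} (hC20 : 0 ≤ C2)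
    (hm : 1 ≤ m1) (hs : 1 ≤ s) (hG : 1 ≤ G) (hΛ : 1 ≤ Λ) (hd : 0 ≤ d)
    (hkV : kV ≤ C2 * (Λ * l / m1)) (hkV0 : 0 ≤ kV)
    (hH : Real.exp (-9) * (G * Λ) / (8 * m1) ≤ H)
    (hG2 : 80000 * (16 * Real.exp 9 * C2 / Real.log 2) ≤ G)
    (hL : l ≤ 40000 * d) (hg : 0 < g) (hsd : 100 * g * s ≤ d) :
    ((2 : ℝ) ^ d / 2 ^ s) ^ (-(1 / (s * Real.log 2))) *
      Real.exp (kV * (2 / (H * (s * Real.log 2)))) ≤ Real.exp (1 - 50 * g) := by
  have hl2 : 0 < Real.log 2 := Real.log_pos (by norm_num)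
  have hs0 : 0 < s := by linarith
  have hm0 : 0 < m1 := by linarith
  have hG0 : 0 < G := by linarith
  have hΛ0 : 0 < Λ := by linarith
  have hH0 : 0 < H := lt_of_lt_of_le (by positivity) hH
  rw [← Real.rpow_sub (by norm_num : (0 : ℝ) < 2), ← Real.rpow_mul (by norm_num),
    Real.rpow_def_of_pos (by norm_num : (0 : ℝ) < 2), ← Real.exp_add]
  apply Real.exp_le_exp.2
  have e1 : Real.log 2 * ((d - s) * -(1 / (s * Real.log 2))) = 1 - d / s := by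
    field_simp
    ring
  rw [e1]
  have e3 : kV * (2 / (H * (s * Real.log 2))) ≤
      (C2 * (Λ * l / m1)) *
        (2 / ((Real.exp (-9) * (G * Λ) / (8 * m1)) * (s * Real.log 2))) := by
    apply mul_le_mul hkV _ (by positivity) (le_trans hkV0 hkV)
    apply div_le_div_of_nonneg_left (by norm_num) (by positivity)
    exact mul_le_mul_of_nonneg_right hH (by positivity)
  have e4 : (C2 * (Λ * l / m1)) *
        (2 / ((Real.exp (-9) * (G * Λ) / (8 * m1)) * (s * Real.log 2))) =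
      (16 * Real.exp 9 * C2 / Real.log 2) * l / (G * s) := by
    rw [Real.exp_neg]
    have := (Real.exp_pos 9).ne'
    field_simp
    ring
  have e5 : (16 * Real.exp 9 * C2 / Real.log 2) * l / (G * s) ≤
      (16 * Real.exp 9 * C2 / Real.log 2) * (40000 * d) / (G * s) := by
    apply div_le_div_of_nonneg_right _ (by positivity)
    exact mul_le_mul_of_nonneg_left hL (by positivity)
  have e6 : (16 * Real.exp 9 * C2 / Real.log 2) * (40000 * d) / (G * s) =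
      (80000 * (16 * Real.exp 9 * C2 / Real.log 2)) / G * (d / (2 * s)) := by
    field_simp
    ring
  have e7 : (80000 * (16 * Real.exp 9 * C2 / Real.log 2)) / G ≤ 1 := (div_le_one hG0).2 hG2
  have e8 : (80000 * (16 * Real.exp 9 * C2 / Real.log 2)) / G * (d / (2 * s)) ≤ d / (2 * s) :=
    mul_le_of_le_one_left (by positivity) e7
  have e9 : 50 * g ≤ d / (2 * s) := by
    rw [le_div_iff₀ (by positivity)]
    linarith
  have e10 : d / s = d / (2 * s) + d / (2 * s) := by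
    field_simp
    ring
  rw [e4] at e3
  rw [e6] at e5
  linarith

/-- a numerical inequality -/
private theorem corex_e17 : (16000000 : ℝ) ≤ Real.exp 17 := by
  have h1 : Real.exp 17 = Real.exp 1 ^ 17 := by
    rw [← Real.exp_nat_mul]
    norm_num
  rw [h1]
  have h2 : (2.7182818283 : ℝ) ^ 17 ≤ Real.exp 1 ^ 17 :=
    pow_le_pow_left₀ (by norm_num) Real.exp_one_gt_d9.le 17
  refine le_trans ?_ h2
  norm_num

private theorem corex_pow2 (g : ℕ) : (2 : ℝ) ^ g ≤ Real.exp g := by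
  have h1 : (2 : ℝ) ≤ Real.exp 1 := by
    have := Real.exp_one_gt_d9
    linarith
  calc (2 : ℝ) ^ g ≤ Real.exp 1 ^ g := pow_le_pow_left₀ (by norm_num) h1 g
    _ = Real.exp g := by rw [← Real.exp_nat_mul, mul_one]

/-- `16 * 10^6 g^2 2^g ≤ exp (3 g + 17)` -/
private theorem corex_gR (g : ℕ) :
    (g : ℝ) * (16000000 * g * 2 ^ g) ≤ Real.exp (3 * g + 17) := by
  have h1 : (g : ℝ) ≤ Real.exp g := by
    have := Real.add_one_le_exp (g : ℝ)
    linarith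
  have h0 : (0 : ℝ) ≤ g := Nat.cast_nonneg g
  have e : Real.exp (3 * g + 17) = Real.exp g * (Real.exp 17 * Real.exp g * Real.exp g) := by
    rw [← Real.exp_add, ← Real.exp_add, ← Real.exp_add]
    congr 1
    ring
  rw [e]
  have h2 := corex_e17
  have h3 := corex_pow2 g
  have hp : 0 ≤ Real.exp (g : ℝ) := (Real.exp_pos _).le
  apply mul_le_mul h1 _ (by positivity) hp
  apply mul_le_mul _ h3 (by positivity) (by positivity)
  exact mul_le_mul h2 h1 h0 (by positivity)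

/-- the final estimate -/
private theorem corex_fin {kV Ss : ℝ} {g : ℕ} (hg : 17 ≤ g) (hkV : kV ≤ g * (16000000 * g * 2 ^ g))
    (hSs : Ss ≤ 8 * ((g : ℝ) + 1)) :
    8 * Real.exp (kV * Real.exp (19 * Ss)) ≤ Real.exp (Real.exp (166 * g)) := by
  have hgr : (17 : ℝ) ≤ g := by exact_mod_cast hg
  have h1 : Real.exp (19 * Ss) ≤ Real.exp (152 * g + 152) :=
    Real.exp_le_exp.2 (by linarith)
  have h2 : kV * Real.exp (19 * Ss) ≤ Real.exp (165 * g) := by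
    calc kV * Real.exp (19 * Ss) ≤ Real.exp (3 * g + 17) * Real.exp (19 * Ss) :=
          mul_le_mul_of_nonneg_right (hkV.trans (corex_gR g)) (Real.exp_pos _).le
      _ ≤ Real.exp (3 * g + 17) * Real.exp (152 * g + 152) :=
          mul_le_mul_of_nonneg_left h1 (Real.exp_pos _).le
      _ = Real.exp ((3 * g + 17) + (152 * g + 152)) := (Real.exp_add _ _).symm
      _ ≤ Real.exp (165 * g) := Real.exp_le_exp.2 (by linarith)
  have h3 : (8 : ℝ) ≤ Real.exp 3 := by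
    have e : Real.exp 3 = Real.exp 1 ^ 3 := by
      rw [← Real.exp_nat_mul]
      norm_num
    rw [e]
    have := pow_le_pow_left₀ (by norm_num) Real.exp_one_gt_d9.le 3
    refine le_trans ?_ this
    norm_num
  have h4 : 3 + Real.exp (165 * g) ≤ Real.exp (166 * g) := by
    have e : Real.exp (166 * (g : ℝ)) = Real.exp (165 * g) * Real.exp g := by
      rw [← Real.exp_add]
      congr 1
      ring
    rw [e]
    have h5 := Real.add_one_le_exp (g : ℝ)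
    have h6 := Real.add_one_le_exp (165 * (g : ℝ))
    nlinarith
  calc 8 * Real.exp (kV * Real.exp (19 * Ss)) ≤ Real.exp 3 * Real.exp (Real.exp (165 * g)) :=
        mul_le_mul h3 (Real.exp_le_exp.2 h2) (Real.exp_pos _).le (Real.exp_pos _).le
    _ = Real.exp (3 + Real.exp (165 * g)) := (Real.exp_add _ _).symm
    _ ≤ _ := Real.exp_le_exp.2 h4

/-- `k V2 tau ≤ 1/16` -/
private theorem corex_tau {kV : ℝ} {g : ℕ} (hg : 17 ≤ g)
    (hkV : kV ≤ g * (16000000 * g * 2 ^ g)) : kV * Real.exp (1 - 50 * g) ≤ 1 / 16 := by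
  have hgr : (17 : ℝ) ≤ g := by exact_mod_cast hg
  have h1 : kV * Real.exp (1 - 50 * g) ≤ Real.exp (-3) := by
    calc kV * Real.exp (1 - 50 * g) ≤ Real.exp (3 * g + 17) * Real.exp (1 - 50 * g) :=
          mul_le_mul_of_nonneg_right (hkV.trans (corex_gR g)) (Real.exp_pos _).le
      _ = Real.exp ((3 * g + 17) + (1 - 50 * g)) := (Real.exp_add _ _).symm
      _ ≤ Real.exp (-3) := Real.exp_le_exp.2 (by linarith)
  refine h1.trans ?_
  have e : Real.exp 3 = Real.exp 1 ^ 3 := by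
    rw [← Real.exp_nat_mul]
    norm_num
  have h2 : (16 : ℝ) ≤ Real.exp 3 := by
    rw [e]
    have := pow_le_pow_left₀ (by norm_num) Real.exp_one_gt_d9.le 3
    refine le_trans ?_ this
    norm_num
  rw [Real.exp_neg, inv_eq_one_div]
  exact one_div_le_one_div_of_le (by norm_num) h2

private theorem corex_Hlog {G Λ m1 H l : ℝ} (hΛ : 1 ≤ Λ) (hm : 1 ≤ m1) (hG : 1 ≤ G)
    (hH : Real.exp (-9) * (G * Λ) / (8 * m1) ≤ H)
    (hG3 : 8 * Real.exp 9 / Real.log 2 ≤ G) (h1 : m1 * Real.log 2 ≤ l) : 1 ≤ H * l := by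
  have hl2 : 0 < Real.log 2 := Real.log_pos (by norm_num)
  have hm0 : 0 < m1 := by linarith
  have hG0 : 0 < G := by linarith
  have hΛ0 : 0 < Λ := by linarith
  have hHpos : 0 < H := lt_of_lt_of_le (by positivity) hH
  have h2 : (Real.exp (-9) * (G * Λ) / (8 * m1)) * (m1 * Real.log 2) ≤ H * l :=
    mul_le_mul hH h1 (by positivity) hHpos.le
  refine le_trans ?_ h2
  have h3 : (Real.exp (-9) * (G * Λ) / (8 * m1)) * (m1 * Real.log 2) =
      (G * Real.log 2 / (8 * Real.exp 9)) * Λ := by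
    rw [Real.exp_neg]
    field_simp
  rw [h3]
  have h6 : 1 ≤ G * Real.log 2 / (8 * Real.exp 9) := by
    rw [div_le_iff₀ hl2] at hG3
    rw [one_le_div (by positivity)]
    exact hG3
  exact one_le_mul_of_one_le_of_one_le h6 hΛ

/-- a set of large primes with small product is small -/
private theorem corex_card {ι : Type} [DecidableEq ι] {p : ι → ℕ} {m1 d : ℕ} (hm : 1 ≤ m1)
    (hp : ∀ i, 2 ^ m1 < p i) (S : Finset ι) (h : PP p S ≤ (2 : ℝ) ^ d) : S.card ≤ d / m1 := by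
  rw [Nat.le_div_iff_mul_le (by omega)]
  have h1 : ((2 : ℝ) ^ m1) ^ S.card ≤ PP p S := by
    unfold PP
    rw [← Finset.prod_const]
    exact Finset.prod_le_prod (fun _ _ => by positivity)
      (fun i _ => by exact_mod_cast (hp i).le)
  rw [← pow_mul] at h1
  have h2 : (2 : ℝ) ^ (m1 * S.card) ≤ 2 ^ d := h1.trans h
  have h3 := (pow_le_pow_iff_right₀ (by norm_num : (1 : ℝ) < 2)).1 h2
  rw [mul_comm]
  exact h3

/-- the off-diagonal bound -/
private theorem corex_off {k l P E z : ℝ} {N : ℕ} (hk : 0 ≤ k) (hkl : k ≤ l)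
    (hP0 : 0 ≤ P) (hP : P ≤ E) (hz : 0 < z)
    (h : (1 + l) * ((l + 1) ^ (2 * N) * E / z) ≤ 1 / 8) :
    (1 + k) * ((k + 1) ^ (2 * N) * P / z) ≤ 1 / 8 := by
  refine le_trans ?_ h
  have h1 : (k + 1) ^ (2 * N) ≤ (l + 1) ^ (2 * N) :=
    pow_le_pow_left₀ (by positivity) (by linarith) _
  have hl0 : 0 ≤ l := hk.trans hkl
  have h2 : (k + 1) ^ (2 * N) * P ≤ (l + 1) ^ (2 * N) * E :=
    mul_le_mul h1 hP hP0 (by positivity)
  exact mul_le_mul (by linarith) (div_le_div_of_nonneg_right h2 hz.le)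
    (div_nonneg (mul_nonneg (by positivity) hP0) hz.le) (by linarith)

private theorem corex_wt {k l X T Y : ℝ} (hkl : k ≤ l) (hX : 0 ≤ X)
    (h1 : 16 * (1 + l) * X ≤ Y) (h2 : Y ≤ T) : 16 * (1 + k) * X ≤ T := by
  have h3 : 16 * (1 + k) * X ≤ 16 * (1 + l) * X :=
    mul_le_mul_of_nonneg_right (by linarith) hX
  linarith

private theorem corex_kle {k lam Λ l : ℝ} (hk0 : 0 ≤ k) (hlam : Λ ≤ lam) (hΛ : 0 < Λ)
    (hk : k * lam ≤ Λ * l) : k ≤ l := by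
  have h1 : k * Λ ≤ Λ * l := (mul_le_mul_of_nonneg_left hlam hk0).trans hk
  have h2 : Λ * k ≤ Λ * l := by rw [mul_comm Λ k]; exact h1
  exact le_of_mul_le_mul_left h2 hΛ

private theorem corex_dl {d l m1 N : ℕ}
    (h : 2 * (2 * ((2 : ℝ) ^ d) ^ 2 * (3 * 2 ^ (m1 * 1604)) ^ N) ^ 4 ≤ 2 ^ (l / 2)) : d ≤ l := by
  have h1 : (1 : ℝ) ≤ 2 ^ d := one_le_pow₀ (by norm_num)
  have h2 : (1 : ℝ) ≤ 3 * 2 ^ (m1 * 1604) := by
    have : (1 : ℝ) ≤ 2 ^ (m1 * 1604) := one_le_pow₀ (by norm_num)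
    linarith
  have h3 : (1 : ℝ) ≤ (3 * 2 ^ (m1 * 1604)) ^ N := one_le_pow₀ h2
  have h4 : (2 : ℝ) ^ d ≤ 2 * ((2 : ℝ) ^ d) ^ 2 * (3 * 2 ^ (m1 * 1604)) ^ N := by
    have h5 : (2 : ℝ) ^ d ≤ 2 * ((2 : ℝ) ^ d) ^ 2 := by nlinarith
    exact h5.trans (le_mul_of_one_le_right (by positivity) h3)
  have h6 : (2 : ℝ) ^ d ≤ (2 * ((2 : ℝ) ^ d) ^ 2 * (3 * 2 ^ (m1 * 1604)) ^ N) ^ 4 :=
    h4.trans (le_self_pow₀ (h1.trans h4) (by norm_num))
  have h7 : (2 : ℝ) ^ d ≤ 2 ^ (l / 2) := by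
    have h8 : 0 ≤ (2 * ((2 : ℝ) ^ d) ^ 2 * (3 * 2 ^ (m1 * 1604)) ^ N) ^ 4 := by positivity
    linarith
  have h9 := (pow_le_pow_iff_right₀ (by norm_num : (1 : ℝ) < 2)).1 h7
  omega

open Classical in
private theorem corex_one {A0 N0 G Λ l L g s m1 d N : ℕ} (hG1 : 1 ≤ G) (hΛ1 : 1 ≤ Λ)
    (pl : PX A0 N0 G Λ l L g s m1 d N) (hlL : l ≤ L) {C1 C2 : ℝ}
    (hC1 : C1 = 36 * Real.exp 9 * A0 / Real.log 2) (hC2 : C2 = Real.exp 1 * C1)
    (hG2 : 80000 * (16 * Real.exp 9 * C2 / Real.log 2) ≤ G)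
    (hG3 : 8 * Real.exp 9 / Real.log 2 ≤ G) (hG4 : C2 ≤ G)
    {M : ℕ} {n0 : ℤ} {B : Finset ℤ} {T : ℕ}
    (hM : ∀ q : ℕ, q.Prime → L ^ 6 < q → Nat.Coprime M q) (hB : ∀ b ∈ B, |b| ≤ 2 ^ L)
    (hk : (B.card : ℝ) * (Nat.log 2 l : ℝ) ≤ (Λ : ℝ) * l) (hT : 2 ^ (l / 2) ≤ T) :
    (T : ℝ) ≤ Real.exp (Real.exp (166 * g)) *
      (((range T).filter (fun t : ℕ => ∀ b ∈ B, ∃ q : ℕ, q.Prime ∧
        q ^ N0 ≤ 2 ^ l ∧ (q : ℤ) ∣ n0 + M * (t : ℤ) - b)).card : ℝ) := by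
  have hl2 : 0 < Real.log 2 := Real.log_pos (by norm_num)
  have h2pow : ∀ n : ℕ, (0 : ℝ) < 2 ^ n := fun n => pow_pos two_pos n
  have hl100 := pl.l100
  have hlr : (100 : ℝ) ≤ l := by exact_mod_cast hl100
  have hL100 : 100 ≤ L := hl100.trans hlL
  have hm1 := pl.m_pos
  have hm1r : (1 : ℝ) ≤ m1 := by exact_mod_cast hm1
  have hg := pl.hg
  have hΛr : (1 : ℝ) ≤ Λ := by exact_mod_cast hΛ1
  have hGr : (1 : ℝ) ≤ G := by exact_mod_cast hG1
  have hg17 : 17 ≤ g := by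
    have : 1 ≤ G * Λ := Nat.one_le_iff_ne_zero.2 (Nat.mul_ne_zero (by omega) (by omega))
    omega
  have hgr : (g : ℝ) - 16 = G * Λ := by
    rw [hg]; push_cast; ring
  have hGΛg : (G : ℝ) * Λ ≤ g := by linarith
  have hk0 : (0 : ℝ) ≤ (B.card : ℝ) := Nat.cast_nonneg _
  have hlamΛ : (Λ : ℝ) ≤ (Nat.log 2 l : ℝ) := by exact_mod_cast pl.Lam_le
  have hklr : (B.card : ℝ) ≤ l := corex_kle hk0 hlamΛ (by linarith) hk
  have hkl : B.card ≤ l := by exact_mod_cast hklr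
  have hkL : B.card ≤ L := hkl.trans hlL
  have hC20 : 0 ≤ C2 := by
    rw [hC2, hC1]
    positivity
  have hsm : m1 ≤ s := le_trans (Nat.le_mul_of_pos_right m1 (by positivity)) pl.s_low
  have hs1 : 1 ≤ s := hm1.trans hsm
  have hs1r : (1 : ℝ) ≤ s := by exact_mod_cast hs1
  -- the large primes
  set Q := prz (2 ^ s) \ EB L m1 s B with hQ
  set p : {q // q ∈ Q} → ℕ := fun q => (q : ℕ) with hp
  set a : {b // b ∈ B} → ℤ := fun b => (b : ℤ) with ha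
  have hpm : ∀ i : {q // q ∈ Q}, (p i).Prime ∧ 2 ^ m1 < p i ∧ p i ≤ 2 ^ s ∧ L ^ 6 < p i ∧
      (∀ b ∈ B, ∀ b' ∈ B, b ≠ b' → ¬ (p i : ℤ) ∣ b - b') := fun i => big_mem i.2
  have hpp : ∀ i, (p i).Prime := fun i => (hpm i).1
  have hp2 : ∀ i, 2 ≤ p i := fun i => (hpp i).two_le
  have hinj : Function.Injective p := Subtype.val_injective
  set I := Nat.log 2 m1 with hI
  set Q1 := QV (Bk L m1 B) I with hQ1
  have hQ1pos : 0 < Q1 := by
    rw [hQ1]
    unfold QV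
    exact prod_pos fun i _ => prod_pos fun q hq => (bk_mem hq).1.pos
  have hcopP : ∀ n : ℕ, (∀ q : ℕ, q.Prime → L ^ 6 < q → q ≤ 2 ^ m1 → Nat.Coprime n q) →
      Nat.Coprime n Q1 := by
    intro n hnq
    rw [hQ1]
    unfold QV
    exact Nat.Coprime.prod_right fun i _ => Nat.Coprime.prod_right fun q hq =>
      hnq q (bk_mem hq).1 (bk_mem hq).2.1 (bk_mem hq).2.2.1
  have hy : Hy p Q1 a ((2 : ℝ) ^ m1) := by
    refine ⟨hp2, ?_, hQ1pos, ?_, ?_, h2pow _, ?_⟩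
    · intro i j hij
      exact (Nat.coprime_primes (hpp i) (hpp j)).2 fun h => hij (hinj h)
    · intro i
      refine (hcopP (p i) fun q hq _ hqm => ?_).symm
      refine (Nat.coprime_primes (hpp i) hq).2 fun h => ?_
      have := (hpm i).2.1
      omega
    · intro i j j' hjj
      exact (hpm i).2.2.2.2 j j.2 j' j'.2 fun h => hjj (Subtype.ext h)
    · intro i
      have h1 : 2 ^ m1 + 1 ≤ p i := (hpm i).2.1
      have h2 : ((2 : ℝ) ^ m1 + 1) ≤ (p i : ℝ) := by exact_mod_cast h1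
      linarith
  have hMQ : Nat.Coprime M (Q1 * ∏ i, p i) := by
    refine Nat.Coprime.mul_right (hcopP M fun q hq h1 _ => hM q hq h1) ?_
    exact Nat.Coprime.prod_right fun i _ => hM (p i) (hpp i) (hpm i).2.2.2.1
  -- the small sieve
  obtain ⟨V2, hV2⟩ : ∃ V2 : ℝ, V2 = Real.exp 1 * PiV (Bk L m1 B) I 1 := ⟨_, rfl⟩
  have hcard : (Fintype.card {b // b ∈ B} : ℝ) = B.card := by simp
  have hcardn : Fintype.card {b // b ∈ B} = B.card := by simp
  have hVle := V1_le (L := L) (by omega) hm1 hB hkL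
  have hlogLr : ((Nat.log 2 L : ℝ) + 1) ≤ 3 * A0 * (Nat.log 2 l : ℝ) := by
    exact_mod_cast pl.logL
  have hA0r : (0 : ℝ) ≤ A0 := Nat.cast_nonneg _
  have hkV : (B.card : ℝ) * V2 ≤ C2 * ((Λ : ℝ) * l / m1) :=
    corex_kV hk0 hk hm1r hA0r hC1 hC2 hV2 hVle hlogLr
  have hPi0 : 0 ≤ PiV (Bk L m1 B) I 1 :=
    prod_nonneg fun i _ => prod_nonneg fun q _ => le_max_left _ _
  have hV20 : 0 ≤ V2 := by
    rw [hV2]
    exact mul_nonneg (Real.exp_pos 1).le hPi0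
  have hkV0 : 0 ≤ (B.card : ℝ) * V2 := mul_nonneg hk0 hV20
  have hkR : (B.card : ℝ) * V2 ≤ (g : ℝ) * (16000000 * g * 2 ^ g) := by
    refine corex_kR hkV hm1r ?_ hG4 hC20 (by linarith) hGΛg (by positivity)
    exact_mod_cast pl.l_le
  have hV21 : V2 ≤ 1 := by
    have h1 : (1 : ℝ) * V2 ≤ C2 * ((Nat.log 2 l : ℝ) * 1 / m1) := by
      refine corex_kV (k := 1) (lam := (Nat.log 2 l : ℝ)) (Λ := (Nat.log 2 l : ℝ)) (l := 1)
        zero_le_one (by linarith) hm1r hA0r hC1 hC2 hV2 hVle hlogLr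
    rw [one_mul, mul_one] at h1
    have h2 : C2 * (Nat.log 2 l : ℝ) ≤ m1 := by
      have h3 : (G : ℝ) * (Nat.log 2 l : ℝ) ≤ m1 := by exact_mod_cast pl.Glam
      exact (mul_le_mul_of_nonneg_right hG4 (Nat.cast_nonneg _)).trans h3
    refine h1.trans ?_
    rw [mul_div_assoc', div_le_one (by linarith)]
    exact h2
  have hdl : d ≤ l := corex_dl pl.wt2
  have hIL : I ≤ L := by
    have h1 : I ≤ m1 := (Nat.log_le_self 2 m1)
    have h3 : s ≤ 100 * g * s := Nat.le_mul_of_pos_left s (by positivity)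
    have h4 := pl.sd
    omega
  have hL6 : 2 * (Fintype.card {b // b ∈ B} + 1) ≤ L ^ 6 := by
    rw [hcardn]
    have h1 : L ^ 2 ≤ L ^ 6 := Nat.pow_le_pow_right (by omega) (by norm_num)
    nlinarith
  have hM0 : 2 * L ^ 3 ≤ L ^ 6 := by
    have h1 : L ^ 6 = L ^ 3 * L ^ 3 := by ring
    have h2 : 2 ≤ L ^ 3 := by
      calc 2 ≤ L := by omega
        _ ≤ L ^ 3 := Nat.le_self_pow (by norm_num) L
    rw [h1]
    exact Nat.mul_le_mul_right _ h2
  have hss0 : SX (QV (Bk L m1 B) I) (psiV (Bk L m1 B) 400 I)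
      (∏ i ∈ range I, (((Bk L m1 B i).card : ℝ) + 1) ^ (2 * (400 + i))) V2 a := by
    refine brun_sx (κ := {b // b ∈ B}) (Bl := Bk L m1 B) (r := 400) (I := I)
      (cut := L ^ 6) (M0 := L ^ 3) (s0 := 8) (E := Real.exp 1)
      (fun i _ q hq => (bk_mem hq).1) (fun i _ i' _ h => bk_disj h)
      (fun i _ q hq j j' hjj => (bk_mem hq).2.2.2 j j.2 j' j'.2 fun h => hjj (Subtype.ext h))
      (fun i _ q hq => (bk_mem hq).2.1.le) hL6 hM0 (by norm_num)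
      (fun i hi => bk_sum hi) ?_ hV2.ge hV21
    exact brun_num hL100 hIL (by rw [hcardn]; exact hkL)
  have hWle : ∏ i ∈ range I, (((Bk L m1 B i).card : ℝ) + 1) ^ (2 * (400 + i)) ≤
      2 ^ (m1 * 1604) := bk_card L m1 B 400
  have hss : SX Q1 (psiV (Bk L m1 B) 400 I) ((2 : ℝ) ^ (m1 * 1604)) V2 a :=
    { hss0 with
      rep := hss0.rep.mono hWle
      one_le_W := one_le_pow₀ (by norm_num) }
  -- the weights
  have hH := big_H1 (L := L) (m1 := m1) (s := s) (g := g) (by omega) hm1 pl.L6 hB hkL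
    (by omega) pl.s_low
  set H := H1 p ((2 : ℝ) ^ s) with hHdef
  rw [hgr] at hH
  have hHpos : 0 < H := lt_of_lt_of_le (by positivity) hH
  have hHlog : ∀ i, 1 ≤ H * Real.log (p i) := by
    intro i
    have h1 : (m1 : ℝ) * Real.log 2 ≤ Real.log (p i) := by
      rw [← Real.log_pow]
      apply Real.log_le_log (h2pow _)
      exact_mod_cast (hpm i).2.1.le
    exact corex_Hlog hΛr hm1r hGr hH hG3 h1
  have hS1 : (1 : ℝ) < 2 ^ s := one_lt_pow₀ (by norm_num) (by omega)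
  have hlogS : Real.log ((2 : ℝ) ^ s) = s * Real.log 2 := Real.log_pow _ _
  have hsl : 0 < (s : ℝ) * Real.log 2 := mul_pos (lt_of_lt_of_le one_pos hs1r) hl2
  have hlS1 : 0 ≤ 1 / ((s : ℝ) * Real.log 2) := (one_div_pos.2 hsl).le
  have hlS2 : 0 ≤ 2 / (H * ((s : ℝ) * Real.log 2)) :=
    (div_pos two_pos (mul_pos hHpos hsl)).le
  have hD : (1 : ℝ) ≤ 2 ^ d := one_le_pow₀ (by norm_num)
  have hN : ∀ S : Finset {q // q ∈ Q}, PP p S ≤ (2 : ℝ) ^ d → S.card ≤ N := by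
    intro S hS
    rw [pl.hN]
    exact corex_card hm1 (fun i => (hpm i).2.1) S hS
  have hwy1 := wt_abs (S1 := (2 : ℝ) ^ s) hp2 hHlog
  have hprod := big_prodX (L := L) (m1 := m1) (s := s) (g := g) hm1 B pl.s_up
  have hsum := big_sum (L := L) (m1 := m1) (s := s) (g := g) hm1 B pl.s_up
  have hP0 : 0 ≤ ∏ i, (1 + 1 / ((p i : ℝ) - 1)) := prod_nonneg fun i _ => by
    have h1 : (2 : ℝ) ≤ p i := by exact_mod_cast hp2 i
    have h2 : (0 : ℝ) < (p i : ℝ) - 1 := by linarith only [h1]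
    exact add_nonneg zero_le_one (one_div_pos.2 h2).le
  set τ : ℝ := Real.exp (1 - 50 * (g : ℝ)) with hτ
  have hτ0 : 0 ≤ τ := (Real.exp_pos _).le
  set δ : ℝ := 2 * (N : ℝ) / 2 ^ m1 with hδ
  have hsd0 : (2 : ℝ) ^ d / 2 ^ s ≤ 2 ^ d := div_le_self (h2pow d).le hS1.le
  have hcount := count_le (κ := {b // b ∈ B}) hp2
    (by rw [hcard]; exact big_sq (by omega) hkL) (D := (2 : ℝ) ^ d) (h2pow d).le
  have hTr : ((2 : ℝ) ^ (l / 2)) ≤ T := by exact_mod_cast hT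
  have hT0 : 0 < T := lt_of_lt_of_le (by positivity) hT
  have hres := absX (D := (2 : ℝ) ^ d) (D2 := (2 : ℝ) ^ d / 2 ^ s) (y := wt p ((2 : ℝ) ^ s))
    (δ := δ) (τ := τ) (C := 2 * ((2 : ℝ) ^ d) ^ 2) (n0 := n0) (T := T)
    hy hMQ hss hD hN (wt_empty p _) hwy1 (cc_wt_abs hp2 hHpos) ?_ ?_ hcount hT0
    ?_ ?_ ?_ ?_
  · refine hres.trans ?_
    have hfin := corex_fin hg17 hkR hsum
    rw [← hcard] at hfin
    have hsub : (range T).filter (fun t : ℕ => ∀ j : {b // b ∈ B},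
        psiV (Bk L m1 B) 400 I (n0 + M * (t : ℤ) - a j) ≠ 1 ∨
          ∃ i, (p i : ℤ) ∣ n0 + M * (t : ℤ) - a j) ⊆
        (range T).filter (fun t : ℕ => ∀ b ∈ B, ∃ q : ℕ, q.Prime ∧
          q ^ N0 ≤ 2 ^ l ∧ (q : ℤ) ∣ n0 + M * (t : ℤ) - b) := by
      intro t ht
      rw [mem_filter] at ht ⊢
      refine ⟨ht.1, fun b hb => ?_⟩
      have hpow : ∀ q : ℕ, q ≤ 2 ^ s → q ^ N0 ≤ 2 ^ l := by
        intro q hq
        calc q ^ N0 ≤ (2 ^ s) ^ N0 := Nat.pow_le_pow_left hq N0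
          _ = 2 ^ (s * N0) := (pow_mul 2 s N0).symm
          _ ≤ 2 ^ l := Nat.pow_le_pow_right (by norm_num) pl.sN0
      rcases ht.2 ⟨b, hb⟩ with h | ⟨i, hi⟩
      · by_contra hcon
        push Not at hcon
        apply h
        apply psiV_one
        intro i hi q hq hdvd
        have h1 := bk_mem hq
        exact hcon q h1.1 (hpow q (h1.2.2.1.trans
          (Nat.pow_le_pow_right (by norm_num) hsm))) hdvd
      · exact ⟨p i, hpp i, hpow _ (hpm i).2.2.1, hi⟩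
    have hcc : (((range T).filter (fun t : ℕ => ∀ j : {b // b ∈ B},
        psiV (Bk L m1 B) 400 I (n0 + M * (t : ℤ) - a j) ≠ 1 ∨
          ∃ i, (p i : ℤ) ∣ n0 + M * (t : ℤ) - a j)).card : ℝ) ≤
        (((range T).filter (fun t : ℕ => ∀ b ∈ B, ∃ q : ℕ, q.Prime ∧
          q ^ N0 ≤ 2 ^ l ∧ (q : ℤ) ∣ n0 + M * (t : ℤ) - b)).card : ℝ) := by
      exact_mod_cast card_le_card hsub
    exact mul_le_mul hfin hcc (Nat.cast_nonneg _) (Real.exp_pos _).le
  · -- `cc` is small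
    intro U hU
    have hU1 : PP p U * (2 : ℝ) ^ s ≤ 2 ^ d := by
      rwa [le_div_iff₀ (h2pow s)] at hU
    refine (cc_wt_small hp2 hHpos hHlog U hU1).trans ?_
    have h1 : ∑ i ∈ U, 2 / ((p i : ℝ) - 1) ≤ ∑ _i ∈ U, 2 / (2 : ℝ) ^ m1 := by
      refine sum_le_sum fun i _ => ?_
      exact div_le_div_of_nonneg_left zero_le_two (h2pow m1) (hy.zle i)
    refine h1.trans ?_
    rw [sum_const, nsmul_eq_mul, hδ]
    have h2 : (U.card : ℝ) ≤ N := by
      exact_mod_cast hN U (hU.trans hsd0)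
    rw [mul_div_assoc', mul_comm (U.card : ℝ) 2]
    apply div_le_div_of_nonneg_right _ (h2pow m1).le
    linarith only [h2]
  · -- the tail
    have htl := tailX (κ := {b // b ∈ B}) hp2 (wt p ((2 : ℝ) ^ s)) (wt_empty p _)
      (D := (2 : ℝ) ^ d) (D2 := (2 : ℝ) ^ d / 2 ^ s) (lam := 1 / Real.log ((2 : ℝ) ^ s))
      (θ := 2 / (H * Real.log ((2 : ℝ) ^ s))) (V1 := V2) (div_pos (h2pow d) (h2pow s))
      (by rw [hlogS]; exact hlS1) (by rw [hlogS]; exact hlS2)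
      (wt_theta hp2 hS1 hHpos) (Me Q1 (psiV (Bk L m1 B) 400 I) a 2) (hss.Me_nonneg 2)
      hV20 hss.step2
    refine htl.trans ?_
    have hZZ0 : 0 ≤ ZX p (wt p ((2 : ℝ) ^ s)) ((2 : ℝ) ^ d)
        (Me Q1 (psiV (Bk L m1 B) 400 I) a 2) := by
      have := ZX_ge_one (κ := {b // b ∈ B}) p (wt p ((2 : ℝ) ^ s)) hp2 (wt_empty p _) hD
        (hss.Me_nonneg 2) (Me_empty hQ1pos 2)
      linarith
    apply mul_le_mul_of_nonneg_right _ hZZ0
    rw [hlogS, hcard]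
    have hsdr : 100 * (g : ℝ) * s ≤ d := by exact_mod_cast pl.sd
    have hLd : (l : ℝ) ≤ 40000 * d := by exact_mod_cast pl.l_le_d
    have h1 := corex_tail (kV := (B.card : ℝ) * V2) (H := H) (G := G) (Λ := Λ) (l := l)
      (s := s) (m1 := m1) (d := d) (g := g) hC20 hm1r hs1r hGr hΛr (Nat.cast_nonneg d) hkV hkV0
      hH hG2 hLd (by positivity) hsdr
    rw [Real.rpow_natCast, Real.rpow_natCast] at h1
    refine le_trans (le_of_eq ?_) h1
    congr 2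
    ring
  · -- `h1`
    rw [hcard]
    have h3 := corex_tau hg17 hkR
    have h4 : (B.card : ℝ) * V2 * δ ^ 2 ≤ 1 / 16 := by
      refine le_trans ?_ pl.del_le
      have h5 : (g : ℝ) * (16000000 * g * 2 ^ g) = 16000000 * (g : ℝ) ^ 2 * 2 ^ g := by ring
      rw [← h5]
      exact mul_le_mul_of_nonneg_right hkR (sq_nonneg _)
    have h5 : (B.card : ℝ) * V2 * (δ ^ 2 + τ) =
        (B.card : ℝ) * V2 * δ ^ 2 + (B.card : ℝ) * V2 * τ := by ring
    rw [h5]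
    linarith
  · -- `h3`
    rw [hcard]
    unfold offB
    rw [hcard]
    exact corex_off hk0 hklr hP0 hprod (h2pow m1) pl.off_le
  · -- `h4`
    rw [hcard]
    exact corex_wt hklr (mul_nonneg (sq_nonneg _) (h2pow _).le) pl.wt1 hTr
  · -- `h5`
    exact pl.wt2.trans hTr

open Classical in
/-- the core proposition (`G1`, `B1` natural numbers) -/
theorem coreX (A0 N0 : ℕ) (hA0 : 1 ≤ A0) :
    ∃ G1 B1 l1 : ℕ, 1 ≤ G1 ∧
    ∀ l : ℕ, l1 ≤ l → ∀ Λ : ℕ, 1 ≤ Λ → 16 * G1 * Λ ≤ Nat.log 2 l →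
      ∀ (M : ℕ) (n0 : ℤ) (B : Finset ℤ) (T : ℕ), 0 < M →
      (∀ q : ℕ, q.Prime → (l ^ A0) ^ 6 < q → Nat.Coprime M q) →
      (∀ b ∈ B, |b| ≤ 2 ^ (l ^ A0)) →
      (B.card : ℝ) * (Nat.log 2 l : ℝ) ≤ (Λ : ℝ) * l → 2 ^ (l / 2) ≤ T →
      (T : ℝ) ≤ Real.exp (Real.exp ((B1 : ℝ) * Λ)) *
        (((range T).filter (fun t : ℕ => ∀ b ∈ B, ∃ q : ℕ, q.Prime ∧
          q ^ N0 ≤ 2 ^ l ∧ (q : ℤ) ∣ n0 + M * (t : ℤ) - b)).card : ℝ) := by
  obtain ⟨C1, hC1⟩ : ∃ C1 : ℝ, C1 = 36 * Real.exp 9 * A0 / Real.log 2 := ⟨_, rfl⟩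
  obtain ⟨C2, hC2⟩ : ∃ C2 : ℝ, C2 = Real.exp 1 * C1 := ⟨_, rfl⟩
  obtain ⟨G0, hG0⟩ := exists_nat_ge (max (80000 * (16 * Real.exp 9 * C2 / Real.log 2))
    (max (8 * Real.exp 9 / Real.log 2) C2))
  obtain ⟨G, hG⟩ : ∃ G : ℕ, G = G0 + N0 + 1 := ⟨_, rfl⟩
  have hGG : (G0 : ℝ) ≤ G := by
    rw [hG]
    push_cast
    have : (0 : ℝ) ≤ N0 := Nat.cast_nonneg _
    linarith
  have hG1 : 1 ≤ G := by omega
  obtain ⟨l0, hl0⟩ := parX A0 N0 G hA0 hG1 (by omega)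
  refine ⟨G, 166 * (16 + G), l0 + 1, hG1, ?_⟩
  intro l hl Λ hΛ hlam M n0 B T _ hM hB hk hT
  have hlL : l ≤ l ^ A0 := Nat.le_self_pow (by omega) l
  obtain ⟨g, s, m1, d, N, pl⟩ := hl0 l (by omega) (l ^ A0) Λ hlL le_rfl hΛ hlam
  have h := corex_one hG1 hΛ pl hlL hC1 hC2
    (((le_max_left _ _).trans hG0).trans hGG)
    ((((le_max_left _ _).trans (le_max_right _ _)).trans hG0).trans hGG)
    ((((le_max_right _ _).trans (le_max_right _ _)).trans hG0).trans hGG) (n0 := n0) hM hB hk hT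
  refine h.trans ?_
  apply mul_le_mul_of_nonneg_right _ (Nat.cast_nonneg _)
  apply Real.exp_le_exp.2
  apply Real.exp_le_exp.2
  rw [pl.hg]
  push_cast
  have h1 : (1 : ℝ) ≤ Λ := by exact_mod_cast hΛ
  have h2 : (0 : ℝ) ≤ G := Nat.cast_nonneg _
  nlinarith

end Pool.Agent.ES39
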