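import Pool.Agent.Results.MP_0ec542_nt.ExceptionalSet

/-! ES39/ImpSC.  The hand-in ExceptionalSet implies the former hand-in SparseComplements. -/

set_option autoImplicit false

namespace Pool.Agent.ES39.ImpSC

open Finset Filter

def TwinIndex (q : ℕ) : Prop := q.Prime ∧ (Nat.nth Nat.Prime (q + 1) + 2).Prime

def Witness (n q : ℕ) : Prop := TwinIndex q ∧ ∃ r : ℕ, r.Prime ∧ q + r = 2 * n

open Classical in
noncomputable def T (S : Finset ℕ) (a : ℕ → ℕ) (R : ℕ) : ℕ :=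
  ((Finset.Icc 1 R).filter (fun q => TwinIndex q ∧ ∀ ℓ ∈ S, ¬ q ≡ a ℓ [MOD ℓ])).card

open Classical in
noncomputable def unwitnessed (x R : ℕ) : ℕ :=
  ((Finset.Icc 3 x).filter (fun n => ∀ q ≤ R, ¬ Witness n q)).card

open Classical in
noncomputable def notSum (A : Set ℕ) (x : ℕ) : ℕ :=
  ((Finset.Icc 1 x).filter (fun n => ∀ a ∈ A, ∀ r : ℕ, r.Prime → a + r ≠ n)).card

theorem coprime_two (S : Finset ℕ) (hS : ∀ ℓ ∈ S, ℓ.Prime ∧ ℓ ≠ 2) :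
    Nat.Coprime 2 (∏ ℓ ∈ S, ℓ) := by
  refine Nat.Coprime.prod_right fun ℓ hℓ => ?_
  exact (Nat.coprime_primes Nat.prime_two (hS ℓ hℓ).1).2 (fun h => (hS ℓ hℓ).2 h.symm)

/-- `2 b ≡ a ℓ mod ℓ` for all `ℓ ∈ S` -/
theorem exists_residue (S : Finset ℕ) (hS : ∀ ℓ ∈ S, ℓ.Prime ∧ ℓ ≠ 2) (a : ℕ → ℕ) :
    ∃ b : ℕ, ∀ ℓ ∈ S, 2 * b ≡ a ℓ [MOD ℓ] := by
  have hcop : Set.Pairwise (↑S : Set ℕ) (Function.onFun Nat.Coprime (id : ℕ → ℕ)) := by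
    intro i hi j hj hij
    exact (Nat.coprime_primes (hS i hi).1 (hS j hj).1).2 hij
  obtain ⟨k, hk⟩ := Nat.chineseRemainderOfFinset (fun ℓ => a ℓ) (id : ℕ → ℕ) S
      (fun i hi => (hS i hi).1.ne_zero) hcop
  obtain ⟨s, hs1, hs2⟩ := Nat.chineseRemainder (coprime_two S hS) 0 k
  have hs3 : s % 2 = 0 := hs1
  refine ⟨s / 2, fun ℓ hℓ => ?_⟩
  rw [show 2 * (s / 2) = s by omega]
  exact (hs2.of_dvd (Finset.dvd_prod_of_mem _ hℓ)).trans (hk ℓ hℓ)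

open Results.MP_0ec542_nt in
theorem T_le (S : Finset ℕ) (hS : ∀ ℓ ∈ S, ℓ.Prime ∧ ℓ ≠ 2) (a : ℕ → ℕ) {b : ℕ}
    (hb : ∀ ℓ ∈ S, 2 * b ≡ a ℓ [MOD ℓ]) (R : ℕ) :
    ExceptionalSet.T (∏ ℓ ∈ S, ℓ) b R ≤ T S a R := by
  classical
  unfold T ExceptionalSet.T
  apply card_le_card
  intro q hq
  rw [mem_filter] at hq
  rw [mem_filter]
  refine ⟨hq.1, hq.2.1, fun ℓ hℓ hqa => ?_⟩
  have h1 : (ℓ : ℤ) ∣ ((2 * b : ℕ) : ℤ) - (q : ℤ) :=
    (Nat.modEq_iff_dvd).1 (hqa.trans (hb ℓ hℓ).symm)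
  have h2 : (ℓ : ℤ) ∣ ((∏ ℓ ∈ S, ℓ : ℕ) : ℤ) :=
    Int.natCast_dvd_natCast.2 (dvd_prod_of_mem (fun ℓ => ℓ) hℓ)
  push_cast at h1
  have h3 : ℓ ∣ Int.gcd (2 * b - q) ((∏ ℓ ∈ S, ℓ : ℕ) : ℤ) := Int.dvd_gcd h1 h2
  rw [hq.2.2] at h3
  exact (hS ℓ hℓ).1.one_lt.ne' (Nat.dvd_one.1 h3)

open Results.MP_0ec542_nt in
theorem unw_le (W b x R : ℕ) : ExceptionalSet.unwitnessed W b ((x : ℝ) ^ (1 : ℝ)) 0 x R ≤
    unwitnessed x R := by
  classical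
  unfold unwitnessed ExceptionalSet.unwitnessed
  apply card_le_card
  intro n hn
  rw [mem_filter, mem_Ioc] at hn
  rw [mem_filter, mem_Icc]
  refine ⟨by omega, fun q hq hw => hn.2.2.2 q hq ?_⟩
  obtain ⟨h1, r, hr, hqr⟩ := hw
  exact ⟨h1, r, ExceptionalSet.rough_prime _ hr, hqr⟩

open Results.MP_0ec542_nt in
theorem notSum_le (x : ℕ) (A : Set ℕ) : ExceptionalSet.notSum A 1 0 ((x : ℝ) ^ (1 : ℝ)) 0 x ≤
    notSum A x := by
  classical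
  unfold notSum ExceptionalSet.notSum
  apply card_le_card
  intro n hn
  rw [mem_filter, mem_Ioc] at hn
  rw [mem_filter, mem_Icc]
  exact ⟨by omega, fun a ha r hr =>
    hn.2.2 a ha r (ExceptionalSet.rough_prime _ hr) (Nat.coprime_one_right r)⟩

open Results.MP_0ec542_nt in
theorem K_eq (A : Set ℕ) (x : ℕ) : ExceptionalSet.K A 1 0 x = (A ∩ Set.Icc 1 x).ncard := by
  unfold ExceptionalSet.K
  congr 1
  ext a
  simp

theorem aux {C Λ x K v : ℝ} (hC : 0 < C) (hx : 0 ≤ x) (hlog : 0 < Real.log x)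
    (hK : K ≤ Λ * Real.log x) (h : x * Real.exp (-Real.exp (C * (1 + K / Real.log x))) ≤ v) :
    Real.exp (-Real.exp (C * (1 + |Λ|))) * x ≤ v := by
  refine le_trans ?_ h
  rw [mul_comm]
  apply mul_le_mul_of_nonneg_left _ hx
  apply Real.exp_le_exp.2
  apply neg_le_neg
  apply Real.exp_le_exp.2
  apply mul_le_mul_of_nonneg_left _ hC.le
  have h1 : K / Real.log x ≤ Λ := by rwa [div_le_iff₀ hlog]
  linarith [le_abs_self Λ]

theorem aux2 {c : ℝ} (hc : 0 < c) (Λ : ℝ) : ∀ᶠ x : ℕ in atTop, 0 < Real.log x ∧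
    ∀ K : ℝ, K ≤ Λ * Real.log x → K ≤ c * Real.log x * Real.log (Real.log x) := by
  have hlog := Real.tendsto_log_atTop.comp (tendsto_natCast_atTop_atTop (R := ℝ))
  have hloglog := Real.tendsto_log_atTop.comp hlog
  filter_upwards [hlog.eventually_ge_atTop 1, hloglog.eventually_ge_atTop (|Λ| / c)] with x h1 h2
  simp only [Function.comp] at h1 h2
  refine ⟨by linarith, fun K hK => ?_⟩
  rw [div_le_iff₀ hc] at h2
  have h3 : Λ ≤ Real.log (Real.log x) * c := (le_abs_self Λ).trans h2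
  nlinarith

open Results.MP_0ec542_nt in
theorem result (Λ : ℝ) :
    (∀ S : Finset ℕ, (∀ ℓ ∈ S, ℓ.Prime ∧ ℓ ≠ 2) →
      ∃ c : ℝ, 0 < c ∧ ∀ᶠ x : ℕ in atTop, ∀ (a : ℕ → ℕ) (R : ℕ),
        (T S a R : ℝ) ≤ Λ * Real.log x → c * x ≤ unwitnessed x R) ∧
    (∃ c : ℝ, 0 < c ∧ ∀ᶠ x : ℕ in atTop, ∀ A : Set ℕ,
      ((A ∩ Set.Icc 1 x).ncard : ℝ) ≤ Λ * Real.log x → c * x ≤ notSum A x) := by
  constructor
  · intro S hS
    have hW : 1 ≤ ∏ ℓ ∈ S, ℓ := prod_pos fun ℓ hℓ => (hS ℓ hℓ).1.pos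
    obtain ⟨c, C, hc, hC, h⟩ := ExceptionalSet.result.1 1 1 one_pos one_pos _ hW
    refine ⟨Real.exp (-Real.exp (C * (1 + |Λ|))), Real.exp_pos _, ?_⟩
    filter_upwards [h, aux2 hc Λ] with x hx hx2 a R hT
    obtain ⟨b, hb⟩ := exists_residue S hS a
    have hT2 : (ExceptionalSet.T (∏ ℓ ∈ S, ℓ) b R : ℝ) ≤ Λ * Real.log x :=
      (Nat.cast_le.2 (T_le S hS a hb R)).trans hT
    have h1 := hx 0
      (by rw [Nat.cast_zero, Real.log_zero, Real.rpow_one]; exact hx2.1.le) b R (hx2.2 _ hT2)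
    exact (aux hC (Nat.cast_nonneg x) hx2.1 hT2 h1).trans (Nat.cast_le.2 (unw_le _ b x R))
  · obtain ⟨c, C, hc, hC, h⟩ := ExceptionalSet.result.2.2.1 1 1 one_pos one_pos 1 le_rfl
    refine ⟨Real.exp (-Real.exp (C * (1 + |Λ|))), Real.exp_pos _, ?_⟩
    filter_upwards [h, aux2 hc Λ] with x hx hx2 A hT
    have hT2 : (ExceptionalSet.K A 1 0 (0 + x) : ℝ) ≤ Λ * Real.log x := by
      rw [zero_add, K_eq]; exact hT
    have h1 := hx 0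
      (by rw [Nat.cast_zero, Real.log_zero, Real.rpow_one]; exact hx2.1.le) 0 A (hx2.2 _ hT2)
    exact (aux hC (Nat.cast_nonneg x) hx2.1 hT2 h1).trans (Nat.cast_le.2 (notSum_le x A))

end Pool.Agent.ES39.ImpSC
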