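import Mathlib

/-! ES39/Lam.  The natural number `Λ = ⌈K / log H⌉₊ + 1`: a lower bound for `log₂ log₂ H`, the final
form of the bound for the exceptional set, and the consequence for the density. -/

set_option autoImplicit false

open Filter

namespace Pool.Agent.ES39

private theorem lam_ll (A : ℝ) : ∀ᶠ H : ℕ in atTop, A ≤ Real.log (Real.log H) := by
  have h : Tendsto (fun H : ℕ => Real.log (Real.log (H : ℝ))) atTop atTop :=
    Real.tendsto_log_atTop.comp (Real.tendsto_log_atTop.comp tendsto_natCast_atTop_atTop)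
  exact h.eventually_ge_atTop A

private theorem lam_l (A : ℝ) : ∀ᶠ H : ℕ in atTop, A ≤ Real.log H := by
  have h : Tendsto (fun H : ℕ => Real.log (H : ℝ)) atTop atTop :=
    Real.tendsto_log_atTop.comp tendsto_natCast_atTop_atTop
  exact h.eventually_ge_atTop A

private theorem lam_log2 {m : ℕ} (hm : 0 < m) : Real.log m ≤ (Nat.log 2 m : ℝ) + 1 := by
  have h1 : m < 2 ^ (Nat.log 2 m + 1) := Nat.lt_pow_succ_log_self (by norm_num) m
  have h2 : (m : ℝ) ≤ 2 ^ (Nat.log 2 m + 1) := by exact_mod_cast h1.le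
  have h3 : Real.log m ≤ Real.log (2 ^ (Nat.log 2 m + 1)) :=
    Real.log_le_log (Nat.cast_pos.2 hm) h2
  rw [Real.log_pow] at h3
  have h4 : Real.log 2 ≤ 1 := by
    have := Real.log_two_lt_d9
    linarith
  have h5 : (0 : ℝ) ≤ ((Nat.log 2 m + 1 : ℕ) : ℝ) := Nat.cast_nonneg _
  have h6 := mul_le_mul_of_nonneg_left h4 h5
  push_cast at h3 h6
  linarith

theorem lam (G : ℕ) (hG : 1 ≤ G) : ∀ᶠ H : ℕ in atTop, ∀ K : ℝ, 0 ≤ K →
    K ≤ 1 / (2 * (G : ℝ)) * Real.log H * Real.log (Real.log H) →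
    G * (⌈K / Real.log H⌉₊ + 1) ≤ Nat.log 2 (Nat.log 2 H + 1) := by
  filter_upwards [lam_ll (4 * (G : ℝ) + 2), lam_l 1, eventually_ge_atTop 1] with H h1 h2 h3 K hK0 hK
  have hG' : (1 : ℝ) ≤ G := by exact_mod_cast hG
  have hG0 : (0 : ℝ) < 2 * G := by linarith
  have hL : 0 < Real.log H := by linarith
  have h4 : K / Real.log H ≤ Real.log (Real.log H) / (2 * G) := by
    rw [div_le_iff₀ hL]
    refine hK.trans (le_of_eq ?_)
    ring
  have h5 : (G : ℝ) * (K / Real.log H) ≤ Real.log (Real.log H) / 2 := by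
    refine (mul_le_mul_of_nonneg_left h4 (by linarith)).trans (le_of_eq ?_)
    field_simp
  have h6 : ((⌈K / Real.log H⌉₊ : ℕ) : ℝ) < K / Real.log H + 1 :=
    Nat.ceil_lt_add_one (div_nonneg hK0 hL.le)
  have h7 : (G : ℝ) * ((⌈K / Real.log H⌉₊ : ℕ) : ℝ) ≤ G * (K / Real.log H + 1) :=
    mul_le_mul_of_nonneg_left h6.le (by linarith)
  have h8 : Real.log H ≤ (Nat.log 2 H : ℝ) + 1 := lam_log2 (by omega)
  have h9 : Real.log ((Nat.log 2 H + 1 : ℕ) : ℝ) ≤ (Nat.log 2 (Nat.log 2 H + 1) : ℝ) + 1 :=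
    lam_log2 (Nat.succ_pos _)
  have h10 : Real.log (Real.log H) ≤ Real.log ((Nat.log 2 H + 1 : ℕ) : ℝ) := by
    refine Real.log_le_log hL ?_
    push_cast
    exact h8
  have h11 : ((G * (⌈K / Real.log H⌉₊ + 1) : ℕ) : ℝ) ≤ ((Nat.log 2 (Nat.log 2 H + 1) : ℕ) : ℝ) := by
    push_cast
    nlinarith
  exact_mod_cast h11

theorem final {G : ℕ} (hG : 1 ≤ G) {H K c : ℝ} (hH : 1 ≤ Real.log H) (hK : 0 ≤ K)
    (h : H ≤ Real.exp (Real.exp ((G : ℝ) * ((⌈K / Real.log H⌉₊ + 1 : ℕ) : ℝ))) * c)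
    (hc : 0 ≤ c) :
    H * Real.exp (-Real.exp (2 * (G : ℝ) * (1 + K / Real.log H))) ≤ c := by
  have hG' : (1 : ℝ) ≤ G := by exact_mod_cast hG
  have hL : 0 < Real.log H := by linarith
  have h0 : 0 ≤ K / Real.log H := div_nonneg hK hL.le
  have h6 : ((⌈K / Real.log H⌉₊ : ℕ) : ℝ) < K / Real.log H + 1 := Nat.ceil_lt_add_one h0
  have h7 : (G : ℝ) * ((⌈K / Real.log H⌉₊ + 1 : ℕ) : ℝ) ≤ 2 * (G : ℝ) * (1 + K / Real.log H) := by
    have h8 : ((⌈K / Real.log H⌉₊ + 1 : ℕ) : ℝ) ≤ 2 * (1 + K / Real.log H) := by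
      push_cast
      linarith
    refine (mul_le_mul_of_nonneg_left h8 (by linarith)).trans (le_of_eq ?_)
    ring
  have h9 : H ≤ Real.exp (Real.exp (2 * (G : ℝ) * (1 + K / Real.log H))) * c :=
    h.trans (mul_le_mul_of_nonneg_right (Real.exp_le_exp.2 (Real.exp_le_exp.2 h7)) hc)
  have h10 := mul_le_mul_of_nonneg_right h9
    (Real.exp_pos (-Real.exp (2 * (G : ℝ) * (1 + K / Real.log H)))).le
  refine h10.trans (le_of_eq ?_)
  rw [mul_right_comm, ← Real.exp_add, add_neg_cancel, Real.exp_zero, one_mul]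

/-- `exp (-exp (C (1 + t)))` beats the density: if `v x / x → 0` and for large `x`
`t x ≤ c log x loglog x → x exp (-exp (C (1 + t x / log x))) ≤ v x`, then `t x / log x → ∞`.
For given `b` (`tendsto_atTop`), large `x`: if `t x / log x < b` then
`t x ≤ |b| log x ≤ c log x loglog x`, so `x exp (-exp (C (1 + |b|))) ≤ v x`; but `v x / x <`
`exp (-exp (C (1 + |b|)))` for large `x`. -/
theorem tend {c C : ℝ} (hc : 0 < c) (hC : 0 < C) (t v : ℕ → ℝ)
    (h : ∀ᶠ x : ℕ in atTop, t x ≤ c * Real.log x * Real.log (Real.log x) →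
      x * Real.exp (-Real.exp (C * (1 + t x / Real.log x))) ≤ v x)
    (hv : Tendsto (fun x : ℕ => v x / x) atTop (nhds 0)) :
    Tendsto (fun x : ℕ => t x / Real.log x) atTop atTop := by
  refine tendsto_atTop.2 fun b => ?_
  obtain ⟨ε, hε⟩ : ∃ ε : ℝ, ε = Real.exp (-Real.exp (C * (1 + |b|))) := ⟨_, rfl⟩
  have hε0 : 0 < ε := by
    rw [hε]
    exact Real.exp_pos _
  filter_upwards [h, hv.eventually (gt_mem_nhds hε0), lam_ll (|b| / c), lam_l 1,
    eventually_ge_atTop 1] with x h1 h2 h3 h4 h5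
  by_contra hlt
  have hlt' : t x / Real.log x < b := not_le.1 hlt
  have hL : 0 < Real.log x := by linarith
  have hx : (0 : ℝ) < x := Nat.cast_pos.2 (by omega)
  have h6 : t x ≤ |b| * Real.log x := by
    have h7 := (div_lt_iff₀ hL).1 hlt'
    exact h7.le.trans (mul_le_mul_of_nonneg_right (le_abs_self b) hL.le)
  have h7 : |b| ≤ c * Real.log (Real.log x) := by
    have h8 := (div_le_iff₀ hc).1 h3
    linarith
  have h8 : t x ≤ c * Real.log x * Real.log (Real.log x) := by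
    refine h6.trans ((mul_le_mul_of_nonneg_right h7 hL.le).trans (le_of_eq ?_))
    ring
  have h9 := h1 h8
  have h10 : ε ≤ Real.exp (-Real.exp (C * (1 + t x / Real.log x))) := by
    rw [hε]
    refine Real.exp_le_exp.2 (neg_le_neg (Real.exp_le_exp.2 (mul_le_mul_of_nonneg_left ?_ hC.le)))
    have := le_abs_self b
    linarith
  have h11 : ε ≤ v x / x := by
    rw [le_div_iff₀ hx]
    have h12 := mul_le_mul_of_nonneg_left h10 hx.le
    linarith
  linarith

end Pool.Agent.ES39
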