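import Pool.Agent.VOID.ClsM
import Pool.Agent.VOID.ClsSum
import Pool.Agent.Helper52.PrimeSums

/-! ES39/MainXA.  Summation over the classes modulo the small primes, in the interval `(x, x + y]`.

Adapt Pool/Agent/VOID/MainA.lean (`mainA`); the core proposition is a hypothesis here (`hcore`), so
that this file does not depend on it.  `l = Nat.log 2 y + 1`, `L = l ^ A0`, `lam = Nat.log 2 l`,
`w = 2 ^ (lam / 2)` (`w ^ 2 ≤ l`), `M1` = product of the primes `≤ w` not dividing `W` (copy the private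
lemmas `mainaM*`, `maina_ratio`, `maina_pow`, `maina_surv`, `maina_le_w`), `T = y / (W M1) ≥ 2^(l/2)`.
`Λ1 = 8 Λ W + 1 ≤ 9 W Λ`; `G ≥ 16 * G1 * 9 W` gives `16 G1 Λ1 ≤ lam`; survivors:
`(#{a ∈ A : gcd(b-a, M1) = 1}) * lam ≤ (8 Λ W + 1) l` for the good classes `b` (`maina_surv` with
`L := l`; at least `M1/2` classes are good, `cls_half_nat`).
If `a` is not counted, some prime `q ≤ w` divides `n - a`, and `q ^ N ≤ l ^ N ≤ 2 ^ l` for large `l`.
`hcore` gives `T ≤ E1 * #{t < T : ..}`, `E1 = exp (exp (B1 Λ1))`; `cls_sum` with `v = T / E1`: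
the count is `≥ (M1/2) T / E1 ≥ y / (4 W E1)` (`y ≤ 2 W M1 T`), and
`4 W exp (exp (B1 Λ1)) ≤ exp (exp (G Λ))` if `G ≥ 9 W B1 + 4 W` (`exp (b) + 4 W ≤ exp (b + 4 W)` for
`b ≥ 0`, `4 W ≤ exp (4 W)`).  (`G1`, `B1` are natural numbers.) -/

set_option autoImplicit false

open Finset

namespace Pool.Agent.ES39

open Pool.Agent.VOID

/-- the product of the primes up to `w` which do not divide `W` -/
private def mainXaM (W w : ℕ) : ℕ := ∏ q ∈ (range (w + 1)).filter (fun q => q.Prime ∧ ¬ q ∣ W), q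

private theorem mainXaM_pos (W w : ℕ) : 0 < mainXaM W w :=
  prod_pos fun _ hq => ((mem_filter.mp hq).2.1).pos

private theorem mainXaM_coprime (W w : ℕ) : Nat.Coprime W (mainXaM W w) := by
  apply Nat.Coprime.prod_right
  intro q hq
  rw [mem_filter] at hq
  exact ((hq.2.1.coprime_iff_not_dvd).mpr hq.2.2).symm

private theorem mainXaM_dvd (W w : ℕ) : mainXaM W w ∣ primorial w := by
  unfold mainXaM primorial
  apply prod_dvd_prod_of_subset
  intro q hq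
  rw [mem_filter] at hq ⊢
  exact ⟨hq.1, hq.2.1⟩

private theorem mainXaM_le (W w : ℕ) : mainXaM W w ≤ 4 ^ w :=
  (Nat.le_of_dvd (primorial_pos w) (mainXaM_dvd W w)).trans (primorial_le_four_pow w)

private theorem mainXaM_prime {W w q : ℕ} (hq : q.Prime) (h : q ∣ mainXaM W w) : q ≤ w :=
  (hq.dvd_primorial_iff).mp (h.trans (mainXaM_dvd W w))

private theorem mainXa_ratio {W b : ℕ} (hW : 0 < W) (hb : 1 ≤ b) (hWw : W ≤ 2 ^ b) :
    (Nat.totient (mainXaM W (2 ^ b)) : ℝ) / (mainXaM W (2 ^ b) : ℝ) ≤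
      ((W : ℝ) / Nat.totient W) * (1 / (b * Real.log 2)) := by
  set w := 2 ^ b with hw
  set P := mainXaM W w with hP
  have hP0 : 0 < P := mainXaM_pos W w
  have h1 := Nat.totient_eq_mul_prod_factors (W * P)
  have h2 : (Nat.totient (W * P) : ℝ) =
      ((W * P : ℕ) : ℝ) * ∏ q ∈ (W * P).primeFactors, (1 - ((q : ℝ))⁻¹) := by
    have := congrArg (fun z : ℚ => (z : ℝ)) h1
    push_cast at this ⊢
    exact this
  have h3 : ∏ q ∈ (W * P).primeFactors, (1 - ((q : ℝ))⁻¹) =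
      ∏ q ∈ Pool.Agent.Helper52.pr 0 w, (1 - 1 / (q : ℝ)) := by
    apply prod_congr
    · ext q
      rw [Pool.Agent.Helper52.mem_pr, Nat.mem_primeFactors]
      constructor
      · rintro ⟨hq, hd, _⟩
        refine ⟨hq.pos, ?_, hq⟩
        rcases (hq.dvd_mul).mp hd with h | h
        · exact (Nat.le_of_dvd hW h).trans hWw
        · exact mainXaM_prime hq h
      · rintro ⟨_, hle, hq⟩
        refine ⟨hq, ?_, (Nat.mul_pos hW hP0).ne'⟩
        by_cases h : q ∣ W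
        · exact h.mul_right _
        · apply Dvd.dvd.mul_left
          exact dvd_prod_of_mem (fun q => q)
            (mem_filter.mpr ⟨mem_range.mpr (Nat.lt_succ_of_le hle), hq, h⟩)
    · intro q _
      rw [one_div]
  have h4 := Pool.Agent.Helper52.prod_upper hb
  rw [h3, Nat.totient_mul (mainXaM_coprime W w), ← hP] at h2
  push_cast at h2
  have hWr : (0 : ℝ) < W := by exact_mod_cast hW
  have hPr : (0 : ℝ) < P := by exact_mod_cast hP0
  have hφW : (0 : ℝ) < Nat.totient W := by exact_mod_cast Nat.totient_pos.mpr hW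
  rw [← hw] at h4
  have h5 : (Nat.totient P : ℝ) / (P : ℝ) =
      ((W : ℝ) / Nat.totient W) * ∏ q ∈ Pool.Agent.Helper52.pr 0 w, (1 - 1 / (q : ℝ)) := by
    rw [div_mul_eq_mul_div, div_eq_div_iff hPr.ne' hφW.ne']
    linarith
  rw [h5]
  exact mul_le_mul_of_nonneg_left h4 (by positivity)

/-- `L ^ k ≤ 2 ^ L` for large `L` -/
private theorem mainXa_pow (k : ℕ) : ∃ K : ℕ, ∀ L : ℕ, K ≤ L → L ^ k ≤ 2 ^ L := by
  have h := tendsto_pow_const_div_const_pow_of_one_lt k (by norm_num : (1 : ℝ) < 2)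
  have h1 := (h.eventually (gt_mem_nhds (by norm_num : (0 : ℝ) < 1)))
  obtain ⟨K, hK⟩ := Filter.eventually_atTop.1 h1
  refine ⟨K, fun L hL => ?_⟩
  have h2 := hK L hL
  rw [div_lt_one (by positivity)] at h2
  exact_mod_cast h2.le

/-- the number of survivors in a good class -/
private theorem mainXa_surv {Λ lx L lam A B ρ W φ : ℝ} (hΛ : 0 < Λ) (hL : 0 < L)
    (hlx : lx ≤ L * Real.log 2)
    (hA : A ≤ Λ * lx) (hlam : 4 ≤ lam) {b : ℝ} (hb : lam ≤ 4 * b) (hW : 0 ≤ W) (hφ : 1 ≤ φ)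
    (hA0 : 0 ≤ A) (hρ : ρ ≤ (W / φ) * (1 / (b * Real.log 2))) (hB : B ≤ 2 * A * ρ) :
    B * lam ≤ (8 * Λ * W + 1) * L := by
  have hl2 : 0 < Real.log 2 := Real.log_pos (by norm_num)
  have hb0 : 0 < b := by linarith
  have hφ0 : 0 < φ := by linarith
  have hWφ : W / φ ≤ W := div_le_self hW hφ
  have h1 : ρ ≤ W * (4 / (lam * Real.log 2)) := by
    refine hρ.trans ?_
    apply mul_le_mul hWφ _ (by positivity) hW
    rw [div_le_div_iff₀ (by positivity) (by positivity)]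
    nlinarith
  have h2 : B ≤ 2 * (Λ * (L * Real.log 2)) * (W * (4 / (lam * Real.log 2))) := by
    refine hB.trans ?_
    have h3 : A ≤ Λ * (L * Real.log 2) := hA.trans (mul_le_mul_of_nonneg_left hlx hΛ.le)
    calc 2 * A * ρ ≤ 2 * A * (W * (4 / (lam * Real.log 2))) :=
          mul_le_mul_of_nonneg_left h1 (by positivity)
      _ ≤ _ := by
          apply mul_le_mul_of_nonneg_right _ (by positivity)
          linarith
  have h4 : 2 * (Λ * (L * Real.log 2)) * (W * (4 / (lam * Real.log 2))) * lam =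
      8 * Λ * W * L := by
    have : lam ≠ 0 := by linarith
    field_simp
    ring
  have h5 : B * lam ≤ 8 * Λ * W * L := by
    rw [← h4]
    exact mul_le_mul_of_nonneg_right h2 (by linarith)
  linarith

/-- `4 C ^ 2 < 2 ^ (lam + 1)` implies `C ≤ 2 ^ (lam / 2)` -/
private theorem mainXa_le_w {C lam : ℕ} (h : 4 * C ^ 2 < 2 ^ (lam + 1)) : C ≤ 2 ^ (lam / 2) := by
  set w : ℕ := 2 ^ (lam / 2) with hw
  have h2 : 2 ^ (lam + 1) ≤ 4 * (w * w) := by
    have h3 : 4 * (w * w) = 2 ^ (2 + lam / 2 + lam / 2) := by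
      rw [hw, pow_add, pow_add]
      ring
    rw [h3]
    exact Nat.pow_le_pow_right (by norm_num) (by omega)
  have h1 : C * C < w * w := by
    have h4 : 4 * C ^ 2 < 4 * (w * w) := by omega
    nlinarith
  nlinarith

/-- `4 W exp (exp b) ≤ exp (exp (b + 4 W))` -/
private theorem mainXa_exp {W b : ℝ} (hW : 0 ≤ W) (hb : 0 ≤ b) :
    4 * W * Real.exp (Real.exp b) ≤ Real.exp (Real.exp (b + 4 * W)) := by
  have h1 : 4 * W ≤ Real.exp (4 * W) := by
    have := Real.add_one_le_exp (4 * W)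
    linarith
  have h2 : 4 * W * Real.exp (Real.exp b) ≤ Real.exp (4 * W + Real.exp b) := by
    rw [Real.exp_add]
    exact mul_le_mul_of_nonneg_right h1 (Real.exp_pos _).le
  refine h2.trans (Real.exp_le_exp.2 ?_)
  rw [Real.exp_add]
  have h3 := Real.one_le_exp hb
  have h4 := Real.add_one_le_exp (4 * W)
  have h5 : Real.exp b * (4 * W + 1) ≤ Real.exp b * Real.exp (4 * W) :=
    mul_le_mul_of_nonneg_left h4 (Real.exp_pos _).le
  have h6 : 1 * (4 * W) ≤ Real.exp b * (4 * W) := mul_le_mul_of_nonneg_right h3 (by linarith)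
  linarith

open Classical in
theorem mainXA (A0 W N G1 B1 l1 : ℕ) (hA0 : 1 ≤ A0) (hW : 0 < W) (hG1 : 1 ≤ G1)
    (hcore : ∀ l : ℕ, l1 ≤ l → ∀ Λ : ℕ, 1 ≤ Λ → 16 * G1 * Λ ≤ Nat.log 2 l →
      ∀ (M : ℕ) (n0 : ℤ) (B : Finset ℤ) (T : ℕ), 0 < M →
      (∀ q : ℕ, q.Prime → (l ^ A0) ^ 6 < q → Nat.Coprime M q) →
      (∀ b ∈ B, |b| ≤ 2 ^ (l ^ A0)) →
      (B.card : ℝ) * (Nat.log 2 l : ℝ) ≤ (Λ : ℝ) * l → 2 ^ (l / 2) ≤ T →
      (T : ℝ) ≤ Real.exp (Real.exp ((B1 : ℝ) * Λ)) *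
        (((range T).filter (fun t : ℕ => ∀ b ∈ B, ∃ q : ℕ, q.Prime ∧
          q ^ N ≤ 2 ^ l ∧ (q : ℤ) ∣ n0 + M * (t : ℤ) - b)).card : ℝ)) :
    ∃ G y0 : ℕ, 1 ≤ G ∧ ∀ y : ℕ, y0 ≤ y → ∀ (x r : ℕ) (A : Finset ℤ) (Λ : ℕ), 1 ≤ Λ →
      G * Λ ≤ Nat.log 2 (Nat.log 2 y + 1) →
      (∀ a ∈ A, |a| ≤ 2 ^ ((Nat.log 2 y + 1) ^ A0)) → (A.card : ℝ) ≤ Λ * Real.log y →
      (y : ℝ) ≤ Real.exp (Real.exp ((G : ℝ) * Λ)) *
        (((Ioc x (x + y)).filter (fun n => n ≡ r [MOD W] ∧ ∀ a ∈ A, ∃ q : ℕ, q.Prime ∧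
          q ^ N ≤ 2 ^ (Nat.log 2 y + 1) ∧ (q : ℤ) ∣ (n : ℤ) - a)).card : ℝ) := by
  obtain ⟨K0, hK0⟩ := mainXa_pow N
  have hWr : (0 : ℝ) < W := by exact_mod_cast hW
  refine ⟨144 * G1 * W + 9 * W * B1 + 4 * W, 2 ^ (l1 + 268435456 + 4 * W ^ 2 + K0), by omega, ?_⟩
  intro y hy x r A Λ hΛ1 hGΛ hAx hA
  have hφW : (1 : ℝ) ≤ Nat.totient W := by exact_mod_cast Nat.totient_pos.mpr hW
  have hΛr : (1 : ℝ) ≤ Λ := by exact_mod_cast hΛ1
  -- parameters
  obtain ⟨l, hldef⟩ : ∃ l : ℕ, l = Nat.log 2 y + 1 := ⟨_, rfl⟩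
  rw [← hldef] at hGΛ hAx ⊢
  have hy0 : y ≠ 0 := by
    have : 0 < 2 ^ (l1 + 268435456 + 4 * W ^ 2 + K0) := by positivity
    omega
  have hyl : y < 2 ^ l := by
    rw [hldef]
    exact Nat.lt_pow_succ_log_self (by norm_num) y
  have hly : 2 ^ (l - 1) ≤ y := by
    rw [hldef, Nat.add_sub_cancel]
    exact Nat.pow_log_le_self 2 hy0
  have hlbig : l1 + 268435456 + 4 * W ^ 2 + K0 ≤ l := by
    have h1 : Nat.log 2 (2 ^ (l1 + 268435456 + 4 * W ^ 2 + K0)) ≤ Nat.log 2 y :=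
      Nat.log_mono_right hy
    rw [Nat.log_pow (by norm_num)] at h1
    omega
  obtain ⟨lam, hlam⟩ : ∃ lam : ℕ, lam = Nat.log 2 l := ⟨_, rfl⟩
  have hl0 : l ≠ 0 := by omega
  have hlaml : 2 ^ lam ≤ l := by
    rw [hlam]
    exact Nat.pow_log_le_self 2 hl0
  have hllam : l < 2 ^ (lam + 1) := by
    rw [hlam]
    exact Nat.lt_pow_succ_log_self (by norm_num) l
  have hlam28 : 28 ≤ lam := by
    have h1 : Nat.log 2 (2 ^ 28) ≤ Nat.log 2 l := Nat.log_mono_right (by norm_num; omega)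
    rw [Nat.log_pow (by norm_num)] at h1
    omega
  have hWw : W ≤ 2 ^ (lam / 2) := mainXa_le_w (by omega)
  obtain ⟨w, hw⟩ : ∃ w : ℕ, w = 2 ^ (lam / 2) := ⟨_, rfl⟩
  have hww : w * w ≤ l := by
    refine le_trans ?_ hlaml
    rw [hw, ← pow_add]
    exact Nat.pow_le_pow_right (by norm_num) (by omega)
  have hw16 : 2 ^ 14 ≤ w := by
    rw [hw]
    exact Nat.pow_le_pow_right (by norm_num) (by omega)
  have hw12 : 12 * w ≤ l := by
    have h1 : 12 * w ≤ w * w := Nat.mul_le_mul_right _ (by omega)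
    exact h1.trans hww
  have hwl : w ≤ l := by omega
  have hratio := mainXa_ratio (W := W) (b := lam / 2) hW (by omega) hWw
  rw [← hw] at hWw hratio
  -- the modulus
  obtain ⟨M1, hM1⟩ : ∃ M1 : ℕ, M1 = mainXaM W w := ⟨_, rfl⟩
  rw [← hM1] at hratio
  have hM10 : 0 < M1 := hM1 ▸ mainXaM_pos W w
  have hM0 : 0 < W * M1 := Nat.mul_pos hW hM10
  have hMle : W * M1 ≤ 2 ^ (3 * w) := by
    have h1 : W ≤ 2 ^ w := hWw.trans Nat.lt_two_pow_self.le
    calc W * M1 ≤ 2 ^ w * 4 ^ w := Nat.mul_le_mul h1 (hM1 ▸ mainXaM_le W w)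
      _ = 2 ^ (3 * w) := by
        rw [show (4 : ℕ) = 2 ^ 2 by norm_num, ← pow_mul, ← pow_add]
        congr 1
        ring
  have hMq : ∀ q : ℕ, q.Prime → q ∣ M1 → q ≤ w := by
    intro q hq h
    rw [hM1] at h
    exact mainXaM_prime hq h
  have hMprime : ∀ q : ℕ, q.Prime → (l ^ A0) ^ 6 < q → Nat.Coprime (W * M1) q := by
    intro q hq hqL
    rw [Nat.coprime_comm, hq.coprime_iff_not_dvd]
    intro hqM
    have h1 : q ≤ w := by
      rcases (hq.dvd_mul).mp hqM with h | h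
      · exact (Nat.le_of_dvd hW h).trans hWw
      · exact hMq q hq h
    have h2 : l ≤ l ^ A0 := Nat.le_self_pow (by omega) l
    have h3 : l ^ A0 ≤ (l ^ A0) ^ 6 := Nat.le_self_pow (by norm_num) _
    omega
  -- the logarithm
  have hl2 : 0 < Real.log 2 := Real.log_pos (by norm_num)
  have hy0r : (0 : ℝ) < y := by
    have : 0 < y := Nat.pos_of_ne_zero hy0
    exact_mod_cast this
  have hlogl : Real.log y ≤ l * Real.log 2 := by
    rw [← Real.log_pow]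
    apply Real.log_le_log hy0r
    exact_mod_cast hyl.le
  -- the number of steps
  obtain ⟨T, hT⟩ : ∃ T : ℕ, T = y / (W * M1) := ⟨_, rfl⟩
  have hMT : W * M1 * T ≤ y := by
    rw [hT]
    exact Nat.mul_div_le _ _
  have hTbig : 2 ^ (l / 2) ≤ T := by
    rw [hT, Nat.le_div_iff_mul_le hM0]
    have h1 : 2 ^ (l / 2) * (W * M1) ≤ 2 ^ (l / 2) * 2 ^ (3 * w) := Nat.mul_le_mul_left _ hMle
    have h2 : 2 ^ (l / 2) * 2 ^ (3 * w) ≤ 2 ^ (l - 1) := by
      rw [← pow_add]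
      exact Nat.pow_le_pow_right (by norm_num) (by omega)
    omega
  -- the parameter of the core
  have hWΛ : 1 ≤ W * Λ := Nat.mul_pos hW hΛ1
  have hcoreG : 16 * G1 * (8 * Λ * W + 1) ≤ Nat.log 2 l := by
    refine le_trans ?_ hGΛ
    calc 16 * G1 * (8 * Λ * W + 1) ≤ 16 * G1 * (9 * (W * Λ)) := by
          apply Nat.mul_le_mul_left
          have : 8 * Λ * W = 8 * (W * Λ) := by ring
          omega
      _ = 144 * G1 * W * Λ := by ring
      _ ≤ (144 * G1 * W + 9 * W * B1 + 4 * W) * Λ := Nat.mul_le_mul_right _ (by omega)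
  obtain ⟨E1, hE1⟩ : ∃ E1 : ℝ, E1 = Real.exp (Real.exp ((B1 : ℝ) * ((8 * Λ * W + 1 : ℕ) : ℝ))) :=
    ⟨_, rfl⟩
  have hE1p : 0 < E1 := by
    rw [hE1]
    exact Real.exp_pos _
  -- the good classes
  obtain ⟨G, hG⟩ : ∃ G : Finset ℕ, G = (range M1).filter (fun b : ℕ =>
      ((A.filter (fun a => IsCoprime ((b : ℤ) - a) (M1 : ℤ))).card : ℝ) ≤
        2 * (A.card : ℝ) * ((Nat.totient M1 : ℝ) / M1)) := ⟨_, rfl⟩
  have hGhalf : M1 ≤ 2 * G.card := by
    rw [hG]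
    exact cls_half_nat hM10 A
  have hGsub : G ⊆ range M1 := by
    rw [hG]
    exact filter_subset _ _
  obtain ⟨P, hP⟩ : ∃ P : ℕ → Prop, ∀ n : ℕ, P n ↔ ∀ a ∈ A, ∃ q : ℕ, q.Prime ∧
      q ^ N ≤ 2 ^ l ∧ (q : ℤ) ∣ (n : ℤ) - a := ⟨_, fun _ => Iff.rfl⟩
  have hkey : ∀ b ∈ G, ∀ n0 : ℕ, x < n0 → n0 ≤ x + W * M1 → n0 ≡ r [MOD W] →
      n0 ≡ b [MOD M1] →
      (T : ℝ) / E1 ≤ (((range (y / (W * M1))).filter (fun t : ℕ => P (n0 + W * M1 * t))).card : ℝ) := by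
    intro b hb n0 _ _ _ hn4
    rw [hG] at hb
    have hb' := (mem_filter.1 hb).2
    have hsurv : ((A.filter (fun a => IsCoprime ((b : ℤ) - a) (M1 : ℤ))).card : ℝ) *
        (lam : ℝ) ≤ (8 * Λ * W + 1) * l := by
      refine mainXa_surv (Λ := (Λ : ℝ)) (lx := Real.log y) (b := ((lam / 2 : ℕ) : ℝ)) (by linarith)
        (by exact_mod_cast Nat.pos_of_ne_zero hl0) hlogl hA ?_ ?_ hWr.le hφW
        (Nat.cast_nonneg _) hratio hb'
      · have : 4 ≤ lam := by omega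
        exact_mod_cast this
      · have : lam ≤ 4 * (lam / 2) := by omega
        exact_mod_cast this
    have hsurv' : ((A.filter (fun a => IsCoprime ((b : ℤ) - a) (M1 : ℤ))).card : ℝ) *
        (Nat.log 2 l : ℝ) ≤ ((8 * Λ * W + 1 : ℕ) : ℝ) * l := by
      rw [← hlam]
      push_cast
      exact hsurv
    have h1 := hcore l (by omega) (8 * Λ * W + 1) (by omega) hcoreG (W * M1) (n0 : ℤ)
      (A.filter (fun a => IsCoprime ((b : ℤ) - a) (M1 : ℤ))) T hM0 hMprime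
      (fun a ha => hAx a (mem_filter.1 ha).1) hsurv' hTbig
    rw [← hE1] at h1
    rw [div_le_iff₀ hE1p, mul_comm]
    refine h1.trans (mul_le_mul_of_nonneg_left ?_ hE1p.le)
    have h2 : ((range T).filter (fun t : ℕ => ∀ a ∈ A.filter (fun a =>
        IsCoprime ((b : ℤ) - a) (M1 : ℤ)), ∃ q : ℕ, q.Prime ∧
        q ^ N ≤ 2 ^ l ∧ (q : ℤ) ∣ (n0 : ℤ) + ((W * M1 : ℕ) : ℤ) * (t : ℤ) - a)) ⊆
        ((range (y / (W * M1))).filter (fun t : ℕ => P (n0 + W * M1 * t))) := by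
      intro t ht
      rw [mem_filter] at ht ⊢
      refine ⟨hT ▸ ht.1, (hP _).2 ?_⟩
      intro a ha
      by_cases hco : IsCoprime ((b : ℤ) - a) (M1 : ℤ)
      · obtain ⟨q, hq, hq2, hq3⟩ := ht.2 a (mem_filter.2 ⟨ha, hco⟩)
        refine ⟨q, hq, hq2, ?_⟩
        push_cast at hq3 ⊢
        exact hq3
      · rw [Int.isCoprime_iff_gcd_eq_one, Int.gcd_eq_natAbs, Int.natAbs_natCast] at hco
        obtain ⟨q, hq, hq1, hq2⟩ := Nat.Prime.not_coprime_iff_dvd.1 hco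
        have hqw : q ≤ w := hMq q hq hq2
        refine ⟨q, hq, ?_, ?_⟩
        · exact (Nat.pow_le_pow_left (hqw.trans hwl) _).trans (hK0 l (by omega))
        · have e1 : (q : ℤ) ∣ (b : ℤ) - a := Int.natCast_dvd.2 hq1
          have e2 : (q : ℤ) ∣ (M1 : ℤ) := Int.natCast_dvd_natCast.2 hq2
          have e3 : (M1 : ℤ) ∣ (b : ℤ) - n0 := Nat.modEq_iff_dvd.1 hn4
          have e4 : (((n0 + W * M1 * t : ℕ) : ℤ)) - a =
              ((b : ℤ) - a) - ((b : ℤ) - n0) + (M1 : ℤ) * (W * t) := by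
            push_cast
            ring
          rw [e4]
          exact dvd_add (dvd_sub e1 (e2.trans e3)) (e2.mul_right _)
    exact_mod_cast card_le_card h2
  have hsum := cls_sum hW hM10 (hM1 ▸ mainXaM_coprime W w) x y r G hGsub P hkey
  have hsub : (Ioc x (x + y)).filter (fun n => n ≡ r [MOD W] ∧ P n) ⊆
      (Ioc x (x + y)).filter (fun n => n ≡ r [MOD W] ∧ ∀ a ∈ A, ∃ q : ℕ, q.Prime ∧
      q ^ N ≤ 2 ^ l ∧ (q : ℤ) ∣ (n : ℤ) - a) := by
    intro n hn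
    rw [mem_filter] at hn ⊢
    exact ⟨hn.1, hn.2.1, (hP n).1 hn.2.2⟩
  have hcard : (((Ioc x (x + y)).filter (fun n => n ≡ r [MOD W] ∧ P n)).card : ℝ) ≤
      (((Ioc x (x + y)).filter (fun n => n ≡ r [MOD W] ∧ ∀ a ∈ A, ∃ q : ℕ, q.Prime ∧
      q ^ N ≤ 2 ^ l ∧ (q : ℤ) ∣ (n : ℤ) - a)).card : ℝ) := by
    exact_mod_cast card_le_card hsub
  have hfin := hsum.trans hcard
  -- final computation
  have hM1r : (0 : ℝ) < M1 := by exact_mod_cast hM10
  have hMr : (0 : ℝ) < (W : ℝ) * M1 := mul_pos hWr hM1r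
  have hT1 : (y : ℝ) ≤ (W : ℝ) * M1 * (T + 1) := by
    have h1 : y ≤ W * M1 * (T + 1) := by
      have h2 := Nat.div_add_mod y (W * M1)
      have h3 := Nat.mod_lt y hM0
      rw [← hT] at h2
      rw [mul_add, mul_one]
      omega
    exact_mod_cast h1
  have hT0 : (1 : ℝ) ≤ T := by
    have : 1 ≤ T := le_trans Nat.one_le_two_pow hTbig
    exact_mod_cast this
  have hT2 : (y : ℝ) ≤ 2 * ((W : ℝ) * M1) * T := by nlinarith
  have hG2 : (M1 : ℝ) / 2 ≤ G.card := by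
    have : (M1 : ℝ) ≤ 2 * G.card := by exact_mod_cast hGhalf
    linarith
  have hb0 : 0 ≤ (B1 : ℝ) * ((8 * Λ * W + 1 : ℕ) : ℝ) := by positivity
  have hE2 : 4 * (W : ℝ) * E1 ≤ Real.exp (Real.exp
      (((144 * G1 * W + 9 * W * B1 + 4 * W : ℕ) : ℝ) * Λ)) := by
    rw [hE1]
    refine (mainXa_exp hWr.le hb0).trans ?_
    apply Real.exp_le_exp.2
    apply Real.exp_le_exp.2
    have h1 : B1 * (8 * Λ * W + 1) + 4 * W ≤ (144 * G1 * W + 9 * W * B1 + 4 * W) * Λ := by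
      have h2 : B1 * (8 * Λ * W + 1) ≤ B1 * (9 * (W * Λ)) := by
        apply Nat.mul_le_mul_left
        have : 8 * Λ * W = 8 * (W * Λ) := by ring
        omega
      have h3 : 4 * W ≤ 4 * W * Λ := Nat.le_mul_of_pos_right _ hΛ1
      have h4 : (144 * G1 * W + 9 * W * B1 + 4 * W) * Λ =
          144 * G1 * W * Λ + B1 * (9 * (W * Λ)) + 4 * W * Λ := by ring
      rw [h4]
      have h5 : 0 ≤ 144 * G1 * W * Λ := Nat.zero_le _
      omega
    have h2 : ((B1 * (8 * Λ * W + 1) + 4 * W : ℕ) : ℝ) ≤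
        (((144 * G1 * W + 9 * W * B1 + 4 * W) * Λ : ℕ) : ℝ) := by exact_mod_cast h1
    rw [Nat.cast_mul (144 * G1 * W + 9 * W * B1 + 4 * W)] at h2
    refine le_trans (le_of_eq ?_) h2
    push_cast
    ring
  have hcnt0 : (0 : ℝ) ≤ (((Ioc x (x + y)).filter (fun n => n ≡ r [MOD W] ∧ ∀ a ∈ A, ∃ q : ℕ,
      q.Prime ∧ q ^ N ≤ 2 ^ l ∧ (q : ℤ) ∣ (n : ℤ) - a)).card : ℝ) := Nat.cast_nonneg _
  refine le_trans ?_ (mul_le_mul_of_nonneg_right hE2 hcnt0)
  refine le_trans ?_ (mul_le_mul_of_nonneg_left hfin (by positivity))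
  calc (y : ℝ) ≤ 2 * ((W : ℝ) * M1) * T := hT2
    _ = 4 * W * E1 * ((M1 : ℝ) / 2 * (T / E1)) := by
        field_simp
        ring
    _ ≤ 4 * W * E1 * ((G.card : ℝ) * (T / E1)) := by
        apply mul_le_mul_of_nonneg_left _ (by positivity)
        exact mul_le_mul_of_nonneg_right hG2 (by positivity)

end Pool.Agent.ES39
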