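import Mathlib

/-! ES39/MainXB.  Removal of the `n` which are too close to an element of `A`.

Let `l = Nat.log 2 y + 1`. From `q ^ (2 N + 4) ≤ 2 ^ l ≤ 2 y` we get `q ^ N ≤ y` and `q ≤ D = Nat.sqrt (2 y)`. The `n` with
`|n - a| ≤ D` for some `a ∈ A` are removed: at most `A.card (2 D + 1) ≤ Λ log y * 6 √y` of them. This is at most half of
`y / exp (exp (G1 Λ))`, because `exp (G1 Λ) ≤ √l`, `Λ ≤ l` and `12 l ^ 2 exp (√l) ≤ √y` for large `y`. -/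

set_option autoImplicit false

open Finset

namespace Pool.Agent.ES39

private theorem mainxb_ev : ∃ l0 : ℕ, ∀ l : ℕ, l0 ≤ l →
    12 * (l : ℝ) ^ 2 * Real.exp (Real.sqrt l) ≤ Real.exp (((l : ℝ) - 1) / 2 * Real.log 2) := by
  have h2 : 0 < Real.log 2 := Real.log_pos (by norm_num)
  obtain ⟨c, hc⟩ : ∃ c, c = Real.log 2 / 8 := ⟨_, rfl⟩
  have hc0 : 0 < c := by
    rw [hc]
    positivity
  have e1 := Real.isLittleO_log_id_atTop.bound hc0
  have e2 := (tendsto_natCast_atTop_atTop (R := ℝ)).eventually e1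
  obtain ⟨l1, hl1⟩ := Filter.eventually_atTop.1 e2
  obtain ⟨l2, hl2⟩ := exists_nat_ge ((8 / Real.log 2) ^ 2)
  obtain ⟨l3, hl3⟩ := exists_nat_ge ((Real.log 12 + Real.log 2 / 2) / c)
  refine ⟨max (max l1 l2) (max l3 1), fun l hl => ?_⟩
  have a1 : l1 ≤ l := le_trans (le_trans (le_max_left _ _) (le_max_left _ _)) hl
  have a2 : l2 ≤ l := le_trans (le_trans (le_max_right _ _) (le_max_left _ _)) hl
  have a3 : l3 ≤ l := le_trans (le_trans (le_max_left _ _) (le_max_right _ _)) hl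
  have a4 : 1 ≤ l := le_trans (le_trans (le_max_right _ _) (le_max_right _ _)) hl
  have b1 : Real.log l ≤ c * l := by
    have h := hl1 l a1
    rw [Real.norm_of_nonneg (Real.log_natCast_nonneg l), id, Real.norm_of_nonneg (Nat.cast_nonneg l)] at h
    exact h
  have b2 : Real.sqrt l ≤ c * l := by
    have h0 : (8 / Real.log 2) ^ 2 ≤ (l : ℝ) := hl2.trans (by exact_mod_cast a2)
    have h3 : 8 / Real.log 2 ≤ Real.sqrt l := Real.le_sqrt_of_sq_le h0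
    have h4 : Real.sqrt l * Real.sqrt l = l := Real.mul_self_sqrt (Nat.cast_nonneg l)
    have h5 : 1 ≤ c * Real.sqrt l := by
      have h6 : c * (8 / Real.log 2) = 1 := by
        rw [hc]
        field_simp
      rw [← h6]
      exact mul_le_mul_of_nonneg_left h3 hc0.le
    calc Real.sqrt l = 1 * Real.sqrt l := (one_mul _).symm
      _ ≤ c * Real.sqrt l * Real.sqrt l := mul_le_mul_of_nonneg_right h5 (Real.sqrt_nonneg _)
      _ = c * l := by rw [mul_assoc, h4]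
  have b3 : Real.log 12 + Real.log 2 / 2 ≤ c * l := by
    have h : (Real.log 12 + Real.log 2 / 2) / c ≤ l := hl3.trans (by exact_mod_cast a3)
    rw [div_le_iff₀ hc0] at h
    linarith
  have hl0 : (0 : ℝ) < l := by exact_mod_cast a4
  have h12 : (12 : ℝ) * (l : ℝ) ^ 2 * Real.exp (Real.sqrt l) =
      Real.exp (Real.log 12 + 2 * Real.log l + Real.sqrt l) := by
    rw [Real.exp_add, Real.exp_add, Real.exp_log (by norm_num), two_mul, Real.exp_add, Real.exp_log hl0, sq]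
  rw [h12, Real.exp_le_exp]
  have h6 : 4 * (c * l) = Real.log 2 / 2 * l := by
    rw [hc]
    ring
  linarith

private theorem mainxb_X (G1 Λ l : ℕ) (hl : 1 ≤ l) (h : 4 * (G1 * Λ) ≤ Nat.log 2 l) :
    Real.exp ((G1 : ℝ) * Λ) ≤ Real.sqrt l := by
  refine Real.le_sqrt_of_sq_le ?_
  have e1 : Real.exp 1 ≤ 4 := by
    have := Real.exp_one_lt_d9
    linarith
  have h1 : Real.exp ((G1 : ℝ) * Λ) ^ 2 ≤ (2 : ℝ) ^ Nat.log 2 l := by
    calc Real.exp ((G1 : ℝ) * Λ) ^ 2 = Real.exp 1 ^ (2 * (G1 * Λ)) := by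
          rw [← Real.exp_nat_mul, ← Real.exp_nat_mul]
          push_cast
          ring_nf
      _ ≤ 4 ^ (2 * (G1 * Λ)) := pow_le_pow_left₀ (Real.exp_pos _).le e1 _
      _ = 2 ^ (4 * (G1 * Λ)) := by
          rw [show (4 : ℝ) = 2 ^ 2 by norm_num, ← pow_mul, ← mul_assoc]
          norm_num
      _ ≤ 2 ^ Nat.log 2 l := pow_le_pow_right₀ (by norm_num) h
  refine h1.trans ?_
  exact_mod_cast Nat.pow_log_le_self 2 (by omega)

private theorem mainxb_L (y : ℕ) (hy : 1 ≤ y) : Real.log y ≤ ((Nat.log 2 y + 1 : ℕ) : ℝ) ∧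
    Real.exp ((((Nat.log 2 y + 1 : ℕ) : ℝ) - 1) / 2 * Real.log 2) ≤ Real.sqrt y := by
  have h0 : (0 : ℝ) < y := by exact_mod_cast hy
  constructor
  · have h1 : (y : ℝ) ≤ (2 : ℝ) ^ (Nat.log 2 y + 1) := by
      exact_mod_cast (Nat.lt_pow_succ_log_self (by norm_num) y).le
    have h2 := Real.log_le_log h0 h1
    rw [Real.log_pow] at h2
    refine h2.trans ?_
    have h3 : Real.log 2 ≤ 1 := by
      have := Real.log_two_lt_d9
      linarith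
    calc ((Nat.log 2 y + 1 : ℕ) : ℝ) * Real.log 2 ≤ ((Nat.log 2 y + 1 : ℕ) : ℝ) * 1 :=
          mul_le_mul_of_nonneg_left h3 (Nat.cast_nonneg _)
      _ = _ := mul_one _
  · refine Real.le_sqrt_of_sq_le ?_
    have h1 : ((2 : ℝ)) ^ Nat.log 2 y ≤ y := by
      exact_mod_cast Nat.pow_log_le_self 2 (by omega)
    refine le_trans (le_of_eq ?_) h1
    rw [← Real.exp_nat_mul]
    have h2 : ((2 : ℕ) : ℝ) * ((((Nat.log 2 y + 1 : ℕ) : ℝ) - 1) / 2 * Real.log 2) = (Nat.log 2 y : ℝ) * Real.log 2 := by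
      push_cast
      ring
    rw [h2, Real.exp_nat_mul, Real.exp_log (by norm_num)]

private theorem mainxb_E (G1 Λ : ℕ) (hΛ : 1 ≤ Λ) : 2 * Real.exp (Real.exp ((G1 : ℝ) * Λ)) ≤
    Real.exp (Real.exp (((4 * G1 + 2 : ℕ) : ℝ) * Λ)) := by
  have hΛ' : (1 : ℝ) ≤ Λ := by exact_mod_cast hΛ
  have hG : (0 : ℝ) ≤ G1 := Nat.cast_nonneg _
  have e1 : (2 : ℝ) ≤ Real.exp 1 := by
    have := Real.add_one_le_exp (1 : ℝ)
    linarith
  have h0 : 0 ≤ (G1 : ℝ) * Λ := by positivity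
  have h1 : 1 ≤ Real.exp ((G1 : ℝ) * Λ) := Real.one_le_exp h0
  have h2 : (G1 : ℝ) * Λ + 1 ≤ ((4 * G1 + 2 : ℕ) : ℝ) * Λ := by
    push_cast
    nlinarith
  have h3 : Real.exp ((G1 : ℝ) * Λ) + 1 ≤ Real.exp (((4 * G1 + 2 : ℕ) : ℝ) * Λ) := by
    refine le_trans ?_ (Real.exp_le_exp.2 h2)
    rw [Real.exp_add]
    nlinarith
  refine le_trans ?_ (Real.exp_le_exp.2 h3)
  rw [Real.exp_add, mul_comm]
  exact mul_le_mul_of_nonneg_left e1 (Real.exp_pos _).le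

open Classical in
private theorem mainxb_rem (S : Finset ℕ) (A : Finset ℤ) (D : ℕ) :
    (S.filter fun n : ℕ => ∃ a ∈ A, |(n : ℤ) - a| ≤ (D : ℤ)).card ≤ A.card * (2 * D + 1) := by
  have h1 : (S.filter fun n : ℕ => ∃ a ∈ A, |(n : ℤ) - a| ≤ (D : ℤ)).card ≤
      (A.biUnion fun a => Icc (a - D) (a + D)).card := by
    refine card_le_card_of_injOn (fun n : ℕ => (n : ℤ)) ?_ ?_
    · intro n hn
      obtain ⟨_, a, ha, hna⟩ := mem_filter.1 (mem_coe.1 hn)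
      rw [abs_le] at hna
      refine mem_coe.2 (mem_biUnion.2 ⟨a, ha, mem_Icc.2 ⟨?_, ?_⟩⟩)
      · show a - (D : ℤ) ≤ (n : ℤ)
        linarith [hna.1]
      · show (n : ℤ) ≤ a + D
        linarith [hna.2]
    · intro a _ b _ h
      exact Nat.cast_injective (R := ℤ) h
  refine h1.trans (card_biUnion_le.trans ?_)
  refine (sum_le_card_nsmul A _ (2 * D + 1) fun a _ => ?_).trans (le_of_eq (by simp))
  rw [Int.card_Icc]
  omega

open Classical in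
theorem mainXB (A0 W N G1 y1 : ℕ) (hG1 : 1 ≤ G1)
    (hA : ∀ y : ℕ, y1 ≤ y → ∀ (x r : ℕ) (A : Finset ℤ) (Λ : ℕ), 1 ≤ Λ →
      G1 * Λ ≤ Nat.log 2 (Nat.log 2 y + 1) →
      (∀ a ∈ A, |a| ≤ 2 ^ ((Nat.log 2 y + 1) ^ A0)) → (A.card : ℝ) ≤ Λ * Real.log y →
      (y : ℝ) ≤ Real.exp (Real.exp ((G1 : ℝ) * Λ)) *
        (((Ioc x (x + y)).filter (fun n => n ≡ r [MOD W] ∧ ∀ a ∈ A, ∃ q : ℕ, q.Prime ∧
          q ^ (2 * N + 4) ≤ 2 ^ (Nat.log 2 y + 1) ∧ (q : ℤ) ∣ (n : ℤ) - a)).card : ℝ)) :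
    ∃ G y0 : ℕ, 1 ≤ G ∧ ∀ y : ℕ, y0 ≤ y → ∀ (x r : ℕ) (A : Finset ℤ) (Λ : ℕ), 1 ≤ Λ →
      G * Λ ≤ Nat.log 2 (Nat.log 2 y + 1) →
      (∀ a ∈ A, |a| ≤ 2 ^ ((Nat.log 2 y + 1) ^ A0)) → (A.card : ℝ) ≤ Λ * Real.log y →
      (y : ℝ) ≤ Real.exp (Real.exp ((G : ℝ) * Λ)) *
        (((Ioc x (x + y)).filter (fun n => n ≡ r [MOD W] ∧ ∀ a ∈ A, ∃ q : ℕ, q.Prime ∧
          q ^ N ≤ y ∧ (q : ℤ) ∣ (n : ℤ) - a ∧ (q : ℤ) < |(n : ℤ) - a|)).card : ℝ) := by
  obtain ⟨l0, hl0⟩ := mainxb_ev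
  refine ⟨4 * G1 + 2, max (max y1 1) (2 ^ l0), by omega, fun y hy x r A Λ hΛ hG hAb hAc => ?_⟩
  have hy1 : y1 ≤ y := le_trans (le_trans (le_max_left _ _) (le_max_left _ _)) hy
  have hyp : 1 ≤ y := le_trans (le_trans (le_max_right _ _) (le_max_left _ _)) hy
  have hy2 : 2 ^ l0 ≤ y := le_trans (le_max_right _ _) hy
  have hG' : G1 * Λ ≤ Nat.log 2 (Nat.log 2 y + 1) := le_trans (Nat.mul_le_mul_right _ (by omega)) hG
  have h3 := hA y hy1 x r A Λ hΛ hG' hAb hAc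
  obtain ⟨hlog, hsq⟩ := mainxb_L y hyp
  have hll : l0 ≤ Nat.log 2 y + 1 := le_trans (Nat.le_log_of_pow_le (by norm_num) hy2) (Nat.le_succ _)
  have hbig := hl0 _ hll
  have hX := mainxb_X G1 Λ (Nat.log 2 y + 1) (by omega) (by
    refine le_trans ?_ hG
    rw [← mul_assoc]
    exact Nat.mul_le_mul_right _ (by omega))
  have hΛL : Λ ≤ Nat.log 2 y + 1 := by
    refine le_trans (Nat.le_mul_of_pos_left Λ (by omega)) (le_trans hG (Nat.log_le_self 2 _))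
  have hLx : 2 ^ (Nat.log 2 y + 1) ≤ 2 * y := by
    have := Nat.pow_log_le_self 2 (x := y) (by omega)
    rw [pow_succ]
    omega
  obtain ⟨L, hL⟩ : ∃ L, L = Nat.log 2 y + 1 := ⟨_, rfl⟩
  rw [← hL] at h3 hlog hsq hbig hX hΛL hLx
  set D := Nat.sqrt (2 * y) with hD
  have hD2 : D ^ 2 ≤ 4 * y := by
    have h5 : D ^ 2 ≤ 2 * y := Nat.sqrt_le' _
    omega
  have hDp : 1 ≤ D := Nat.sqrt_pos.2 (by omega)
  set S1 := ((Ioc x (x + y)).filter (fun n => n ≡ r [MOD W] ∧ ∀ a ∈ A, ∃ q : ℕ, q.Prime ∧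
      q ^ (2 * N + 4) ≤ 2 ^ L ∧ (q : ℤ) ∣ (n : ℤ) - a)) with hS1
  set S2 := ((Ioc x (x + y)).filter (fun n => n ≡ r [MOD W] ∧ ∀ a ∈ A, ∃ q : ℕ, q.Prime ∧
      q ^ N ≤ y ∧ (q : ℤ) ∣ (n : ℤ) - a ∧ (q : ℤ) < |(n : ℤ) - a|)) with hS2
  set R := ((Ioc x (x + y)).filter fun n : ℕ => ∃ a ∈ A, |(n : ℤ) - a| ≤ (D : ℤ)) with hR
  have hsub : S1 ⊆ S2 ∪ R := by
    intro n hn
    rw [hS1, mem_filter] at hn
    obtain ⟨hn1, hn2, hn3⟩ := hn
    rw [mem_union]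
    by_cases hnR : ∃ a ∈ A, |(n : ℤ) - a| ≤ (D : ℤ)
    · right
      exact mem_filter.2 ⟨hn1, hnR⟩
    · left
      push Not at hnR
      refine mem_filter.2 ⟨hn1, hn2, fun a ha => ?_⟩
      obtain ⟨q, hq, hq9, hq2⟩ := hn3 a ha
      have hq3 : 2 ≤ q := hq.two_le
      have hq4 : q ^ (2 * N + 4) = q ^ N * q ^ N * q ^ 4 := by
        rw [two_mul, pow_add, pow_add]
      have hq5 : 1 ≤ q ^ N := Nat.one_le_pow _ _ hq.pos
      have hq6 : 16 ≤ q ^ 4 := by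
        calc 16 = 2 ^ 4 := by norm_num
          _ ≤ q ^ 4 := Nat.pow_le_pow_left hq3 4
      have hq10 : q ^ 2 ≤ q ^ 4 := Nat.pow_le_pow_right hq.pos (by norm_num)
      have hq11 : q ^ N * 1 ≤ q ^ N * q ^ N := Nat.mul_le_mul_left _ hq5
      have hq7 : q ^ 4 ≤ q ^ N * q ^ N * q ^ 4 := Nat.le_mul_of_pos_left _ (by omega)
      have hq8 : q ^ N * q ^ N * 16 ≤ q ^ N * q ^ N * q ^ 4 := Nat.mul_le_mul_left _ hq6
      have hqD : q ≤ D := by
        rw [hD, Nat.le_sqrt']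
        omega
      refine ⟨q, hq, by omega, hq2, ?_⟩
      have h7 := hnR a ha
      have h8 : (q : ℤ) ≤ D := by exact_mod_cast hqD
      omega
  have hcard : S1.card ≤ S2.card + R.card := (card_le_card hsub).trans (card_union_le _ _)
  have hRc : R.card ≤ A.card * (2 * D + 1) := mainxb_rem _ A D
  have hDr : (D : ℝ) ≤ 2 * Real.sqrt y := by
    have h5 : ((D : ℝ)) ^ 2 ≤ 4 * y := by exact_mod_cast hD2
    have h6 : (D : ℝ) ≤ Real.sqrt (4 * y) := Real.le_sqrt_of_sq_le h5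
    have h7 : Real.sqrt (4 * y) = 2 * Real.sqrt y := by
      rw [Real.sqrt_mul (by norm_num)]
      congr 1
      rw [show (4 : ℝ) = 2 ^ 2 by norm_num]
      exact Real.sqrt_sq (by norm_num)
    rwa [h7] at h6
  have hΛr : (Λ : ℝ) ≤ L := by exact_mod_cast hΛL
  have hL0 : (0 : ℝ) ≤ L := Nat.cast_nonneg L
  have hlog0 : 0 ≤ Real.log y := Real.log_natCast_nonneg y
  have hsy : 0 ≤ Real.sqrt y := Real.sqrt_nonneg _
  have hyy : Real.sqrt y * Real.sqrt y = y := Real.mul_self_sqrt (Nat.cast_nonneg y)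
  have hRr : (R.card : ℝ) ≤ L * L * (6 * Real.sqrt y) := by
    have h5 : (R.card : ℝ) ≤ A.card * (2 * D + 1) := by exact_mod_cast hRc
    have hD1r : (1 : ℝ) ≤ D := by exact_mod_cast hDp
    have h8 : (A.card : ℝ) ≤ L * L :=
      hAc.trans (mul_le_mul hΛr hlog hlog0 hL0)
    refine h5.trans ?_
    exact mul_le_mul h8 (by linarith) (by positivity) (by positivity)
  have hER : Real.exp (Real.exp ((G1 : ℝ) * Λ)) * R.card ≤ y / 2 := by
    calc Real.exp (Real.exp ((G1 : ℝ) * Λ)) * R.card ≤ Real.exp (Real.sqrt L) * (L * L * (6 * Real.sqrt y)) :=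
          mul_le_mul (Real.exp_le_exp.2 hX) hRr (Nat.cast_nonneg _) (Real.exp_pos _).le
      _ = (12 * (L : ℝ) ^ 2 * Real.exp (Real.sqrt L)) * (Real.sqrt y / 2) := by ring
      _ ≤ Real.sqrt y * (Real.sqrt y / 2) := mul_le_mul_of_nonneg_right (hbig.trans hsq) (by positivity)
      _ = y / 2 := by rw [← mul_div_assoc, hyy]
  have hE := mainxb_E G1 Λ hΛ
  have hcr : (S1.card : ℝ) ≤ S2.card + R.card := by exact_mod_cast hcard
  have h4 : (y : ℝ) ≤ Real.exp (Real.exp ((G1 : ℝ) * Λ)) * (S2.card + R.card) :=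
    h3.trans (mul_le_mul_of_nonneg_left hcr (Real.exp_pos _).le)
  rw [mul_add] at h4
  have h5 : (y : ℝ) ≤ 2 * Real.exp (Real.exp ((G1 : ℝ) * Λ)) * S2.card := by
    rw [mul_assoc]
    linarith
  exact h5.trans (mul_le_mul_of_nonneg_right hE (Nat.cast_nonneg _))

end Pool.Agent.ES39
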