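import Pool.Agent.ES39.CoreX
import Pool.Agent.ES39.MainXA
import Pool.Agent.ES39.MainXB

/-! ES39/MainX.  The main theorem on intervals: `coreX`, `mainXA`, `mainXB` combined. -/

set_option autoImplicit false

open Finset

namespace Pool.Agent.ES39

open Classical in
theorem mainX (A0 W N : ℕ) (hA0 : 1 ≤ A0) (hW : 0 < W) :
    ∃ G y0 : ℕ, 1 ≤ G ∧ ∀ y : ℕ, y0 ≤ y → ∀ (x r : ℕ) (A : Finset ℤ) (Λ : ℕ), 1 ≤ Λ →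
      G * Λ ≤ Nat.log 2 (Nat.log 2 y + 1) →
      (∀ a ∈ A, |a| ≤ 2 ^ ((Nat.log 2 y + 1) ^ A0)) → (A.card : ℝ) ≤ Λ * Real.log y →
      (y : ℝ) ≤ Real.exp (Real.exp ((G : ℝ) * Λ)) *
        (((Ioc x (x + y)).filter (fun n => n ≡ r [MOD W] ∧ ∀ a ∈ A, ∃ q : ℕ, q.Prime ∧
          q ^ N ≤ y ∧ (q : ℤ) ∣ (n : ℤ) - a ∧ (q : ℤ) < |(n : ℤ) - a|)).card : ℝ) := by
  obtain ⟨G1, B1, l1, hG1, hcore⟩ := coreX A0 (2 * N + 4) hA0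
  obtain ⟨G2, y2, hG2, h2⟩ := mainXA A0 W (2 * N + 4) G1 B1 l1 hA0 hW hG1 hcore
  exact mainXB A0 W N G2 y2 hG2 h2

end Pool.Agent.ES39
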