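import Pool.Agent.ES39.Defs
import Pool.Agent.VOID.MomA

/-! ES39/MomP.  Preparations for the second moments.

`ZX_ge_one`: the diagonal sum is at least `1`.  `psX_out`: a new shift costs the factor `V2`.
`mixX`, `mixX1`: bounds for the mixed means. -/

set_option autoImplicit false

open Finset Pool.Agent.RS Pool.Agent.VOID

namespace Pool.Agent.ES39

variable {ι κ : Type} [Fintype ι] [DecidableEq ι] [DecidableEq κ] [Fintype κ]

omit [DecidableEq ι] in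
private theorem momp_PH {p : ι → ℕ} (hp : ∀ i, 2 ≤ p i) (S : Finset ι) : 0 < PH p S := by
  unfold PH
  refine Finset.prod_pos fun i _ => ?_
  have h1 : (2 : ℝ) ≤ (p i : ℝ) := by exact_mod_cast hp i
  linarith

private theorem momp_sq (ψ : ℤ → ℝ) (a : κ → ℤ) (σ : ι → Option κ) (n : ℤ) :
    Ps ψ a σ n ^ 2 = ∏ j ∈ Tc σ, ψ (n - a j) ^ 2 := by
  unfold Ps
  rw [Finset.prod_pow]

private theorem momp_nn {Q1 : ℕ} {ψ : ℤ → ℝ} {Wψ V2 : ℝ} {a : κ → ℤ} (hs : SX Q1 ψ Wψ V2 a)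
    (σ : ι → Option κ) (n : ℤ) : 0 ≤ Ps ψ a σ n := by
  unfold Ps
  exact Finset.prod_nonneg fun j _ => hs.nonneg _

private theorem momp_half {Q1 : ℕ} (F G : ℤ → ℝ) :
    mean Q1 (fun n => (F n + G n) / 2) = (mean Q1 F + mean Q1 G) / 2 := by
  have h1 : (fun n => (F n + G n) / 2) = fun n => (1 / 2) * (F n + G n) := by
    funext n
    ring
  rw [h1, mean_const_mul, mean_add]
  ring

theorem ZX_ge_one (p : ι → ℕ) (y : Finset ι → ℝ) (hp : ∀ i, 2 ≤ p i) (hy0 : y ∅ = 1) {D : ℝ}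
    (hD : 1 ≤ D) {m : Finset κ → ℝ} (hm : ∀ T, 0 ≤ m T) (hm0 : m ∅ = 1) : 1 ≤ ZX p y D m := by
  have h1 : ∀ σ : ι → Option κ, 0 ≤ Yd p y D σ ^ 2 / PH p (supp σ) * m (Tc σ) := fun σ =>
    mul_nonneg (div_nonneg (sq_nonneg _) (momp_PH hp _).le) (hm _)
  unfold ZX
  refine le_trans ?_ (Finset.single_le_sum (f := fun σ : ι → Option κ =>
    Yd p y D σ ^ 2 / PH p (supp σ) * m (Tc σ)) (fun σ _ => h1 σ)
    (mem_univ (fun _ => none : ι → Option κ)))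
  have e1 : supp (fun _ => none : ι → Option κ) = ∅ := by
    ext i
    simp [mem_supp]
  have e2 : ∀ j : κ, cell (fun _ => none : ι → Option κ) j = ∅ := by
    intro j
    ext i
    simp [mem_cell]
  have e3 : Tc (fun _ => none : ι → Option κ) = ∅ := by
    unfold Tc
    rw [Finset.filter_eq_empty_iff]
    intro j _ h
    exact h (e2 j)
  have e4 : Yd p y D (fun _ => none : ι → Option κ) = 1 := by
    unfold Yd
    rw [if_pos (by rw [e1, PP_empty]; exact hD)]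
    unfold Yt
    refine Finset.prod_eq_one fun j _ => ?_
    rw [e2, hy0]
  rw [e4, e1, e3, PH_empty, hm0]
  norm_num

theorem psX_out {Q1 : ℕ} {ψ : ℤ → ℝ} {Wψ V2 : ℝ} {a : κ → ℤ} (hs : SX Q1 ψ Wψ V2 a)
    (σ : ι → Option κ) (m : κ) (hm : m ∉ Tc σ) :
    mean Q1 (fun n => ψ (n - a m) * Ps ψ a σ n ^ 2) ≤ V2 * Me Q1 ψ a 2 (Tc σ) := by
  refine le_trans ?_ (hs.step2 (Tc σ) m hm)
  unfold Me
  refine mean_mono fun n => ?_
  rw [Finset.prod_insert hm, ← momp_sq]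
  exact mul_le_mul_of_nonneg_right (hs.le_sq _) (sq_nonneg _)

theorem mixX {Q1 : ℕ} (hQ : 0 < Q1) {ψ : ℤ → ℝ} {Wψ V2 : ℝ} {a : κ → ℤ}
    (hs : SX Q1 ψ Wψ V2 a) (σ σ' : ι → Option κ) :
    |mean Q1 (fun n => Ps ψ a σ n * Ps ψ a σ' n)| ≤ 1 := by
  have h0 : 0 ≤ mean Q1 (fun n => Ps ψ a σ n * Ps ψ a σ' n) :=
    mean_nonneg fun n => mul_nonneg (momp_nn hs σ n) (momp_nn hs σ' n)
  rw [abs_of_nonneg h0]
  have h1 : mean Q1 (fun n => Ps ψ a σ n * Ps ψ a σ' n) ≤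
      mean Q1 (fun n => (Ps ψ a σ n ^ 2 + Ps ψ a σ' n ^ 2) / 2) :=
    mean_mono fun n => by nlinarith [sq_nonneg (Ps ψ a σ n - Ps ψ a σ' n)]
  have h2 : ∀ σ : ι → Option κ, mean Q1 (fun n => Ps ψ a σ n ^ 2) ≤ 1 := by
    intro σ
    have h3 : (fun n => Ps ψ a σ n ^ 2) = fun n => ∏ j ∈ Tc σ, ψ (n - a j) ^ 2 :=
      funext fun n => momp_sq ψ a σ n
    rw [h3]
    exact hs.Me2_le_one hQ (Tc σ)
  rw [momp_half] at h1
  have h3 := h2 σ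
  have h4 := h2 σ'
  linarith

theorem mixX1 {Q1 : ℕ} (hQ : 0 < Q1) {ψ : ℤ → ℝ} {Wψ V2 : ℝ} {a : κ → ℤ}
    (hs : SX Q1 ψ Wψ V2 a) (m : κ) (σ σ' : ι → Option κ) (hσ : m ∉ Tc σ) (hσ' : m ∉ Tc σ') :
    |mean Q1 (fun n => ψ (n - a m) * (Ps ψ a σ n * Ps ψ a σ' n))| ≤ 1 := by
  have h0 : 0 ≤ mean Q1 (fun n => ψ (n - a m) * (Ps ψ a σ n * Ps ψ a σ' n)) :=
    mean_nonneg fun n => mul_nonneg (hs.nonneg _) (mul_nonneg (momp_nn hs σ n) (momp_nn hs σ' n))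
  rw [abs_of_nonneg h0]
  have h1 : mean Q1 (fun n => ψ (n - a m) * (Ps ψ a σ n * Ps ψ a σ' n)) ≤
      mean Q1 (fun n => (ψ (n - a m) * Ps ψ a σ n ^ 2 + ψ (n - a m) * Ps ψ a σ' n ^ 2) / 2) :=
    mean_mono fun n => by
      have h2 : Ps ψ a σ n * Ps ψ a σ' n ≤ (Ps ψ a σ n ^ 2 + Ps ψ a σ' n ^ 2) / 2 := by
        nlinarith [sq_nonneg (Ps ψ a σ n - Ps ψ a σ' n)]
      have h3 := mul_le_mul_of_nonneg_left h2 (hs.nonneg (n - a m))
      linarith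
  have h2 : ∀ σ : ι → Option κ, m ∉ Tc σ →
      mean Q1 (fun n => ψ (n - a m) * Ps ψ a σ n ^ 2) ≤ 1 := by
    intro σ hσ
    have h3 := psX_out hs σ m hσ
    have h4 : V2 * Me Q1 ψ a 2 (Tc σ) ≤ 1 * 1 :=
      mul_le_mul hs.V2_le_one (hs.Me2_le_one hQ _) (hs.Me_nonneg 2 _) zero_le_one
    linarith
  rw [momp_half] at h1
  have h3 := h2 σ hσ
  have h4 := h2 σ' hσ'
  linarith

end Pool.Agent.ES39
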