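import Pool.Agent.ES39.MomP
import Pool.Agent.VOID.MomC

/-! ES39/MomX.  Second moments.

`momX0`: lower bound for the mean of the square of the weight, with the exact diagonal terms;
`momX2`: upper bound for the mean of `ψ (n - a m) * F_m ^ 2`. -/

set_option autoImplicit false

open Finset Pool.Agent.RS Pool.Agent.VOID

namespace Pool.Agent.ES39

variable {ι κ : Type} [Fintype ι] [DecidableEq ι] [DecidableEq κ] [Fintype κ]

private theorem momx_Me (Q1 : ℕ) (ψ : ℤ → ℝ) (a : κ → ℤ) (σ : ι → Option κ) :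
    Me Q1 ψ a 2 (Tc σ) = mean Q1 (fun n => Ps ψ a σ n ^ 2) := by
  unfold Me Ps
  congr 1
  funext n
  exact Finset.prod_pow _ _ _

theorem momX0 {p : ι → ℕ} {Q1 : ℕ} {a : κ → ℤ} {z : ℝ} (h : Hy p Q1 a z) {ψ : ℤ → ℝ}
    {Wψ V2 : ℝ} (hs : SX Q1 ψ Wψ V2 a) {N : ℕ} {D : ℝ}
    (hN : ∀ S : Finset ι, PP p S ≤ D → S.card ≤ N) {y : Finset ι → ℝ} (hy1 : ∀ S, |y S| ≤ 1) :
    ZX p y D (Me Q1 ψ a 2) - offB κ p N z ≤
      mean (Q1 * ∏ i, p i) (fun n => GZ p a ψ (Yd p y D) n ^ 2) := by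
  have hN' : ∀ σ : ι → Option κ, Yd p y D σ ≠ 0 → (supp σ).card ≤ N := fun σ hσ =>
    hN _ (Yd_supp hσ)
  have h1 := quad h.two h.cop h.Q1pos h.copQ h.sep hs.per (F0 := fun _ => 1)
    (fun _ => rfl) (Yd p y D) (U := 1) (by norm_num) (by
      intro σ σ' _ _
      simp only [one_mul]
      exact mixX h.Q1pos hs σ σ')
  simp only [one_mul] at h1
  have h2 := off h.two h.zpos h.zle (Yd p y D) (Yd_abs hy1 D) hN'
  have h3 : ZX p y D (Me Q1 ψ a 2) =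
      ∑ σ, Yd p y D σ ^ 2 / PH p (supp σ) * mean Q1 (fun n => Ps ψ a σ n ^ 2) := by
    unfold ZX
    exact Finset.sum_congr rfl fun σ _ => by rw [momx_Me]
  have h4 := (abs_le.1 h1).1
  rw [h3]
  linarith

theorem momX2 {p : ι → ℕ} {Q1 : ℕ} {a : κ → ℤ} {z : ℝ} (h : Hy p Q1 a z) {ψ : ℤ → ℝ}
    {Wψ V2 : ℝ} (hs : SX Q1 ψ Wψ V2 a) {N : ℕ} {D : ℝ}
    (hN : ∀ S : Finset ι, PP p S ≤ D → S.card ≤ N) {y : Finset ι → ℝ} (hy1 : ∀ S, |y S| ≤ 1)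
    (hc1 : ∀ U, |cc p y D U| ≤ 1) (m : κ) :
    mean (Q1 * ∏ i, p i) (fun n => ψ (n - a m) * GZ p a ψ (Zm p y D m) n ^ 2) ≤
      V2 * (∑ σ, Zm p y D m σ ^ 2 / PH p (supp σ) * Me Q1 ψ a 2 (Tc σ)) +
        offB κ p N z := by
  classical
  have hPH : ∀ σ : ι → Option κ, 0 < PH p (supp σ) := fun σ =>
    lt_of_lt_of_le one_pos (one_le_PH h.two _)
  have hcard : ∀ σ, Zm p y D m σ ≠ 0 → (supp σ).card ≤ N := fun σ hσ =>
    hN _ (Zm_supp h.two y m σ hσ)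
  have hout : ∀ σ, Zm p y D m σ ≠ 0 → m ∉ Tc σ := by
    intro σ hz hm
    apply hz
    unfold Zm
    rw [if_neg]
    exact (Finset.mem_filter.1 hm).2
  have hF0 : Per Q1 (fun n => ψ (n - a m)) := by
    intro n
    have h1 := hs.per (n - a m)
    have h2 : n + (Q1 : ℤ) - a m = n - a m + (Q1 : ℤ) := by ring
    show ψ (n + (Q1 : ℤ) - a m) = ψ (n - a m)
    rw [h2]
    exact h1
  have h1 := quad h.two h.cop h.Q1pos h.copQ h.sep hs.per hF0 (Zm p y D m)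
    (U := 1) (by norm_num) fun σ σ' hσ hσ' =>
      mixX1 h.Q1pos hs m σ σ' (hout σ hσ) (hout σ' hσ')
  rw [one_mul] at h1
  have h2 := off h.two h.zpos h.zle (Zm p y D m) (Zm_abs y hy1 hc1 m) hcard
  have h3 : ∑ σ, Zm p y D m σ ^ 2 / PH p (supp σ) *
      mean Q1 (fun n => ψ (n - a m) * Ps ψ a σ n ^ 2) ≤
      V2 * (∑ σ, Zm p y D m σ ^ 2 / PH p (supp σ) * Me Q1 ψ a 2 (Tc σ)) := by
    rw [Finset.mul_sum]
    refine Finset.sum_le_sum fun σ _ => ?_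
    by_cases hz : Zm p y D m σ = 0
    · rw [hz]
      simp
    · have h4 := psX_out hs σ m (hout σ hz)
      have hq : 0 ≤ Zm p y D m σ ^ 2 / PH p (supp σ) := div_nonneg (sq_nonneg _) (hPH σ).le
      calc Zm p y D m σ ^ 2 / PH p (supp σ) *
            mean Q1 (fun n => ψ (n - a m) * Ps ψ a σ n ^ 2)
          ≤ Zm p y D m σ ^ 2 / PH p (supp σ) * (V2 * Me Q1 ψ a 2 (Tc σ)) :=
            mul_le_mul_of_nonneg_left h4 hq
        _ = V2 * (Zm p y D m σ ^ 2 / PH p (supp σ) * Me Q1 ψ a 2 (Tc σ)) := by ring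
  have h5 := (abs_le.1 h1).2
  linarith

end Pool.Agent.ES39
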