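import Mathlib

/-! ES39/Size.  The size of the shifts: if `(log y)^ε ≤ log H` then `2 (y + H) ≤ 2^(l^A0)` with
`l = Nat.log 2 H + 1`, for large `H`; `A0 = ⌈1/ε⌉₊ + 2`.

`log H ≤ l * log 2 ≤ l` (`H < 2^l`, `Nat.lt_pow_succ_log_self`).  If `y ≤ 1` trivial; else
`log y = ((log y)^ε)^(1/ε) ≤ (log H)^(1/ε) ≤ l^(1/ε) ≤ l^⌈1/ε⌉₊` (`Real.rpow_le_rpow`,
`Real.rpow_natCast`, `1 ≤ l`), so `y ≤ exp (l^k) ≤ 2^(2 l^k)`, `k = ⌈1/ε⌉₊` (`exp 1 ≤ 4`), and
`2 (y + H) ≤ 2 (2^(2 l^k) + 2^l) ≤ 2^(2 l^k + l + 2) ≤ 2^(l^(k+2))` for `l ≥ 3`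
(`l^(k+2) ≥ 9 l^k`, `l ≤ 2 l^k + ...`: note `k ≥ 1`, so `l ≤ l^k` and `2 ≤ l^k`). -/

set_option autoImplicit false

open Filter

namespace Pool.Agent.ES39

theorem size (ε : ℝ) (hε : 0 < ε) : ∃ A0 : ℕ, 1 ≤ A0 ∧ ∀ᶠ H : ℕ in atTop, ∀ y : ℕ,
    Real.log y ^ ε ≤ Real.log H → 2 * (y + H) ≤ 2 ^ ((Nat.log 2 H + 1) ^ A0) := by
  obtain ⟨k, hk⟩ : ∃ k : ℕ, k = ⌈1 / ε⌉₊ := ⟨_, rfl⟩
  have hk1 : 1 ≤ k := by
    have h0 : 0 < 1 / ε := by positivity
    rw [hk]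
    exact Nat.ceil_pos.mpr h0
  refine ⟨k + 2, by omega, ?_⟩
  filter_upwards [eventually_ge_atTop 8] with H hH y hy
  obtain ⟨l, hl⟩ : ∃ l : ℕ, l = Nat.log 2 H + 1 := ⟨_, rfl⟩
  rw [← hl]
  have hl4 : 4 ≤ l := by
    have : 3 ≤ Nat.log 2 H := Nat.le_log_of_pow_le (by norm_num) (by norm_num; exact hH)
    omega
  have hHl : H < 2 ^ l := by
    rw [hl]
    exact Nat.lt_pow_succ_log_self (by norm_num) H
  have hH0 : (0 : ℝ) < (H : ℝ) := by
    exact_mod_cast (by omega : 0 < H)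
  have hy2 : y ≤ 2 ^ (2 * l ^ k) := by
    rcases Nat.lt_or_ge y 2 with h | h
    · have : 1 ≤ 2 ^ (2 * l ^ k) := Nat.one_le_two_pow
      omega
    · have hy0 : (0 : ℝ) < (y : ℝ) := by exact_mod_cast (by omega : 0 < y)
      have hlogy : 0 < Real.log y := Real.log_pos (by exact_mod_cast (by omega : 1 < y))
      have hlogH : Real.log H ≤ l := by
        have h1 : Real.log H ≤ Real.log ((2 : ℝ) ^ l) :=
          Real.log_le_log hH0 (by exact_mod_cast hHl.le)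
        rw [Real.log_pow] at h1
        have h2 : Real.log 2 ≤ 1 := by linarith [Real.log_two_lt_d9]
        calc Real.log H ≤ l * Real.log 2 := h1
          _ ≤ l * 1 := by gcongr
          _ = l := mul_one _
      have h3 : Real.log y ≤ (l : ℝ) ^ k := by
        have h4 : Real.log y = (Real.log y ^ ε) ^ (1 / ε) := by
          rw [← Real.rpow_mul hlogy.le, mul_one_div_cancel hε.ne', Real.rpow_one]
        rw [h4]
        calc (Real.log y ^ ε) ^ (1 / ε) ≤ (l : ℝ) ^ (1 / ε) :=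
              Real.rpow_le_rpow (by positivity) (hy.trans hlogH) (by positivity)
          _ ≤ (l : ℝ) ^ (k : ℝ) :=
              Real.rpow_le_rpow_of_exponent_le (by exact_mod_cast (by omega : 1 ≤ l))
                (by rw [hk]; exact Nat.le_ceil _)
          _ = (l : ℝ) ^ k := Real.rpow_natCast _ _
      have h5 : (y : ℝ) ≤ Real.exp ((l : ℝ) ^ k) := (Real.log_le_iff_le_exp hy0).mp h3
      have h6 : Real.exp ((l : ℝ) ^ k) ≤ (2 : ℝ) ^ (2 * l ^ k) := by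
        have e1 : ((l : ℝ) ^ k) = ((l ^ k : ℕ) : ℝ) * 1 := by push_cast; ring
        rw [e1, Real.exp_nat_mul, pow_mul]
        have e2 : Real.exp 1 ≤ 2 ^ 2 := by
          have := Real.exp_one_lt_d9
          norm_num
          linarith
        gcongr
      exact_mod_cast h5.trans h6
  have hlk : l ≤ l ^ k := by
    calc l = l ^ 1 := (pow_one l).symm
      _ ≤ l ^ k := Nat.pow_le_pow_right (by omega) hk1
  have hH2 : H ≤ 2 ^ (2 * l ^ k) :=
    hHl.le.trans (Nat.pow_le_pow_right (by norm_num) (by omega))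
  have hfin : 2 * l ^ k + 2 ≤ l ^ (k + 2) := by
    have e : l ^ (k + 2) = l ^ k * (l * l) := by ring
    have e2 : 16 ≤ l * l := by nlinarith
    have e3 : l ^ k * 16 ≤ l ^ k * (l * l) := Nat.mul_le_mul_left _ e2
    omega
  calc 2 * (y + H) ≤ 2 * (2 ^ (2 * l ^ k) + 2 ^ (2 * l ^ k)) := by omega
    _ = 2 ^ (2 * l ^ k + 2) := by ring
    _ ≤ 2 ^ (l ^ (k + 2)) := Nat.pow_le_pow_right (by norm_num) hfin

end Pool.Agent.ES39
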