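import Pool.Agent.VOID.MainB

set_option autoImplicit false

namespace Pool.Agent.ES39.SparseOld

open Finset Filter

/-- `TwinIndex q`: `q` is prime and `p_{q+2} + 2` is prime, where `p_k` is the `k`-th prime
(`p_1 = 2`); note that `Nat.nth Nat.Prime (k - 1)` is `p_k`. -/
def TwinIndex (q : ℕ) : Prop := q.Prime ∧ (Nat.nth Nat.Prime (q + 1) + 2).Prime

/-- `Witness n q`: the prime `q` witnesses the assertion of Q1 at `n`, i.e. `2 n - q` and
`p_{q+2} + 2` are both prime. -/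
def Witness (n q : ℕ) : Prop := TwinIndex q ∧ ∃ r : ℕ, r.Prime ∧ q + r = 2 * n

open Classical in
/-- the number of primes `q ≤ R` with `p_{q+2} + 2` prime which lie in none of the classes
`a ℓ mod ℓ`, `ℓ ∈ S` -/
noncomputable def T (S : Finset ℕ) (a : ℕ → ℕ) (R : ℕ) : ℕ :=
  ((Finset.Icc 1 R).filter (fun q => TwinIndex q ∧ ∀ ℓ ∈ S, ¬ q ≡ a ℓ [MOD ℓ])).card

open Classical in
/-- the number of `n` with `3 ≤ n ≤ x` which have no witness `q ≤ R` -/
noncomputable def unwitnessed (x R : ℕ) : ℕ :=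
  ((Finset.Icc 3 x).filter (fun n => ∀ q ≤ R, ¬ Witness n q)).card

open Classical in
/-- the number of `n ≤ x` which are not the sum of an element of `A` and a prime -/
noncomputable def notSum (A : Set ℕ) (x : ℕ) : ℕ :=
  ((Finset.Icc 1 x).filter (fun n => ∀ a ∈ A, ∀ r : ℕ, r.Prime → a + r ≠ n)).card

theorem coprime_two (S : Finset ℕ) (hS : ∀ ℓ ∈ S, ℓ.Prime ∧ ℓ ≠ 2) :
    Nat.Coprime 2 (∏ ℓ ∈ S, ℓ) := by
  refine Nat.Coprime.prod_right fun ℓ hℓ => ?_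
  exact (Nat.coprime_primes Nat.prime_two (hS ℓ hℓ).1).2 (fun h => (hS ℓ hℓ).2 h.symm)

/-- an even class mod `2 ∏ ℓ` which is `a ℓ mod ℓ` -/
theorem exists_residue (S : Finset ℕ) (hS : ∀ ℓ ∈ S, ℓ.Prime ∧ ℓ ≠ 2) (a : ℕ → ℕ) :
    ∃ s : ℕ, s % 2 = 0 ∧ ∀ ℓ ∈ S, s ≡ a ℓ [MOD ℓ] := by
  have hcop : Set.Pairwise (↑S : Set ℕ) (Function.onFun Nat.Coprime (id : ℕ → ℕ)) := by
    intro i hi j hj hij
    exact (Nat.coprime_primes (hS i hi).1 (hS j hj).1).2 hij
  obtain ⟨k, hk⟩ := Nat.chineseRemainderOfFinset (fun ℓ => a ℓ) (id : ℕ → ℕ) S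
      (fun i hi => (hS i hi).1.ne_zero) hcop
  obtain ⟨s, hs1, hs2⟩ := Nat.chineseRemainder (coprime_two S hS) 0 k
  exact ⟨s, hs1, fun ℓ hℓ => (hs2.of_dvd (Finset.dvd_prod_of_mem _ hℓ)).trans (hk ℓ hℓ)⟩

/-- a prime is not killed -/
theorem not_killed {m a r : ℕ} (hr : r.Prime) (h : a + r = m)
    (hk : ∃ q : ℕ, q.Prime ∧ q ^ 1 ≤ m ∧ (q : ℤ) ∣ (m : ℤ) - (a : ℤ) ∧
      (q : ℤ) < |(m : ℤ) - (a : ℤ)|) : False := by
  obtain ⟨q, hq, -, hdvd, hlt⟩ := hk
  have he : (m : ℤ) - a = r := by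
    rw [← h]; push_cast; ring
  rw [he] at hdvd hlt
  rw [abs_of_nonneg (Int.natCast_nonneg r)] at hlt
  have h4 : q ∣ r := by exact_mod_cast hdvd
  have h5 : q = r := (Nat.prime_dvd_prime_iff_eq hq hr).1 h4
  have h6 : q < r := by exact_mod_cast hlt
  omega

theorem few (k : ℕ) {c : ℝ} (hc : 0 < c) :
    ∀ᶠ x : ℕ in atTop, (k : ℝ) * ((2 * x).primeCounting : ℝ) ≤ c * x := by
  have hε : 0 < 2 - Real.log 4 := by
    have : Real.log 4 = 2 * Real.log 2 := by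
      rw [show (4 : ℝ) = 2 ^ 2 by norm_num, Real.log_pow]; norm_num
    have := Real.log_two_lt_d9
    linarith
  have h1 : Tendsto (fun x : ℕ => 2 * (x : ℝ)) atTop atTop :=
    tendsto_natCast_atTop_atTop.const_mul_atTop two_pos
  have h2 := h1.eventually (Chebyshev.eventually_primeCounting_le hε)
  have h3 := (Real.tendsto_log_atTop.comp h1).eventually_ge_atTop (4 * k / c + 1)
  filter_upwards [h2, h3] with x h4 h5
  have e : ⌊2 * (x : ℝ)⌋₊ = 2 * x := by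
    rw [show 2 * (x : ℝ) = ((2 * x : ℕ) : ℝ) by push_cast; ring, Nat.floor_natCast]
  rw [e] at h4
  simp only [Function.comp] at h5
  have h6 : 0 < Real.log (2 * (x : ℝ)) := lt_of_lt_of_le (by positivity) h5
  have h7 : (Real.log 4 + (2 - Real.log 4)) * (2 * (x : ℝ)) / Real.log (2 * (x : ℝ)) =
      4 * x / Real.log (2 * (x : ℝ)) := by ring
  rw [h7] at h4
  have h8 : 4 * (k : ℝ) / c ≤ Real.log (2 * (x : ℝ)) := by linarith
  rw [div_le_iff₀ hc] at h8
  calc (k : ℝ) * ((2 * x).primeCounting : ℝ) ≤ k * (4 * x / Real.log (2 * (x : ℝ))) :=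
        mul_le_mul_of_nonneg_left h4 (Nat.cast_nonneg k)
    _ = (4 * k) * x / Real.log (2 * (x : ℝ)) := by ring
    _ ≤ (Real.log (2 * (x : ℝ)) * c) * x / Real.log (2 * (x : ℝ)) := by
        apply div_le_div_of_nonneg_right _ h6.le
        exact mul_le_mul_of_nonneg_right h8 (Nat.cast_nonneg x)
    _ = c * x := by field_simp

theorem part_one (Λ : ℝ) (S : Finset ℕ) (hS : ∀ ℓ ∈ S, ℓ.Prime ∧ ℓ ≠ 2) :
    ∃ c : ℝ, 0 < c ∧ ∀ᶠ x : ℕ in atTop, ∀ (a : ℕ → ℕ) (R : ℕ),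
      (T S a R : ℝ) ≤ Λ * Real.log x → c * x ≤ unwitnessed x R := by
  classical
  have hW : 0 < 2 * ∏ ℓ ∈ S, ℓ :=
    Nat.mul_pos two_pos (prod_pos fun ℓ hℓ => (hS ℓ hℓ).1.pos)
  obtain ⟨c, hc, y0, h⟩ := VOID.mainV (|Λ| + 1) (by positivity) (2 * ∏ ℓ ∈ S, ℓ) 1 2 hW
    (by norm_num)
  refine ⟨c / 2, by positivity, ?_⟩
  filter_upwards [few S.card (half_pos hc), eventually_ge_atTop y0, eventually_ge_atTop 6]
    with x hfew hx0 hx6 a R hT
  obtain ⟨s, hs2, hsa⟩ := exists_residue S hS a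
  have hlog0 : 0 ≤ Real.log (x : ℝ) := Real.log_natCast_nonneg x
  set B : Finset ℕ := (Icc 1 (min R (2 * x))).filter
    (fun q => TwinIndex q ∧ ∀ ℓ ∈ S, ¬ q ≡ a ℓ [MOD ℓ]) with hB
  set A : Finset ℤ := B.image (fun q : ℕ => (q : ℤ)) with hA
  have hcard : (A.card : ℝ) ≤ (|Λ| + 1) * Real.log x := by
    have h1 : A.card ≤ B.card := card_image_le
    have h2 : B.card ≤ T S a R := by
      unfold T
      apply card_le_card
      intro q hq
      rw [hB, mem_filter, mem_Icc] at hq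
      rw [mem_filter, mem_Icc]
      exact ⟨⟨hq.1.1, hq.1.2.trans (min_le_left _ _)⟩, hq.2⟩
    have h3 : (A.card : ℝ) ≤ T S a R := by exact_mod_cast h1.trans h2
    have h4 : Λ * Real.log x ≤ |Λ| * Real.log x :=
      mul_le_mul_of_nonneg_right (le_abs_self Λ) hlog0
    linarith
  have hmain := h x hx0 x s A (Nat.le_self_pow (by norm_num) x) (by
    intro b hb
    rw [hA, mem_image] at hb
    obtain ⟨q, hq, rfl⟩ := hb
    rw [hB, mem_filter, mem_Icc] at hq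
    rw [abs_of_nonneg (Int.natCast_nonneg q)]
    have h1 : q ≤ 2 * x := hq.1.2.trans (min_le_right _ _)
    have h2 : q ≤ x ^ 2 := by nlinarith
    exact_mod_cast h2) hcard
  set G : Finset ℕ := (Ioc x (x + x)).filter (fun n => n ≡ s [MOD 2 * ∏ ℓ ∈ S, ℓ] ∧
    ∀ a ∈ A, ∃ q : ℕ, q.Prime ∧ q ^ 1 ≤ x ∧ (q : ℤ) ∣ (n : ℤ) - a ∧
      (q : ℤ) < |(n : ℤ) - a|) with hG
  set U : Finset ℕ := (Icc 3 x).filter (fun n => ∀ q ≤ R, ¬ Witness n q) with hU
  set E : Finset ℕ := S.biUnion (fun ℓ =>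
    ((Icc 1 (2 * x)).filter Nat.Prime).image (fun q => q + ℓ)) with hE
  have hEcard : (E.card : ℝ) ≤ c / 2 * x := by
    refine le_trans ?_ hfew
    have h1 : E.card ≤ S.card * (2 * x).primeCounting := by
      rw [hE]
      apply card_biUnion_le_card_mul
      intro ℓ _
      refine card_image_le.trans ?_
      rw [Nat.primeCounting, Nat.primeCounting', Nat.count_eq_card_filter_range]
      apply card_le_card
      intro q hq
      rw [mem_filter, mem_Icc] at hq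
      rw [mem_filter, mem_range]
      exact ⟨by omega, hq.2⟩
    exact_mod_cast h1
  have hsub : G ⊆ (U.image (fun n => 2 * n)) ∪ E := by
    intro m hm
    rw [hG, mem_filter, mem_Ioc] at hm
    obtain ⟨⟨hm1, hm2⟩, hms, hm3⟩ := hm
    rw [mem_union]
    by_contra hcon
    push Not at hcon
    obtain ⟨hmU, hmE⟩ := hcon
    have hm_even : m % 2 = 0 := by
      have h1 : m ≡ s [MOD 2] := hms.of_dvd (dvd_mul_right _ _)
      rw [Nat.ModEq] at h1
      omega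
    apply hmU
    rw [mem_image]
    refine ⟨m / 2, ?_, by omega⟩
    rw [hU, mem_filter, mem_Icc]
    refine ⟨by omega, ?_⟩
    rintro q hq ⟨hqT, r, hr, hqr⟩
    have hqm : q + r = m := by omega
    have hq1 : 1 ≤ q := hqT.1.one_lt.le
    by_cases hcl : ∀ ℓ ∈ S, ¬ q ≡ a ℓ [MOD ℓ]
    · have hqA : (q : ℤ) ∈ A := by
        rw [hA, mem_image]
        refine ⟨q, ?_, rfl⟩
        rw [hB, mem_filter, mem_Icc]
        exact ⟨⟨hq1, le_min hq (by omega)⟩, hqT, hcl⟩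
      obtain ⟨q', h1, h2, h3, h4⟩ := hm3 q hqA
      exact not_killed hr hqm ⟨q', h1, by omega, h3, h4⟩
    · push Not at hcl
      obtain ⟨ℓ, hℓ, hqℓ⟩ := hcl
      have h1 : m ≡ q [MOD ℓ] := by
        have h0 : ℓ ∣ ∏ ℓ ∈ S, ℓ := dvd_prod_of_mem (fun ℓ => ℓ) hℓ
        have h2 : m ≡ s [MOD ℓ] := hms.of_dvd (h0.trans (dvd_mul_left _ _))
        exact (h2.trans (hsa ℓ hℓ)).trans hqℓ.symm
      have h2 : ℓ ∣ r := by
        have h3 := (Nat.modEq_iff_dvd' (by omega : q ≤ m)).1 h1.symm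
        have h4 : m - q = r := by omega
        rwa [h4] at h3
      have h3 : ℓ = r := (Nat.prime_dvd_prime_iff_eq (hS ℓ hℓ).1 hr).1 h2
      apply hmE
      rw [hE, mem_biUnion]
      refine ⟨ℓ, hℓ, ?_⟩
      rw [mem_image]
      refine ⟨q, ?_, by omega⟩
      rw [mem_filter, mem_Icc]
      exact ⟨⟨hq1, by omega⟩, hqT.1⟩
  have hle : (G.card : ℝ) ≤ U.card + E.card := by
    have h1 := (card_le_card hsub).trans (card_union_le _ _)
    have h2 : (U.image (fun n => 2 * n)).card ≤ U.card := card_image_le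
    exact_mod_cast h1.trans (Nat.add_le_add_right h2 _)
  have hUeq : (unwitnessed x R : ℝ) = U.card := rfl
  rw [hUeq]
  linarith

theorem part_two (Λ : ℝ) :
    ∃ c : ℝ, 0 < c ∧ ∀ᶠ x : ℕ in atTop, ∀ A : Set ℕ,
      ((A ∩ Set.Icc 1 x).ncard : ℝ) ≤ Λ * Real.log x → c * x ≤ notSum A x := by
  classical
  obtain ⟨c, hc, y0, h⟩ := VOID.mainV (2 * |Λ| + 1) (by positivity) 1 1 2 one_pos
    (by norm_num)
  refine ⟨c / 3, by positivity, ?_⟩
  filter_upwards [eventually_ge_atTop (2 * y0), eventually_ge_atTop 9] with x hx0 hx9 A' hT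
  obtain ⟨y, hy⟩ : ∃ y, y = x / 2 := ⟨_, rfl⟩
  have hy4 : 4 ≤ y := by omega
  have hyr : (4 : ℝ) ≤ y := by exact_mod_cast hy4
  have hlog1 : 1 ≤ Real.log y := by
    rw [← Real.log_exp 1]
    apply Real.log_le_log (Real.exp_pos 1)
    have := Real.exp_one_lt_d9
    linarith
  have hxy : x ≤ 2 * y + 1 := by omega
  have hxyr : (x : ℝ) ≤ 2 * y + 1 := by exact_mod_cast hxy
  have hx9r : (9 : ℝ) ≤ x := by exact_mod_cast hx9
  have hlogx : Real.log x ≤ 2 * Real.log y := by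
    have h1 : (2 : ℝ) * Real.log y = Real.log ((y : ℝ) ^ 2) := by rw [Real.log_pow]; norm_num
    rw [h1]
    apply Real.log_le_log (by linarith)
    nlinarith
  set B : Finset ℕ := (range (2 * y + 1)).filter (fun a => a ∈ A') with hB
  set A : Finset ℤ := B.image (fun q : ℕ => (q : ℤ)) with hA
  have hcard : (A.card : ℝ) ≤ (2 * |Λ| + 1) * Real.log y := by
    have h1 : A.card ≤ B.card := card_image_le
    have h2 : B ⊆ insert 0 ((Set.finite_Icc 1 x).inter_of_right A').toFinset := by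
      intro a ha
      rw [hB, mem_filter, mem_range] at ha
      rw [mem_insert, Set.Finite.mem_toFinset]
      rcases Nat.eq_zero_or_pos a with h0 | h0
      · exact Or.inl h0
      · exact Or.inr ⟨ha.2, by rw [Set.mem_Icc]; omega⟩
    have h3 : B.card ≤ (A' ∩ Set.Icc 1 x).ncard + 1 := by
      refine (card_le_card h2).trans ((card_insert_le _ _).trans ?_)
      rw [Set.ncard_eq_toFinset_card _ ((Set.finite_Icc 1 x).inter_of_right A')]
    have h5 : (A.card : ℝ) ≤ ((A' ∩ Set.Icc 1 x).ncard : ℝ) + 1 := by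
      exact_mod_cast h1.trans h3
    have h7 : Λ * Real.log x ≤ |Λ| * (2 * Real.log y) := by
      calc Λ * Real.log x ≤ |Λ| * Real.log x :=
            mul_le_mul_of_nonneg_right (le_abs_self Λ) (Real.log_natCast_nonneg x)
        _ ≤ _ := mul_le_mul_of_nonneg_left hlogx (abs_nonneg Λ)
    linarith
  have hmain := h y (by omega) y 0 A (Nat.le_self_pow (by norm_num) y) (by
    intro b hb
    rw [hA, mem_image] at hb
    obtain ⟨q, hq, rfl⟩ := hb
    rw [hB, mem_filter, mem_range] at hq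
    rw [abs_of_nonneg (Int.natCast_nonneg q)]
    have h2 : q ≤ y ^ 2 := by nlinarith [hq.1]
    exact_mod_cast h2) hcard
  have hsub : (Ioc y (y + y)).filter (fun n => n ≡ 0 [MOD 1] ∧ ∀ a ∈ A, ∃ q : ℕ, q.Prime ∧
      q ^ 1 ≤ y ∧ (q : ℤ) ∣ (n : ℤ) - a ∧ (q : ℤ) < |(n : ℤ) - a|) ⊆
      (Icc 1 x).filter (fun n => ∀ a ∈ A', ∀ r : ℕ, r.Prime → a + r ≠ n) := by
    intro n hn
    rw [mem_filter, mem_Ioc] at hn
    rw [mem_filter, mem_Icc]
    refine ⟨by omega, ?_⟩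
    intro a ha r hr har
    have haA : (a : ℤ) ∈ A := by
      rw [hA, mem_image]
      refine ⟨a, ?_, rfl⟩
      rw [hB, mem_filter, mem_range]
      exact ⟨by omega, ha⟩
    obtain ⟨q', h1, h2, h3, h4⟩ := hn.2.2 a haA
    exact not_killed hr har ⟨q', h1, by omega, h3, h4⟩
  have hfin : c * (y : ℝ) ≤ notSum A' x := by
    refine hmain.trans ?_
    unfold notSum
    exact_mod_cast card_le_card hsub
  refine le_trans ?_ hfin
  have h1 : (x : ℝ) / 3 ≤ y := by linarith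
  calc c / 3 * (x : ℝ) = c * (x / 3) := by ring
    _ ≤ c * y := mul_le_mul_of_nonneg_left h1 hc.le

theorem result (Λ : ℝ) :
    (∀ S : Finset ℕ, (∀ ℓ ∈ S, ℓ.Prime ∧ ℓ ≠ 2) →
      ∃ c : ℝ, 0 < c ∧ ∀ᶠ x : ℕ in atTop, ∀ (a : ℕ → ℕ) (R : ℕ),
        (T S a R : ℝ) ≤ Λ * Real.log x → c * x ≤ unwitnessed x R) ∧
    (∃ c : ℝ, 0 < c ∧ ∀ᶠ x : ℕ in atTop, ∀ A : Set ℕ,
      ((A ∩ Set.Icc 1 x).ncard : ℝ) ≤ Λ * Real.log x → c * x ≤ notSum A x) :=
  ⟨part_one Λ, part_two Λ⟩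

end Pool.Agent.ES39.SparseOld
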