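import Pool.Agent.ES39.Defs
import Pool.Agent.VOID.Sup

/-! ES39/SupX.  Pointwise bound for the fourth power of the weight.

The absolute value of the weight is at most the product over `j` of `1 + ψ_j (uu - 1)`; the fourth power of a factor is at most
`1 + ψ_j ^ 4 (uu ^ 4 - 1)` since `ψ_j` is `0` or at least `1`. -/

set_option autoImplicit false

open Finset Pool.Agent.RS Pool.Agent.VOID

namespace Pool.Agent.ES39

variable {ι κ : Type} [Fintype ι] [DecidableEq ι] [DecidableEq κ] [Fintype κ]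

open Classical in
private theorem SupX_term {p : ι → ℕ} (a : κ → ℤ) {ψ : ℤ → ℝ} (y : Finset ι → ℝ) (hy0 : y ∅ = 1)
    (D : ℝ) (n : ℤ) (hψ : ∀ m, 0 ≤ ψ m) (σ : ι → Option κ) :
    |Yd p y D σ * (Ps ψ a σ n * EE p a σ n)| ≤
      ∏ j, (if cell σ j = ∅ then 1 else
        |y (cell σ j)| * ψ (n - a j) * ∏ i ∈ cell σ j, |ee (p i) (n - a j)|) := by
  have h1 : |Yd p y D σ| ≤ ∏ j, |y (cell σ j)| := by
    rw [← abs_prod]
    unfold Yd
    split_ifs
    · exact le_rfl
    · rw [abs_zero]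
      exact abs_nonneg _
  have h2 : |Ps ψ a σ n| = ∏ j, (if cell σ j = ∅ then 1 else ψ (n - a j)) := by
    have h2' : Ps ψ a σ n = ∏ j, (if cell σ j = ∅ then 1 else ψ (n - a j)) := by
      unfold Ps Tc
      rw [prod_filter]
      refine prod_congr rfl fun j _ => ?_
      by_cases h : cell σ j = ∅
      · simp [h]
      · simp [h]
    rw [h2', abs_of_nonneg]
    refine prod_nonneg fun j _ => ?_
    split_ifs
    · exact zero_le_one
    · exact hψ _
  have h3 : |EE p a σ n| = ∏ j, ∏ i ∈ cell σ j, |ee (p i) (n - a j)| := by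
    unfold EE cell
    rw [abs_prod]
    simp only [prod_filter]
    rw [prod_comm]
    refine prod_congr rfl fun i _ => ?_
    cases h : σ i with
    | none => simp [eo]
    | some j0 =>
      rw [prod_eq_single j0]
      · simp [eo]
      · intro b _ hb
        rw [if_neg]
        intro h'
        exact hb (Option.some.inj h').symm
      · intro h'
        exact absurd (mem_univ _) h'
  rw [abs_mul, abs_mul, h2, h3]
  have h4 : ∏ j, (if cell σ j = ∅ then (1 : ℝ) else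
        |y (cell σ j)| * ψ (n - a j) * ∏ i ∈ cell σ j, |ee (p i) (n - a j)|) =
      (∏ j, |y (cell σ j)|) * ((∏ j, (if cell σ j = ∅ then 1 else ψ (n - a j))) *
        ∏ j, ∏ i ∈ cell σ j, |ee (p i) (n - a j)|) := by
    rw [← prod_mul_distrib, ← prod_mul_distrib]
    refine prod_congr rfl fun j _ => ?_
    by_cases h : cell σ j = ∅
    · simp [h, hy0]
    · rw [if_neg h, if_neg h]
      ring
  rw [h4]
  refine mul_le_mul_of_nonneg_right h1 (mul_nonneg ?_ ?_)
  · refine prod_nonneg fun j _ => ?_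
    split_ifs
    · exact zero_le_one
    · exact hψ _
  · exact prod_nonneg fun j _ => prod_nonneg fun i _ => abs_nonneg _

omit [DecidableEq ι] [Fintype κ] in
private theorem SupX_inj : Function.Injective (fun (σ : ι → Option κ) (j : κ) => cell σ j) := by
  intro σ τ h
  funext i
  have h1 : ∀ j, σ i = some j ↔ τ i = some j := by
    intro j
    have h2 := congrFun h j
    simp only at h2
    rw [← mem_cell, ← mem_cell, h2]
  cases hs : σ i with
  | none =>
    cases ht : τ i with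
    | none => rfl
    | some j =>
      have := (h1 j).2 ht
      rw [hs] at this
      exact absurd this (by simp)
  | some j => exact ((h1 j).1 hs).symm

theorem one_le_uu (p : ι → ℕ) (b n : ℤ) : 1 ≤ uu p b n := by
  unfold uu
  calc (1 : ℝ) = ∏ _i : ι, (1 : ℝ) := prod_const_one.symm
    _ ≤ ∏ i, (1 + |ee (p i) (n - b)|) :=
        prod_le_prod (fun _ _ => zero_le_one) fun i _ => by linarith [abs_nonneg (ee (p i) (n - b))]

open Classical in
theorem uu_expand (p : ι → ℕ) (b n : ℤ) :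
    ∑ S ∈ (univ : Finset (Finset ι)).filter (fun S => S ≠ ∅), ∏ i ∈ S, |ee (p i) (n - b)| =
      uu p b n - 1 := by
  unfold uu
  rw [prod_one_add, powerset_univ, ← add_sum_erase (univ : Finset (Finset ι)) _ (mem_univ ∅),
    prod_empty, add_sub_cancel_left]
  refine sum_congr ?_ fun _ _ => rfl
  ext S
  simp

theorem supX_abs {p : ι → ℕ} (a : κ → ℤ) {ψ : ℤ → ℝ} (y : Finset ι → ℝ) (hy0 : y ∅ = 1)
    (hy1 : ∀ S, |y S| ≤ 1) (D : ℝ) (n : ℤ) (hψ : ∀ m, 0 ≤ ψ m) :
    |GZ p a ψ (Yd p y D) n| ≤ ∏ j, (1 + ψ (n - a j) * (uu p (a j) n - 1)) := by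
  classical
  set w : κ → Finset ι → ℝ := fun j S => if S = ∅ then 1 else
    |y S| * ψ (n - a j) * ∏ i ∈ S, |ee (p i) (n - a j)| with hw
  have hw0 : ∀ j S, 0 ≤ w j S := by
    intro j S
    simp only [hw]
    split_ifs
    · exact zero_le_one
    · exact mul_nonneg (mul_nonneg (abs_nonneg _) (hψ _)) (prod_nonneg fun i _ => abs_nonneg _)
  have h1 : |GZ p a ψ (Yd p y D) n| ≤ ∑ σ : ι → Option κ, ∏ j, w j (cell σ j) := by
    unfold GZ
    refine (abs_sum_le_sum_abs _ _).trans (sum_le_sum fun σ _ => ?_)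
    exact SupX_term a y hy0 D n hψ σ
  have h2 : ∑ σ : ι → Option κ, ∏ j, w j (cell σ j) ≤
      ∑ f : κ → Finset ι, ∏ j, w j (f j) := by
    have h3 : ∑ σ : ι → Option κ, ∏ j, w j (cell σ j) =
        ∑ f ∈ (univ : Finset (ι → Option κ)).map ⟨_, SupX_inj⟩, ∏ j, w j (f j) := by
      rw [sum_map]
      rfl
    rw [h3]
    exact sum_le_sum_of_subset_of_nonneg (subset_univ _)
      fun f _ _ => prod_nonneg fun j _ => hw0 j _
  have h3 : ∑ f : κ → Finset ι, ∏ j, w j (f j) = ∏ j, ∑ S, w j S := by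
    rw [prod_univ_sum, Fintype.piFinset_univ]
  have h4 : ∀ j, ∑ S, w j S ≤ 1 + ψ (n - a j) * (uu p (a j) n - 1) := by
    intro j
    have h5 : ∑ S, w j S = 1 + ψ (n - a j) *
        ∑ S ∈ (univ : Finset (Finset ι)).filter (fun S => S ≠ ∅),
          |y S| * ∏ i ∈ S, |ee (p i) (n - a j)| := by
      rw [← add_sum_erase (univ : Finset (Finset ι)) (w j) (mem_univ ∅), mul_sum]
      have hw1 : w j ∅ = 1 := by simp [hw]
      have hw2 : ∑ S ∈ univ.erase ∅, w j S =
          ∑ S ∈ (univ : Finset (Finset ι)).filter (fun S => S ≠ ∅),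
            ψ (n - a j) * (|y S| * ∏ i ∈ S, |ee (p i) (n - a j)|) := by
        refine sum_congr ?_ fun S hS => ?_
        · ext S
          simp
        · have hS' : S ≠ ∅ := (mem_filter.1 hS).2
          simp only [hw]
          rw [if_neg hS']
          ring
      rw [hw1, hw2]
    have h6 : ∑ S ∈ (univ : Finset (Finset ι)).filter (fun S => S ≠ ∅),
        |y S| * ∏ i ∈ S, |ee (p i) (n - a j)| ≤ uu p (a j) n - 1 := by
      rw [← uu_expand p (a j) n]
      refine sum_le_sum fun S _ => ?_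
      exact mul_le_of_le_one_left (prod_nonneg fun i _ => abs_nonneg _) (hy1 S)
    rw [h5]
    have h7 := mul_le_mul_of_nonneg_left h6 (hψ (n - a j))
    linarith
  calc |GZ p a ψ (Yd p y D) n| ≤ ∏ j, ∑ S, w j S := h1.trans (h2.trans_eq h3)
    _ ≤ ∏ j, (1 + ψ (n - a j) * (uu p (a j) n - 1)) :=
        prod_le_prod (fun j _ => sum_nonneg fun S _ => hw0 j S) fun j _ => h4 j

private theorem SupX_four {x u : ℝ} (hx : x = 0 ∨ 1 ≤ x) (hu : 1 ≤ u) :
    (1 + x * (u - 1)) ^ 4 ≤ 1 + x ^ 4 * (u ^ 4 - 1) := by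
  rcases hx with rfl | hx
  · norm_num
  · obtain ⟨v, hv⟩ : ∃ v, v = u - 1 := ⟨_, rfl⟩
    have hv0 : 0 ≤ v := by linarith
    have hu' : u = 1 + v := by linarith
    have h1 : x ≤ x ^ 4 := by
      have := pow_le_pow_right₀ hx (show 1 ≤ 4 by norm_num)
      rwa [pow_one] at this
    have h2 : x ^ 2 ≤ x ^ 4 := pow_le_pow_right₀ hx (by norm_num)
    have h3 : x ^ 3 ≤ x ^ 4 := pow_le_pow_right₀ hx (by norm_num)
    rw [← hv, hu']
    have e1 : (1 + x * v) ^ 4 = 1 + x * (4 * v) + x ^ 2 * (6 * v ^ 2) + x ^ 3 * (4 * v ^ 3) + x ^ 4 * v ^ 4 := by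
      ring
    have e2 : 1 + x ^ 4 * ((1 + v) ^ 4 - 1) =
        1 + x ^ 4 * (4 * v) + x ^ 4 * (6 * v ^ 2) + x ^ 4 * (4 * v ^ 3) + x ^ 4 * v ^ 4 := by
      ring
    rw [e1, e2]
    have f1 := mul_le_mul_of_nonneg_right h1 (by positivity : 0 ≤ 4 * v)
    have f2 := mul_le_mul_of_nonneg_right h2 (by positivity : 0 ≤ 6 * v ^ 2)
    have f3 := mul_le_mul_of_nonneg_right h3 (by positivity : 0 ≤ 4 * v ^ 3)
    linarith

theorem supX {p : ι → ℕ} (a : κ → ℤ) {ψ : ℤ → ℝ} (y : Finset ι → ℝ) (hy0 : y ∅ = 1)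
    (hy1 : ∀ S, |y S| ≤ 1) (D : ℝ) (n : ℤ) (hψ : ∀ m, ψ m = 0 ∨ 1 ≤ ψ m) :
    GZ p a ψ (Yd p y D) n ^ 4 ≤ ∏ j, (1 + ψ (n - a j) ^ 4 * (uu p (a j) n ^ 4 - 1)) := by
  have hψ0 : ∀ m, 0 ≤ ψ m := fun m => by
    rcases hψ m with h | h
    · exact h.ge
    · exact zero_le_one.trans h
  have h1 := supX_abs (p := p) a y hy0 hy1 D n hψ0
  have h2 : GZ p a ψ (Yd p y D) n ^ 4 = |GZ p a ψ (Yd p y D) n| ^ 4 :=
    (Even.pow_abs (by decide) _).symm
  rw [h2]
  refine (pow_le_pow_left₀ (abs_nonneg _) h1 4).trans ?_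
  rw [← prod_pow]
  refine prod_le_prod (fun j _ => ?_) fun j _ => SupX_four (hψ _) (one_le_uu p (a j) n)
  exact Even.pow_nonneg (by decide) _

end Pool.Agent.ES39
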